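import Pool.Agent.MP_d97ab6_al.H19.Defs

/-! Internal definitions: the group U(2,1), the form, Siegel coordinates, the cusp group, charts. -/

namespace Pool.Agent.MP_d97ab6_al.H19

open Matrix Complex
open scoped ComplexConjugate

abbrev M3 := Matrix (Fin 3) (Fin 3) ℂ
abbrev V3 := Fin 3 → ℂ

theorem om_sq : om * om = -1 - om := by
  have h : √3 * √3 = (3 : ℝ) := Real.mul_self_sqrt (by norm_num)
  apply Complex.ext
  · simp only [om, mul_re, sub_re, neg_re, one_re]; linarith
  · simp only [om, mul_im, sub_im, neg_im, one_im]; ring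

theorem conj_om : conj om = -1 - om := by
  apply Complex.ext
  · simp only [om, conj_re, sub_re, neg_re, one_re]; ring
  · simp only [om, conj_im, sub_im, neg_im, one_im]; ring

theorem sr_sq : sr * sr = -2 := by
  have h : √2 * √2 = (2 : ℝ) := Real.mul_self_sqrt (by norm_num)
  apply Complex.ext
  · simp [sr, h]
  · simp [sr]

theorem conj_sr : conj sr = -sr := by
  apply Complex.ext <;> simp [sr]

theorem J_conjT : Jᴴ = J := by
  ext i j
  fin_cases i <;> fin_cases j <;> simp [J]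

def IsU (g : M3) : Prop := gᴴ * J * g = J

theorem IsU.left_inv {g : M3} (h : IsU g) : (J * gᴴ * J) * g = 1 := by
  have : (J * gᴴ * J) * g = J * (gᴴ * J * g) := by simp only [Matrix.mul_assoc]
  rw [this, h, J_mul_J]

theorem IsU.right_inv {g : M3} (h : IsU g) : g * (J * gᴴ * J) = 1 :=
  mul_eq_one_comm.mp h.left_inv

theorem IsU.one : IsU 1 := by simp [IsU]

theorem IsU.mul {a b : M3} (ha : IsU a) (hb : IsU b) : IsU (a * b) := by
  unfold IsU at *
  rw [conjTranspose_mul]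
  calc bᴴ * aᴴ * J * (a * b) = bᴴ * (aᴴ * J * a) * b := by simp only [Matrix.mul_assoc]
    _ = J := by rw [ha, hb]

theorem IsU.inv {g : M3} (h : IsU g) : IsU (J * gᴴ * J) := by
  unfold IsU
  have h2 := h.right_inv
  simp only [conjTranspose_mul, J_conjT, conjTranspose_conjTranspose]
  calc J * (g * J) * J * (J * gᴴ * J) = J * (g * ((J * J) * (J * gᴴ * J))) := by
        simp only [Matrix.mul_assoc]
    _ = J := by rw [J_mul_J, Matrix.one_mul, h2, Matrix.mul_one]

/-- The group `U(2,1)`. -/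
def U21 : Type := {g : M3 // IsU g}

noncomputable instance : Mul U21 := ⟨fun a b => ⟨a.1 * b.1, a.2.mul b.2⟩⟩
instance : One U21 := ⟨⟨1, IsU.one⟩⟩
noncomputable instance : Inv U21 := ⟨fun a => ⟨J * (a.1)ᴴ * J, a.2.inv⟩⟩

@[simp] theorem U21.val_mul (a b : U21) : (a * b).1 = a.1 * b.1 := rfl
@[simp] theorem U21.val_one : (1 : U21).1 = 1 := rfl
theorem U21.val_inv (a : U21) : (a⁻¹).1 = J * (a.1)ᴴ * J := rfl

noncomputable instance : Group U21 :=
  Group.ofLeftAxioms (fun a b c => Subtype.ext (Matrix.mul_assoc a.1 b.1 c.1))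
    (fun a => Subtype.ext (Matrix.one_mul a.1)) (fun a => Subtype.ext a.2.left_inv)

/-- The action on vectors. -/
noncomputable def ap (g : U21) (v : V3) : V3 := g.1 *ᵥ v

theorem ap_mul (g h : U21) (v : V3) : ap (g * h) v = ap g (ap h v) := by
  simp [ap, Matrix.mulVec_mulVec]

@[simp] theorem ap_one (v : V3) : ap 1 v = v := by simp [ap]

theorem ap_smul (g : U21) (c : ℂ) (v : V3) : ap g (c • v) = c • ap g v := by
  simp [ap, Matrix.mulVec_smul]

/-- The Hermitian form. -/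
noncomputable def herm (v y : V3) : ℂ := conj (v 0) * y 2 + conj (v 1) * y 1 + conj (v 2) * y 0

theorem herm_eq (v y : V3) : herm v y = star v ⬝ᵥ (J *ᵥ y) := by
  simp [herm, J, dotProduct, Matrix.mulVec, Fin.sum_univ_three]

theorem herm_ap (g : U21) (v y : V3) : herm (ap g v) (ap g y) = herm v y := by
  rw [herm_eq, herm_eq, ap, ap, star_mulVec, Matrix.mulVec_mulVec, ← dotProduct_mulVec,
    Matrix.mulVec_mulVec, ← Matrix.mul_assoc, g.2]

theorem herm_smul_r (v y : V3) (c : ℂ) : herm v (c • y) = c * herm v y := by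
  simp only [herm, Pi.smul_apply, smul_eq_mul]
  ring

theorem herm_smul_l (v y : V3) (c : ℂ) : herm (c • v) y = conj c * herm v y := by
  simp only [herm, Pi.smul_apply, smul_eq_mul, map_mul]
  ring

/-- Minus the norm: positive on the vectors that represent points of the complex hyperbolic
plane. -/
noncomputable def nrm (y : V3) : ℝ := -(herm y y).re

theorem nrm_ap (g : U21) (y : V3) : nrm (ap g y) = nrm y := by rw [nrm, nrm, herm_ap]

/-- The vector of the point with Siegel coordinates `z = x + i y`, `t`, `u`. -/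
noncomputable def pt (x y t u : ℝ) : V3 := ![⟨-(x ^ 2 + y ^ 2 + u) / 2, t⟩, ⟨x, y⟩, 1]

/-- Siegel coordinates with the imaginary parts scaled by the square root of three. -/
noncomputable def bp (x y t u : ℝ) : V3 := pt x (√3 * y) (√3 * t) u

/-- The cusp at infinity. -/
def e0 : V3 := ![1, 0, 0]

theorem c_eq (g : U21) : g.1 2 0 = herm e0 (ap g e0) := by
  simp [herm, e0, ap, Matrix.mulVec, dotProduct, Fin.sum_univ_three]

theorem c_inv (h g : U21) : (h⁻¹ * g).1 2 0 = herm (ap h e0) (ap g e0) := by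
  rw [c_eq, ← herm_ap h, ← ap_mul, mul_inv_cancel_left]

/-- The subgroup of `SU(2,1)` with the same projective image as a subgroup of `U(2,1)`. -/
def lift (G : Subgroup U21) : Subgroup SU21 where
  carrier := {γ | ∃ (c : ℂ) (g : U21), g ∈ G ∧ g.1 = c • γ.1.1}
  one_mem' := ⟨1, 1, G.one_mem, by simp⟩
  mul_mem' := by
    rintro a b ⟨c, g, hg, h⟩ ⟨d, g', hg', h'⟩
    refine ⟨c * d, g * g', G.mul_mem hg hg', ?_⟩
    have : (a * b).1.1 = a.1.1 * b.1.1 := rfl
    rw [U21.val_mul, h, h', this, Matrix.smul_mul, Matrix.mul_smul, smul_smul]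
  inv_mem' := by
    rintro a ⟨c, g, hg, h⟩
    have h1 : a.1.1 * (a⁻¹).1.1 = 1 := by
      have : (a * a⁻¹).1.1 = a.1.1 * (a⁻¹).1.1 := rfl
      rw [← this, mul_inv_cancel]; rfl
    have h2 : (g⁻¹).1 * g.1 = 1 := by rw [← U21.val_mul, inv_mul_cancel]; rfl
    have hc : c ≠ 0 := by
      rintro rfl
      rw [h] at h2
      simp at h2
    refine ⟨c⁻¹, g⁻¹, G.inv_mem hg, ?_⟩
    calc (g⁻¹).1 = (g⁻¹).1 * (a.1.1 * (a⁻¹).1.1) := by rw [h1, Matrix.mul_one]
      _ = c⁻¹ • (((g⁻¹).1 * (c • a.1.1)) * (a⁻¹).1.1) := by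
          rw [Matrix.mul_smul, Matrix.smul_mul, smul_smul, inv_mul_cancel₀ hc, one_smul,
            Matrix.mul_assoc]
      _ = c⁻¹ • (a⁻¹).1.1 := by rw [← h, h2, Matrix.one_mul]

/-- A primitive sixth root of unity. -/
noncomputable def ze : ℂ := 1 + om

/-- Eisenstein integers. -/
noncomputable def eis (a b : ℤ) : ℂ := a + b * om

def nq (a b : ℤ) : ℤ := a ^ 2 - a * b + b ^ 2

/-- The matrices of the cusp group. -/
noncomputable def pm (k v : ℕ) (a b m : ℤ) : M3 :=
  ze ^ k • !![1, -conj (eis a b) * ze ^ v, (nq a b : ℂ) * om + (1 + 2 * om) * ((m : ℂ) / 3);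
    0, ze ^ v, eis a b; 0, 0, 1]

/-- The cusp group as a set. -/
def Pset : Set U21 := {g | ∃ k v a b m, g.1 = pm k v a b m}

/-- A fundamental domain for the cusp group. -/
def Dom (x y t : ℝ) : Prop :=
  0 ≤ y ∧ y ≤ x ∧ x ≤ 1 / 2 ∧ x + 3 * y ≤ 1 ∧ |t + y / 4 - x / 8| ≤ 1 / 6

/-- The squared product of the cusp of `h` with `y`. -/
noncomputable def rr (h : U21) (y : V3) : ℝ := normSq (herm (ap h e0) y)

/-- The Siegel set. -/
def Sieg (y : V3) : Prop :=
  ∃ (c : ℂ) (x0 x1 t u : ℝ), c ≠ 0 ∧ y = c • pt x0 x1 t u ∧ |x0| ≤ 1 ∧ |x1| ≤ 1 ∧ |t| ≤ 1 ∧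
    1 / 1000 ≤ u

/-- The group generated by the three reflections and the sixth roots of unity. -/
noncomputable def L0 : Subgroup U21 :=
  Subgroup.closure {g | g.1 = R1 ∨ g.1 = R2 ∨ g.1 = R3 ∨ g.1 = ze • (1 : M3)}

/-- The charts at the three cusps. -/
noncomputable def AM : Fin 3 → M3 :=
  ![1, (1 / 9 : ℂ) • !![0, 0, -5 - om - sr - 2 * om * sr; 0, 9, 0; -27 - 9 * om + 9 * om * sr, 0, 0],
    (1 / 3 : ℂ) • !![5 + om - 2 * sr - 4 * om * sr, 1 - 2 * om - sr - om * sr, -1 + sr;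
      -6 + 3 * om + 6 * sr + 6 * om * sr, 6 * om + 3 * sr, -1 - 2 * om - 2 * sr - om * sr;
      -3 + 12 * om + 12 * sr + 6 * om * sr, 3 + 9 * om + 6 * sr,
        -2 - om - 4 * sr - 2 * om * sr]]

theorem AM_isU (i : Fin 3) : IsU (AM i) := by
  have h1 := om_sq
  have h2 := sr_sq
  fin_cases i
  · exact IsU.one
  all_goals
    ext a b
    fin_cases a <;> fin_cases b <;>
      simp [AM, J, Matrix.mul_apply, Fin.sum_univ_three, conj_om, conj_sr, map_ofNat] <;> grind

noncomputable def A (i : Fin 3) : U21 := ⟨AM i, AM_isU i⟩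

/-- The elements of the groupoid from the chart `j` to the chart `i`. -/
def Rel (i j : Fin 3) (g : U21) : Prop := A i * g * (A j)⁻¹ ∈ L0

theorem Rel.one (i : Fin 3) : Rel i i 1 := by
  simp only [Rel, mul_one, mul_inv_cancel]; exact L0.one_mem

theorem Rel.mul {i j k : Fin 3} {g h : U21} (a : Rel i j g) (b : Rel j k h) : Rel i k (g * h) := by
  have := L0.mul_mem a b
  rwa [show A i * g * (A j)⁻¹ * (A j * h * (A k)⁻¹) = A i * (g * h) * (A k)⁻¹ by group] at this

theorem Rel.inv {i j : Fin 3} {g : U21} (a : Rel i j g) : Rel j i g⁻¹ := by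
  have := L0.inv_mem a
  rwa [show (A i * g * (A j)⁻¹)⁻¹ = A j * g⁻¹ * (A i)⁻¹ by group] at this

theorem A_zero : A 0 = 1 := rfl

theorem rel_zero {g : U21} : Rel 0 0 g ↔ g ∈ L0 := by
  simp only [Rel, A_zero, one_mul, inv_one, mul_one]

theorem rel_A (i : Fin 3) : Rel 0 i (A i) := by
  simp only [Rel, A_zero, one_mul, mul_inv_cancel]; exact L0.one_mem

end Pool.Agent.MP_d97ab6_al.H19
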