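import Mathlib

/-! The box checker: sheared boxes in fixed point coordinates, and its soundness. -/

namespace Pool.Agent.MP_d97ab6_al.H19

/-- Lists of records of unresolved cusps. -/
inductive RL
  | nil
  | cons (a0 a1 ap an th j : Nat) (tl : RL)

/-- Certificates. -/
inductive Tr
  | s0 (l r : Tr)
  | s1 (l r : Tr)
  | s2 (l r : Tr)
  | hub (u : Nat) (t : Tr)
  | leaf
  | out

noncomputable def frc (n : Nat) (k : Nat → Bool) : Bool :=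
  Nat.rec (motive := fun _ => Bool) false (fun m _ => k m) (Nat.succ n)

noncomputable def band (x y : Bool) : Bool := Bool.rec (motive := fun _ => Bool) false y x

noncomputable def bor (x y : Bool) : Bool := Bool.rec (motive := fun _ => Bool) y true x

def ad (x y : Nat) : Nat := Nat.add (Nat.sub x y) (Nat.sub y x)

def tb (n j : Nat) : Bool := Nat.beq (Nat.land (Nat.shiftRight n j) 1) 1

def bc (c0 c1 c4 a0 a1 ap an : Nat) : Nat :=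
  ad (Nat.add (Nat.add c4 an) (Nat.mul a0 c1)) (Nat.add ap (Nat.mul a1 c0))

def er (c0 c1 r0 r1 r4 a0 a1 : Nat) : Nat :=
  Nat.add r4 (Nat.add (Nat.mul (ad a0 c0) r1) (Nat.mul (ad a1 c1) r0))

def cmb (x y z : Nat) : Nat :=
  Nat.add (Nat.pow (Nat.add (Nat.pow x 2) (Nat.mul 3 (Nat.pow y 2))) 2) (Nat.mul 12 (Nat.pow z 2))

def far (c0 c1 c4 r0 r1 r4 a0 a1 ap an th : Nat) : Bool :=
  Nat.ble th (cmb (Nat.sub (ad a0 c0) r0) (Nat.sub (ad a1 c1) r1)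
    (Nat.sub (bc c0 c1 c4 a0 a1 ap an) (er c0 c1 r0 r1 r4 a0 a1)))

def val (c0 c1 c4 r0 r1 r4 a0 a1 ap an th : Nat) : Bool :=
  Nat.ble (cmb (Nat.add (ad a0 c0) r0) (Nat.add (ad a1 c1) r1)
    (Nat.add (bc c0 c1 c4 a0 a1 ap an) (er c0 c1 r0 r1 r4 a0 a1))) th

noncomputable def outB (c0 c1 c4 r0 r1 r4 : Nat) : Bool :=
  bor (Nat.ble (Nat.add (Nat.add c0 r0) r1) (Nat.add c1 1))
    (bor (Nat.ble (Nat.add (Nat.add 17825792 r0) (Nat.mul 3 r1))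
        (Nat.add (Nat.add c0 (Nat.mul 3 c1)) 3))
      (Nat.ble 183251937963 (Nat.sub (bc c0 c1 c4 4456448 4325376 35734127902720 0)
        (er c0 c1 r0 r1 r4 4456448 4325376))))

/-- Remove the masked and the far records, in continuation style. -/
noncomputable def flt (c0 c1 c4 r0 r1 r4 nb : Nat) (k : RL → Bool) (U : RL) : RL → Bool :=
  RL.rec (motive := fun _ => RL → Bool) k
    (fun a0 a1 ap an th j _ ih acc =>
      Bool.rec (motive := fun _ => Bool) (ih (RL.cons a0 a1 ap an th j acc)) (ih acc)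
        (bor (tb nb j) (far c0 c1 c4 r0 r1 r4 a0 a1 ap an th))) U

noncomputable def isNil (U : RL) : Bool :=
  RL.rec (motive := fun _ => Bool) true (fun _ _ _ _ _ _ _ _ => false) U

abbrev KT := Nat → Nat → Nat → Nat → Nat → Nat → RL → Nat → Bool

noncomputable def sp0 (l r : KT) (c0 c1 c4 r0 r1 r4 nb : Nat) (U : RL) : Bool :=
  frc (Nat.div (Nat.sub r0 1) 2) fun h => frc (Nat.mul h c1) fun e => frc (Nat.sub r0 h) fun s =>
    frc (Nat.add r4 (Nat.mul h r1)) fun q =>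
      band (band (Nat.ble h c0) (Nat.ble e c4))
        (band (frc (Nat.sub c0 h) fun c => frc (Nat.sub c4 e) fun d => l c c1 d s r1 q U nb)
          (frc (Nat.add c0 h) fun c => frc (Nat.add c4 e) fun d => r c c1 d s r1 q U nb))

noncomputable def sp1 (l r : KT) (c0 c1 c4 r0 r1 r4 nb : Nat) (U : RL) : Bool :=
  frc (Nat.div (Nat.sub r1 1) 2) fun h => frc (Nat.mul h c0) fun e => frc (Nat.sub r1 h) fun s =>
    frc (Nat.add r4 (Nat.mul h r0)) fun q =>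
      band (band (Nat.ble h c1) (Nat.ble e c4))
        (band (frc (Nat.sub c1 h) fun c => frc (Nat.add c4 e) fun d => l c0 c d r0 s q U nb)
          (frc (Nat.add c1 h) fun c => frc (Nat.sub c4 e) fun d => r c0 c d r0 s q U nb))

noncomputable def sp2 (l r : KT) (c0 c1 c4 r0 r1 r4 nb : Nat) (U : RL) : Bool :=
  frc (Nat.div (Nat.sub r4 (Nat.add (Nat.add r0 r1) 8)) 2) fun h => frc (Nat.sub r4 h) fun q =>
    band (Nat.ble h c4)
      (band (frc (Nat.sub c4 h) fun d => l c0 c1 d r0 r1 q U nb)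
        (frc (Nat.add c4 h) fun d => r c0 c1 d r0 r1 q U nb))

abbrev KH := Nat → Nat → Nat → Nat → Nat → Nat → Nat → Bool → Bool

noncomputable def chk (hb : Nat → KH → Bool) (t : Tr) : KT :=
  Tr.rec (motive := fun _ => KT)
    (fun _ _ l r c0 c1 c4 r0 r1 r4 U nb =>
      flt c0 c1 c4 r0 r1 r4 nb (sp0 l r c0 c1 c4 r0 r1 r4 nb) U RL.nil)
    (fun _ _ l r c0 c1 c4 r0 r1 r4 U nb =>
      flt c0 c1 c4 r0 r1 r4 nb (sp1 l r c0 c1 c4 r0 r1 r4 nb) U RL.nil)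
    (fun _ _ l r c0 c1 c4 r0 r1 r4 U nb =>
      flt c0 c1 c4 r0 r1 r4 nb (sp2 l r c0 c1 c4 r0 r1 r4 nb) U RL.nil)
    (fun u _ ih c0 c1 c4 r0 r1 r4 U nb => hb u fun a0 a1 ap an th j m f =>
      band (bor (tb nb j) (band (Nat.beq nb 0) f))
        (band (val c0 c1 c4 r0 r1 r4 a0 a1 ap an th)
          (frc (Nat.lor nb m) fun nb' => ih c0 c1 c4 r0 r1 r4 U nb')))
    (fun c0 c1 c4 r0 r1 r4 U nb =>
      band (Nat.ble 1 nb) (flt c0 c1 c4 r0 r1 r4 nb isNil U RL.nil))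
    (fun c0 c1 c4 r0 r1 r4 _ _ => outB c0 c1 c4 r0 r1 r4) t

/-- The scaled fourth power of the distance. -/
def GG (A0 A1 A4 X Y T : ℝ) : ℝ :=
  ((X - A0) ^ 2 + 3 * (Y - A1) ^ 2) ^ 2 + 12 * (T - A4 + A0 * Y - A1 * X) ^ 2

def InB (c0 c1 c4 r0 r1 r4 : ℕ) (X Y T : ℝ) : Prop :=
  |X - c0| + 1 ≤ r0 ∧ |Y - c1| + 1 ≤ r1 ∧ |T + c0 * Y - c1 * X - c4| + r0 + r1 + 8 ≤ r4

def Enc (e : ℝ) (a0 a1 ap an : ℕ) (A0 A1 A4 : ℝ) : Prop :=
  |A0 - a0| ≤ 1 ∧ |A1 - a1| ≤ 1 ∧ |A4 + a0 * A1 - a1 * A0 - (ap - an)| ≤ e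

def DomS (X Y T : ℝ) : Prop :=
  Y ≤ X ∧ X + 3 * Y ≤ 17825792 ∧
    |T - 35734127902720 + 4456448 * Y - 4325376 * X| ≤ 1099511627776 / 6

def RQ (valid G : ℕ → Prop) (Q : Prop) (j : ℕ) : Prop := (Q → G j) ∧ (valid j → G j → Q)

def UOK (close : ℕ → Prop) (X Y T : ℝ) : RL → Prop
  | .nil => True
  | .cons a0 a1 ap an th j tl =>
    (∃ A0 A1 A4, Enc 8 a0 a1 ap an A0 A1 A4 ∧ ((th : ℝ) ≤ GG A0 A1 A4 X Y T → ¬ close j)) ∧
      UOK close X Y T tl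

def HOK (valid fst : ℕ → Prop) (A : ℕ → ℕ → Prop) (X Y T : ℝ) (hb : Nat → KH → Bool) : Prop :=
  ∀ u k, hb u k = true → ∃ a0 a1 ap an th j m f, k a0 a1 ap an th j m f = true ∧
    (∃ A0 A1 A4, Enc 8 a0 a1 ap an A0 A1 A4 ∧ (GG A0 A1 A4 X Y T ≤ th → valid j)) ∧
    (∀ i, m.testBit i = true → A j i) ∧ (f = true → fst j)

def UG (close R : ℕ → Prop) : RL → Prop
  | .nil => True
  | .cons _ _ _ _ _ j tl => (close j → R j) ∧ UG close R tl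

theorem frc_eq (n : ℕ) (k : ℕ → Bool) : frc n k = k n := rfl

theorem band_iff {x y : Bool} : band x y = true ↔ x = true ∧ y = true := by
  cases x <;> cases y <;> simp [band]

theorem bor_iff {x y : Bool} : bor x y = true ↔ x = true ∨ y = true := by
  cases x <;> cases y <;> simp [bor]

theorem tb_iff {n j : ℕ} : tb n j = true ↔ n.testBit j = true := by
  have e : Nat.land (Nat.shiftRight n j) 1 = n / 2 ^ j % 2 := by
    change (n >>> j) &&& 1 = _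
    rw [Nat.and_one_is_mod, Nat.shiftRight_eq_div_pow]
  rw [tb, e, Nat.beq_eq, Nat.testBit_eq_decide_div_mod_eq, decide_eq_true_iff]

namespace Box

theorem ad_cast (x y : ℕ) : ((ad x y : ℕ) : ℝ) = |(x : ℝ) - y| := by
  change ((x - y + (y - x) : ℕ) : ℝ) = _
  rcases le_total x y with h | h
  · have h1 : (x : ℝ) ≤ y := by exact_mod_cast h
    rw [Nat.sub_eq_zero_of_le h, zero_add, Nat.cast_sub h, abs_sub_comm,
      abs_of_nonneg (sub_nonneg.2 h1)]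
  · have h1 : (y : ℝ) ≤ x := by exact_mod_cast h
    rw [Nat.sub_eq_zero_of_le h, add_zero, Nat.cast_sub h, abs_of_nonneg (sub_nonneg.2 h1)]

theorem lo {x y r : ℕ} {z : ℝ} (h : |z - ((x : ℝ) - y)| ≤ r) :
    ((Nat.sub (ad x y) r : ℕ) : ℝ) ≤ |z| := by
  change ((ad x y - r : ℕ) : ℝ) ≤ _
  rcases le_total (ad x y) r with h1 | h1
  · rw [Nat.sub_eq_zero_of_le h1, Nat.cast_zero]
    exact abs_nonneg z
  · rw [Nat.cast_sub h1, ad_cast]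
    have h3 := abs_sub_abs_le_abs_sub ((x : ℝ) - y) z
    rw [abs_sub_comm ((x : ℝ) - y) z] at h3
    linarith

theorem hi {x y r : ℕ} {z : ℝ} (h : |z - ((x : ℝ) - y)| ≤ r) :
    |z| ≤ ((Nat.add (ad x y) r : ℕ) : ℝ) := by
  change _ ≤ ((ad x y + r : ℕ) : ℝ)
  rw [Nat.cast_add, ad_cast]
  have h3 := abs_sub_abs_le_abs_sub z ((x : ℝ) - y)
  linarith

theorem cmb_cast (x y z : ℕ) :
    ((cmb x y z : ℕ) : ℝ) = ((x : ℝ) ^ 2 + 3 * (y : ℝ) ^ 2) ^ 2 + 12 * (z : ℝ) ^ 2 := by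
  change (((x ^ 2 + 3 * y ^ 2) ^ 2 + 12 * z ^ 2 : ℕ) : ℝ) = _
  push_cast
  rfl

theorem comb {l0 l1 l2 z0 z1 z2 : ℝ} (p0 : 0 ≤ l0) (p1 : 0 ≤ l1) (p2 : 0 ≤ l2) (h0 : l0 ≤ z0)
    (h1 : l1 ≤ z1) (h2 : l2 ≤ z2) :
    (l0 ^ 2 + 3 * l1 ^ 2) ^ 2 + 12 * l2 ^ 2 ≤ (z0 ^ 2 + 3 * z1 ^ 2) ^ 2 + 12 * z2 ^ 2 := by
  gcongr

theorem mul_le {x y a b : ℝ} (hx : |x| ≤ a) (hy : |y| ≤ b) : |x * y| ≤ a * b := by
  rw [abs_mul]
  exact mul_le_mul hx hy (abs_nonneg _) ((abs_nonneg _).trans hx)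

variable {c0 c1 c4 r0 r1 r4 a0 a1 ap an th : ℕ} {X Y T A0 A1 A4 : ℝ}

theorem three (h : InB c0 c1 c4 r0 r1 r4 X Y T) (e : Enc 8 a0 a1 ap an A0 A1 A4) :
    |A0 - X - ((a0 : ℝ) - c0)| ≤ r0 ∧ |A1 - Y - ((a1 : ℝ) - c1)| ≤ r1 ∧
      |T - A4 + A0 * Y - A1 * X - (((Nat.add (Nat.add c4 an) (Nat.mul a0 c1) : ℕ) : ℝ) -
        ((Nat.add ap (Nat.mul a1 c0) : ℕ) : ℝ))| ≤ ((er c0 c1 r0 r1 r4 a0 a1 : ℕ) : ℝ) := by
  obtain ⟨b0, b1, b4⟩ := h
  obtain ⟨e0, e1, e4⟩ := e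
  have k0 : |A0 - X - ((a0 : ℝ) - c0)| ≤ r0 := by
    rw [show A0 - X - ((a0 : ℝ) - c0) = (A0 - a0) - (X - c0) by ring]
    exact (abs_sub _ _).trans (by linarith)
  have k1 : |A1 - Y - ((a1 : ℝ) - c1)| ≤ r1 := by
    rw [show A1 - Y - ((a1 : ℝ) - c1) = (A1 - a1) - (Y - c1) by ring]
    exact (abs_sub _ _).trans (by linarith)
  refine ⟨k0, k1, ?_⟩
  have j0 := abs_le.1 (mul_le (le_refl |(a0 : ℝ) - c0|)
    (show |(Y - c1) + (A1 - a1)| ≤ r1 from (abs_add_le _ _).trans (by linarith)))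
  have j1 := abs_le.1 (mul_le (le_refl |(a1 : ℝ) - c1|)
    (show |(X - c0) + (A0 - a0)| ≤ r0 from (abs_add_le _ _).trans (by linarith)))
  have j2 := abs_le.1 (mul_le e0 (show |Y - c1| ≤ r1 by linarith))
  have j3 := abs_le.1 (mul_le e1 (show |X - c0| ≤ r0 by linarith))
  have j4 := abs_le.1 (show |T + c0 * Y - c1 * X - c4| ≤ r4 - r0 - r1 - 8 by linarith)
  have j5 := abs_le.1 e4
  have q : ((er c0 c1 r0 r1 r4 a0 a1 : ℕ) : ℝ) =
      r4 + (|(a0 : ℝ) - c0| * r1 + |(a1 : ℝ) - c1| * r0) := by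
    change ((r4 + (ad a0 c0 * r1 + ad a1 c1 * r0) : ℕ) : ℝ) = _
    push_cast
    rw [ad_cast, ad_cast]
  rw [q]
  simp only [Nat.add_eq, Nat.mul_eq]
  push_cast
  rw [abs_le]
  constructor <;> linarith [j0.1, j0.2, j1.1, j1.2, j2.1, j2.2, j3.1, j3.2, j4.1, j4.2, j5.1, j5.2]

theorem GG_abs : GG A0 A1 A4 X Y T =
    (|A0 - X| ^ 2 + 3 * |A1 - Y| ^ 2) ^ 2 + 12 * |T - A4 + A0 * Y - A1 * X| ^ 2 := by
  simp only [sq_abs, GG]
  ring

theorem far_ok (h : InB c0 c1 c4 r0 r1 r4 X Y T) (e : Enc 8 a0 a1 ap an A0 A1 A4)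
    (k : far c0 c1 c4 r0 r1 r4 a0 a1 ap an th = true) : (th : ℝ) ≤ GG A0 A1 A4 X Y T := by
  obtain ⟨k0, k1, k2⟩ := three h e
  refine (Nat.cast_le.2 (Nat.le_of_ble_eq_true k)).trans ?_
  rw [cmb_cast, GG_abs]
  exact comb (Nat.cast_nonneg _) (Nat.cast_nonneg _) (Nat.cast_nonneg _) (lo k0) (lo k1) (lo k2)

theorem val_ok (h : InB c0 c1 c4 r0 r1 r4 X Y T) (e : Enc 8 a0 a1 ap an A0 A1 A4)
    (k : val c0 c1 c4 r0 r1 r4 a0 a1 ap an th = true) : GG A0 A1 A4 X Y T ≤ th := by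
  obtain ⟨k0, k1, k2⟩ := three h e
  refine le_trans ?_ (Nat.cast_le.2 (Nat.le_of_ble_eq_true k))
  rw [cmb_cast, GG_abs]
  exact comb (abs_nonneg _) (abs_nonneg _) (abs_nonneg _) (hi k0) (hi k1) (hi k2)

theorem not_out (hD : DomS X Y T) (h : InB c0 c1 c4 r0 r1 r4 X Y T) :
    outB c0 c1 c4 r0 r1 r4 ≠ true := by
  obtain ⟨d0, d1, d2⟩ := hD
  have e : Enc 8 4456448 4325376 35734127902720 0 4456448 4325376 35734127902720 := by
    simp only [Enc]; norm_num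
  have k := lo (three h e).2.2
  obtain ⟨h0, h1, -⟩ := h
  have a0 := le_abs_self (X - c0)
  have b0 := neg_abs_le (X - c0)
  have a1 := le_abs_self (Y - c1)
  have b1 := neg_abs_le (Y - c1)
  intro ho
  rw [outB, bor_iff, bor_iff] at ho
  rcases ho with ho | ho | ho
  · have ho' := (Nat.cast_le (α := ℝ)).2 (Nat.le_of_ble_eq_true ho)
    simp only [Nat.add_eq] at ho'
    push_cast at ho'
    linarith
  · have ho' := (Nat.cast_le (α := ℝ)).2 (Nat.le_of_ble_eq_true ho)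
    simp only [Nat.add_eq, Nat.mul_eq] at ho'
    push_cast at ho'
    linarith
  · have ho' := ((Nat.cast_le (α := ℝ)).2 (Nat.le_of_ble_eq_true ho)).trans k
    push_cast at ho'
    linarith

theorem half {M r : ℕ} {x : ℝ} (h : |x| + M ≤ r) :
    ((r - M) / 2 : ℕ) ≤ r ∧ (|x + ((r - M) / 2 : ℕ)| + M ≤ r - ((r - M) / 2 : ℕ) ∨
      |x - ((r - M) / 2 : ℕ)| + M ≤ r - ((r - M) / 2 : ℕ)) := by
  have m : M ≤ r := by
    have : (M : ℝ) ≤ r := by linarith [abs_nonneg x]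
    exact_mod_cast this
  have h1 : 2 * ((r - M) / 2) + M ≤ r := by omega
  have h2 : 2 * (((r - M) / 2 : ℕ) : ℝ) + M ≤ r := by exact_mod_cast h1
  have h3 : (0 : ℝ) ≤ ((r - M) / 2 : ℕ) := Nat.cast_nonneg _
  refine ⟨by omega, ?_⟩
  generalize (((r - M) / 2 : ℕ) : ℝ) = k at *
  rcases le_total x 0 with c | c
  · left
    rw [abs_of_nonpos c] at h
    have : |x + k| ≤ r - k - M := abs_le.2 ⟨by linarith, by linarith⟩
    linarith
  · right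
    rw [abs_of_nonneg c] at h
    have : |x - k| ≤ r - k - M := abs_le.2 ⟨by linarith, by linarith⟩
    linarith

variable {l r : KT} {nb : ℕ} {U : RL}

theorem shear {x y M h r : ℝ} (a : |x| ≤ M) (b : |y| + 1 ≤ r) (c : 0 ≤ h) :
    |x + h * y| ≤ M + h * r ∧ |x - h * y| ≤ M + h * r := by
  have k : |h * y| ≤ h * r := mul_le (abs_of_nonneg c).le (by linarith)
  exact ⟨(abs_add_le _ _).trans (by linarith), (abs_sub _ _).trans (by linarith)⟩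

theorem sp0_ok (h : InB c0 c1 c4 r0 r1 r4 X Y T) (k : sp0 l r c0 c1 c4 r0 r1 r4 nb U = true) :
    ∃ d0 d1 d4 q0 q1 q4, InB d0 d1 d4 q0 q1 q4 X Y T ∧
      (l d0 d1 d4 q0 q1 q4 U nb = true ∧ True ∨ r d0 d1 d4 q0 q1 q4 U nb = true ∧ True) := by
  obtain ⟨b0, b1, b4⟩ := h
  simp only [sp0, frc_eq, band_iff, Nat.ble_eq, Nat.add_eq, Nat.mul_eq, Nat.sub_eq] at k
  obtain ⟨⟨k1, k2⟩, k3, k4⟩ := k
  obtain ⟨p, q⟩ := half (M := 1) (by exact_mod_cast b0)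
  change (r0 - 1) / 2 ≤ c0 at k1
  change (r0 - 1) / 2 * c1 ≤ c4 at k2
  have s := shear (show |T + c0 * Y - c1 * X - c4| ≤ r4 - r0 - r1 - 8 by linarith) b1
    (Nat.cast_nonneg ((r0 - 1) / 2))
  have p0 : (0 : ℝ) ≤ ((r0 - 1) / 2 : ℕ) := Nat.cast_nonneg _
  rcases q with q | q
  · refine ⟨c0 - (r0 - 1) / 2, c1, c4 - (r0 - 1) / 2 * c1, r0 - (r0 - 1) / 2, r1,
      r4 + (r0 - 1) / 2 * r1, ?_, Or.inl ⟨k3, trivial⟩⟩
    rw [InB, Nat.cast_sub k1, Nat.cast_sub k2, Nat.cast_sub p, Nat.cast_add, Nat.cast_mul,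
      Nat.cast_mul]
    generalize (((r0 - 1) / 2 : ℕ) : ℝ) = h at *
    refine ⟨by rw [show X - (c0 - h) = X - c0 + h by ring]; exact_mod_cast q, b1, ?_⟩
    rw [show T + (c0 - h) * Y - c1 * X - (c4 - h * c1) =
      T + c0 * Y - c1 * X - c4 - h * (Y - c1) by ring]
    linarith [s.2]
  · refine ⟨c0 + (r0 - 1) / 2, c1, c4 + (r0 - 1) / 2 * c1, r0 - (r0 - 1) / 2, r1,
      r4 + (r0 - 1) / 2 * r1, ?_, Or.inr ⟨k4, trivial⟩⟩
    rw [InB, Nat.cast_add, Nat.cast_add, Nat.cast_sub p, Nat.cast_add, Nat.cast_mul,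
      Nat.cast_mul]
    generalize (((r0 - 1) / 2 : ℕ) : ℝ) = h at *
    refine ⟨by rw [show X - (c0 + h) = X - c0 - h by ring]; exact_mod_cast q, b1, ?_⟩
    rw [show T + (c0 + h) * Y - c1 * X - (c4 + h * c1) =
      T + c0 * Y - c1 * X - c4 + h * (Y - c1) by ring]
    linarith [s.1]

theorem sp1_ok (h : InB c0 c1 c4 r0 r1 r4 X Y T) (k : sp1 l r c0 c1 c4 r0 r1 r4 nb U = true) :
    ∃ d0 d1 d4 q0 q1 q4, InB d0 d1 d4 q0 q1 q4 X Y T ∧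
      (l d0 d1 d4 q0 q1 q4 U nb = true ∧ True ∨ r d0 d1 d4 q0 q1 q4 U nb = true ∧ True) := by
  obtain ⟨b0, b1, b4⟩ := h
  simp only [sp1, frc_eq, band_iff, Nat.ble_eq, Nat.add_eq, Nat.mul_eq, Nat.sub_eq] at k
  obtain ⟨⟨k1, k2⟩, k3, k4⟩ := k
  obtain ⟨p, q⟩ := half (M := 1) (by exact_mod_cast b1)
  change (r1 - 1) / 2 ≤ c1 at k1
  change (r1 - 1) / 2 * c0 ≤ c4 at k2
  have s := shear (show |T + c0 * Y - c1 * X - c4| ≤ r4 - r0 - r1 - 8 by linarith) b0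
    (Nat.cast_nonneg ((r1 - 1) / 2))
  have p0 : (0 : ℝ) ≤ ((r1 - 1) / 2 : ℕ) := Nat.cast_nonneg _
  rcases q with q | q
  · refine ⟨c0, c1 - (r1 - 1) / 2, c4 + (r1 - 1) / 2 * c0, r0, r1 - (r1 - 1) / 2,
      r4 + (r1 - 1) / 2 * r0, ?_, Or.inl ⟨k3, trivial⟩⟩
    rw [InB, Nat.cast_sub k1, Nat.cast_add, Nat.cast_sub p, Nat.cast_add, Nat.cast_mul,
      Nat.cast_mul]
    generalize (((r1 - 1) / 2 : ℕ) : ℝ) = h at *
    refine ⟨b0, by rw [show Y - (c1 - h) = Y - c1 + h by ring]; exact_mod_cast q, ?_⟩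
    rw [show T + c0 * Y - (c1 - h) * X - (c4 + h * c0) =
      T + c0 * Y - c1 * X - c4 + h * (X - c0) by ring]
    linarith [s.1]
  · refine ⟨c0, c1 + (r1 - 1) / 2, c4 - (r1 - 1) / 2 * c0, r0, r1 - (r1 - 1) / 2,
      r4 + (r1 - 1) / 2 * r0, ?_, Or.inr ⟨k4, trivial⟩⟩
    rw [InB, Nat.cast_add, Nat.cast_sub k2, Nat.cast_sub p, Nat.cast_add, Nat.cast_mul,
      Nat.cast_mul]
    generalize (((r1 - 1) / 2 : ℕ) : ℝ) = h at *
    refine ⟨b0, by rw [show Y - (c1 + h) = Y - c1 - h by ring]; exact_mod_cast q, ?_⟩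
    rw [show T + c0 * Y - (c1 + h) * X - (c4 - h * c0) =
      T + c0 * Y - c1 * X - c4 - h * (X - c0) by ring]
    linarith [s.2]

theorem sp2_ok (h : InB c0 c1 c4 r0 r1 r4 X Y T) (k : sp2 l r c0 c1 c4 r0 r1 r4 nb U = true) :
    ∃ d0 d1 d4 q0 q1 q4, InB d0 d1 d4 q0 q1 q4 X Y T ∧
      (l d0 d1 d4 q0 q1 q4 U nb = true ∧ True ∨ r d0 d1 d4 q0 q1 q4 U nb = true ∧ True) := by
  obtain ⟨b0, b1, b4⟩ := h
  simp only [sp2, frc_eq, band_iff, Nat.ble_eq, Nat.add_eq, Nat.sub_eq] at k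
  obtain ⟨k1, k3, k4⟩ := k
  obtain ⟨p, q⟩ := half (M := r0 + r1 + 8) (x := T + c0 * Y - c1 * X - c4) (r := r4)
    (by push_cast; linarith)
  change (r4 - (r0 + r1 + 8)) / 2 ≤ c4 at k1
  rcases q with q | q
  · refine ⟨c0, c1, c4 - (r4 - (r0 + r1 + 8)) / 2, r0, r1, r4 - (r4 - (r0 + r1 + 8)) / 2, ?_,
      Or.inl ⟨k3, trivial⟩⟩
    rw [InB, Nat.cast_sub k1, Nat.cast_sub p]
    generalize (((r4 - (r0 + r1 + 8)) / 2 : ℕ) : ℝ) = h at *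
    refine ⟨b0, b1, ?_⟩
    rw [show T + c0 * Y - c1 * X - (c4 - h) = T + c0 * Y - c1 * X - c4 + h by ring]
    push_cast at q
    linarith
  · refine ⟨c0, c1, c4 + (r4 - (r0 + r1 + 8)) / 2, r0, r1, r4 - (r4 - (r0 + r1 + 8)) / 2, ?_,
      Or.inr ⟨k4, trivial⟩⟩
    rw [InB, Nat.cast_add, Nat.cast_sub p]
    generalize (((r4 - (r0 + r1 + 8)) / 2 : ℕ) : ℝ) = h at *
    refine ⟨b0, b1, ?_⟩
    rw [show T + c0 * Y - c1 * X - (c4 + h) = T + c0 * Y - c1 * X - c4 - h by ring]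
    push_cast at q
    linarith

variable {close : ℕ → Prop}

theorem flt_ok (h : InB c0 c1 c4 r0 r1 r4 X Y T) (k : RL → Bool) (U : RL) : ∀ acc : RL,
    UOK close X Y T U → UOK close X Y T acc → flt c0 c1 c4 r0 r1 r4 nb k U acc = true →
    ∃ acc', k acc' = true ∧ UOK close X Y T acc' ∧ ∀ R : ℕ → Prop,
      (∀ j, nb.testBit j = true → R j) → UG close R acc' → UG close R U ∧ UG close R acc := by
  induction U with
  | nil => exact fun acc _ ha hk => ⟨acc, hk, ha, fun _ _ hG => ⟨trivial, hG⟩⟩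
  | cons a0 a1 ap an th j tl ih =>
    intro acc hU ha hk
    obtain ⟨⟨A0, A1, A4, e, hf⟩, hU⟩ := hU
    change Bool.rec (motive := fun _ => Bool)
      (flt c0 c1 c4 r0 r1 r4 nb k tl (RL.cons a0 a1 ap an th j acc))
      (flt c0 c1 c4 r0 r1 r4 nb k tl acc)
      (bor (tb nb j) (far c0 c1 c4 r0 r1 r4 a0 a1 ap an th)) = true at hk
    cases c : bor (tb nb j) (far c0 c1 c4 r0 r1 r4 a0 a1 ap an th) <;> rw [c] at hk
    · obtain ⟨acc', e1, e2, e3⟩ := ih (RL.cons a0 a1 ap an th j acc) hU ⟨⟨A0, A1, A4, e, hf⟩, ha⟩ hk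
      exact ⟨acc', e1, e2, fun R hR hG => ⟨⟨(e3 R hR hG).2.1, (e3 R hR hG).1⟩, (e3 R hR hG).2.2⟩⟩
    · obtain ⟨acc', e1, e2, e3⟩ := ih acc hU ha hk
      refine ⟨acc', e1, e2, fun R hR hG => ⟨⟨fun hc => ?_, (e3 R hR hG).1⟩, (e3 R hR hG).2⟩⟩
      rcases bor_iff.1 c with c | c
      · exact hR j (tb_iff.1 c)
      · exact absurd hc (hf (far_ok h e c))

theorem main {valid fst G : ℕ → Prop} {A : ℕ → ℕ → Prop} {hb : Nat → KH → Bool}
    (h1 : ∀ i j, valid i → A i j → G i → G j) (h2 : ∀ i j, A i j → A j i) (hD : DomS X Y T)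
    (ht : HOK valid fst A X Y T hb) (t : Tr) : ∀ (c0 c1 c4 r0 r1 r4 : ℕ) (U : RL) (nb : ℕ),
      InB c0 c1 c4 r0 r1 r4 X Y T → UOK close X Y T U →
      chk hb t c0 c1 c4 r0 r1 r4 U nb = true → ∀ Q : Prop,
      (∀ j, nb.testBit j = true → RQ valid G Q j) → (nb ≠ 0 → ∃ i, fst i ∧ valid i) →
      (∃ i, fst i ∧ valid i) ∧ ∃ Q', (∀ j, nb.testBit j = true → RQ valid G Q' j) ∧
        UG close (RQ valid G Q') U := by
  induction t with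
  | s0 l r il ir =>
    intro c0 c1 c4 r0 r1 r4 U nb h hU hc Q hQ hV
    obtain ⟨acc, e1, e2, e3⟩ := flt_ok (close := close) h _ U RL.nil hU trivial hc
    obtain ⟨d0, d1, d4, q0, q1, q4, e4, e5⟩ := sp0_ok h e1
    obtain ⟨v, Q', e6, e7⟩ := e5.elim (fun e => il _ _ _ _ _ _ acc nb e4 e2 e.1 Q hQ hV)
      fun e => ir _ _ _ _ _ _ acc nb e4 e2 e.1 Q hQ hV
    exact ⟨v, Q', e6, (e3 _ e6 e7).1⟩
  | s1 l r il ir =>
    intro c0 c1 c4 r0 r1 r4 U nb h hU hc Q hQ hV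
    obtain ⟨acc, e1, e2, e3⟩ := flt_ok (close := close) h _ U RL.nil hU trivial hc
    obtain ⟨d0, d1, d4, q0, q1, q4, e4, e5⟩ := sp1_ok h e1
    obtain ⟨v, Q', e6, e7⟩ := e5.elim (fun e => il _ _ _ _ _ _ acc nb e4 e2 e.1 Q hQ hV)
      fun e => ir _ _ _ _ _ _ acc nb e4 e2 e.1 Q hQ hV
    exact ⟨v, Q', e6, (e3 _ e6 e7).1⟩
  | s2 l r il ir =>
    intro c0 c1 c4 r0 r1 r4 U nb h hU hc Q hQ hV
    obtain ⟨acc, e1, e2, e3⟩ := flt_ok (close := close) h _ U RL.nil hU trivial hc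
    obtain ⟨d0, d1, d4, q0, q1, q4, e4, e5⟩ := sp2_ok h e1
    obtain ⟨v, Q', e6, e7⟩ := e5.elim (fun e => il _ _ _ _ _ _ acc nb e4 e2 e.1 Q hQ hV)
      fun e => ir _ _ _ _ _ _ acc nb e4 e2 e.1 Q hQ hV
    exact ⟨v, Q', e6, (e3 _ e6 e7).1⟩
  | hub u t ih =>
    intro c0 c1 c4 r0 r1 r4 U nb h hU hc Q hQ hV
    obtain ⟨a0, a1, ap, an, th, i, m, f, hk, ⟨A0, A1, A4, e, hv⟩, hm, hf⟩ := ht u _ hc
    rw [band_iff, band_iff, bor_iff, band_iff, frc_eq] at hk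
    obtain ⟨hb', k2, k3⟩ := hk
    have hi := hv (val_ok h e k2)
    have fin : ∀ Q₁ : Prop, (G i ↔ Q₁) → (∀ j, nb.testBit j = true → RQ valid G Q₁ j) →
        (∃ i, fst i ∧ valid i) → (∃ i, fst i ∧ valid i) ∧ ∃ Q',
          (∀ j, nb.testBit j = true → RQ valid G Q' j) ∧ UG close (RQ valid G Q') U := by
      intro Q₁ e hQ₁ hV₁
      obtain ⟨-, Q', e1, e2⟩ := ih _ _ _ _ _ _ U (nb ||| m) h hU k3 Q₁ (fun j hj => by
        rw [Nat.testBit_or, Bool.or_eq_true] at hj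
        rcases hj with hj | hj
        · exact hQ₁ j hj
        · exact ⟨fun q => h1 i j hi (hm j hj) (e.2 q),
            fun v g => e.1 (h1 j i v (h2 i j (hm j hj)) g)⟩) fun _ => hV₁
      exact ⟨hV₁, Q', fun j hj => e1 j (by rw [Nat.testBit_or, hj]; rfl), e2⟩
    rcases hb' with hb' | ⟨hb', hlt⟩
    · have := tb_iff.1 hb'
      refine fin Q ⟨(hQ i this).2 hi, (hQ i this).1⟩ hQ (hV ?_)
      rintro rfl
      simp at this
    · refine fin (G i) Iff.rfl (fun j hj => ?_) ⟨i, hf hlt, hi⟩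
      rw [Nat.eq_of_beq_eq_true hb'] at hj
      simp at hj
  | leaf =>
    intro c0 c1 c4 r0 r1 r4 U nb h hU hc Q hQ hV
    obtain ⟨k1, k2⟩ := band_iff.1 hc
    obtain ⟨acc, e1, -, e3⟩ := flt_ok (close := close) h _ U RL.nil hU trivial k2
    refine ⟨hV (Nat.one_le_iff_ne_zero.1 (Nat.le_of_ble_eq_true k1)), Q, hQ, (e3 _ hQ ?_).1⟩
    cases acc
    · trivial
    · exact absurd e1 (by simp [isNil])
  | out => exact fun _ _ _ _ _ _ _ _ h _ hc => absurd hc (not_out hD h)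

end Box

/-- Soundness of the checker. -/
theorem chk_ok {valid fst close G : ℕ → Prop} {A : ℕ → ℕ → Prop} {hb : Nat → KH → Bool}
    {X Y T : ℝ} (h1 : ∀ i j, valid i → A i j → G i → G j) (h2 : ∀ i j, A i j → A j i)
    (hD : DomS X Y T) (ht : HOK valid fst A X Y T hb) {t : Tr} {c0 c1 c4 r0 r1 r4 : ℕ} {U : RL}
    (h : InB c0 c1 c4 r0 r1 r4 X Y T) (hU : UOK close X Y T U)
    (hc : chk hb t c0 c1 c4 r0 r1 r4 U 0 = true) :
    (∃ i, fst i ∧ valid i) ∧ ∃ Q, UG close (RQ valid G Q) U := by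
  obtain ⟨v, Q, -, e⟩ := Box.main (close := close) h1 h2 hD ht t _ _ _ _ _ _ U 0 h hU hc True
    (fun j hj => by simp at hj) fun h0 => absurd rfl h0
  exact ⟨v, Q, e⟩

end Pool.Agent.MP_d97ab6_al.H19
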