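import Pool.Agent.MP_d97ab6_al.H19.Spec

/-! Reduction into the fundamental domain by the cusp group. -/

namespace Pool.Agent.MP_d97ab6_al.H19

open Matrix Complex
open scoped ComplexConjugate

namespace Pred

theorem s3 : √3 * √3 = (3 : ℝ) := Real.mul_self_sqrt (by norm_num)

theorem ze_unit (v : ℕ) : conj (ze ^ v) * ze ^ v = 1 := by
  have h := om_sq
  rw [map_pow, ← mul_pow, show conj ze * ze = 1 by
    rw [ze, map_add, map_one, conj_om]; linear_combination -h, one_pow]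

theorem isU_aux {s e c : ℂ} (hs : conj s * s = 1) (hc : conj c + conj e * e + c = 0) :
    IsU !![1, -conj e * s, c; 0, s, e; 0, 0, 1] := by
  ext i j
  fin_cases i <;> fin_cases j <;> simp [J, Matrix.mul_apply, Fin.sum_univ_three, hs]
  · ring
  · linear_combination hc

theorem isU (v : ℕ) (a b m : ℤ) : IsU (pm 0 v a b m) := by
  have h := om_sq
  rw [pm, pow_zero, one_smul]
  refine isU_aux (ze_unit v) ?_
  simp only [eis, nq, map_add, map_mul, map_intCast, conj_om, map_div₀, map_one, map_ofNat]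
  push_cast
  linear_combination (-(b : ℂ) ^ 2) * h

theorem act {v : ℕ} (a b m : ℤ) {x y x1 y1 : ℝ} (t u : ℝ)
    (h1 : ze ^ v * ⟨x, √3 * y⟩ = ⟨x1, √3 * y1⟩) (h2 : x1 ^ 2 + 3 * y1 ^ 2 = x ^ 2 + 3 * y ^ 2) :
    pm 0 v a b m *ᵥ bp x y t u = bp (x1 + a - b / 2) (y1 + b / 2)
      (t + nq a b / 2 + m / 3 - ((a - b / 2) * y1 - b / 2 * x1)) u := by
  have h := s3
  funext i
  fin_cases i
  · simp only [pm, pow_zero, one_smul, bp, pt, Matrix.mulVec, dotProduct, Fin.sum_univ_three,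
      Fin.zero_eta, of_apply, cons_val', cons_val_zero, cons_val_one, cons_val_two, head_cons, tail_cons,
      cons_val_fin_one, mul_assoc, h1]
    apply Complex.ext <;> simp [eis, om, nq, pow_two]
    · linear_combination h2 / 2 + (y1 ^ 2 - y ^ 2 + (b : ℝ) ^ 2 / 4) / 2 * h
    · ring
  · simp only [pm, pow_zero, one_smul, bp, pt, Matrix.mulVec, dotProduct, Fin.sum_univ_three,
      Fin.mk_one, of_apply, cons_val', cons_val_zero, cons_val_one, cons_val_two, head_cons, tail_cons,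
      cons_val_fin_one, h1]
    apply Complex.ext <;> simp [eis, om] <;> ring
  · simp [pm, bp, pt, Matrix.mulVec, dotProduct, Fin.sum_univ_three]

/-- The hexagon. -/
def Hex (x y : ℝ) : Prop :=
  x ≤ 1 / 2 ∧ -x ≤ 1 / 2 ∧ x + 3 * y ≤ 1 ∧ x - 3 * y ≤ 1 ∧ -x + 3 * y ≤ 1 ∧ -x - 3 * y ≤ 1

theorem hex (x y : ℝ) : ∃ a b : ℤ, Hex (x + a - b / 2) (y + b / 2) := by
  obtain ⟨b, hb⟩ : ∃ b : ℤ, |2 * y - b| ≤ 1 / 2 := ⟨_, abs_sub_round _⟩
  obtain ⟨a, ha⟩ : ∃ a : ℤ, |x + b / 2 - a| ≤ 1 / 2 := ⟨_, abs_sub_round _⟩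
  obtain ⟨b1, b2⟩ := abs_le.1 hb
  obtain ⟨a1, a2⟩ := abs_le.1 ha
  by_cases c1 : (x + b / 2 - a) + 3 * (y - b / 2) ≤ 1
  · by_cases c2 : (x + b / 2 - a) - 3 * (y - b / 2) ≤ 1
    · by_cases c3 : -(x + b / 2 - a) + 3 * (y - b / 2) ≤ 1
      · by_cases c4 : -(x + b / 2 - a) - 3 * (y - b / 2) ≤ 1
        · refine ⟨-a, -b, ?_, ?_, ?_, ?_, ?_, ?_⟩ <;> push_cast <;> linarith
        · refine ⟨-a + 1, -b + 1, ?_, ?_, ?_, ?_, ?_, ?_⟩ <;> push_cast <;> linarith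
      · refine ⟨-a, -b - 1, ?_, ?_, ?_, ?_, ?_, ?_⟩ <;> push_cast <;> linarith
    · refine ⟨-a, -b + 1, ?_, ?_, ?_, ?_, ?_, ?_⟩ <;> push_cast <;> linarith
  · refine ⟨-a - 1, -b - 1, ?_, ?_, ?_, ?_, ?_, ?_⟩ <;> push_cast <;> linarith

theorem ze_mul (x y : ℝ) : ze * ⟨x, √3 * y⟩ = ⟨(x - 3 * y) / 2, √3 * ((x + y) / 2)⟩ := by
  have h := s3
  apply Complex.ext <;> simp [ze, om]
  · linear_combination (-y / 2) * h
  · ring

/-- After `v` rotations and a translation the point lies in the hexagon at `(p, q)`. -/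
def St (x y p q : ℝ) : Prop :=
  Hex p q ∧ ∃ (v : ℕ) (a b : ℤ) (x1 y1 : ℝ), ze ^ v * ⟨x, √3 * y⟩ = ⟨x1, √3 * y1⟩ ∧
    x1 ^ 2 + 3 * y1 ^ 2 = x ^ 2 + 3 * y ^ 2 ∧ p = x1 + a - b / 2 ∧ q = y1 + b / 2

theorem St.step {x y p q : ℝ} (h : St x y p q) : St x y ((p - 3 * q) / 2) ((p + q) / 2) := by
  obtain ⟨⟨h1, h2, h3, h4, h5, h6⟩, v, a, b, x1, y1, e, n, rfl, rfl⟩ := h
  refine ⟨⟨by linarith, by linarith, by linarith, by linarith, by linarith, by linarith⟩, v + 1,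
    a - b, a, _, _, by rw [pow_succ', mul_assoc, e, ze_mul], by rw [← n]; ring, ?_, ?_⟩
  · push_cast
    ring
  · ring

theorem St.six {x y p q : ℝ} (h : St x y p q) : ∃ p' q', St x y p' q' ∧ 0 ≤ q' ∧ q' ≤ p' := by
  by_cases c1 : 0 ≤ q
  · by_cases c2 : q ≤ p
    · exact ⟨_, _, h, c1, c2⟩
    by_cases c3 : 0 ≤ p + q
    · exact ⟨_, _, h.step.step.step.step.step, by linarith, by linarith⟩
    · exact ⟨_, _, h.step.step.step.step, by linarith, by linarith⟩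
  · by_cases c2 : 0 ≤ p + q
    · exact ⟨_, _, h.step, by linarith, by linarith⟩
    by_cases c3 : q ≤ p
    · exact ⟨_, _, h.step.step, by linarith, by linarith⟩
    · exact ⟨_, _, h.step.step.step, by linarith, by linarith⟩

end Pred

open H19.Pred in
theorem rowPred : SPred := by
  intro x y t
  obtain ⟨a₀, b₀, h₀⟩ := hex x y
  obtain ⟨p, q, ⟨h, v, a, b, x1, y1, e, n, rfl, rfl⟩, q0, q1⟩ :=
    St.six (x := x) (y := y) ⟨h₀, 0, a₀, b₀, x, y, by simp, rfl, rfl, rfl⟩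
  obtain ⟨m, hm⟩ : ∃ m : ℤ, |3 * (t + nq a b / 2 - ((a - b / 2) * y1 - b / 2 * x1) + (y1 + b / 2) / 4 -
    (x1 + a - b / 2) / 8) - m| ≤ 1 / 2 := ⟨_, abs_sub_round _⟩
  obtain ⟨m1, m2⟩ := abs_le.1 hm
  refine ⟨⟨_, isU v a b (-m)⟩, ⟨0, v, a, b, -m, rfl⟩, _, _, _, ⟨q0, q1, h.1, h.2.2.1, ?_⟩,
    fun u => act a b (-m) t u e n⟩
  rw [Int.cast_neg]
  exact abs_le.2 ⟨by linarith, by linarith⟩

end Pool.Agent.MP_d97ab6_al.H19
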