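import Pool.Agent.MP_d97ab6_al.H19.Pgrp
import Pool.Agent.MP_d97ab6_al.H19.Pred
import Pool.Agent.MP_d97ab6_al.H19.Chk

/-! Positions of cusps, scaled coordinates and the finite range of close translates. -/

namespace Pool.Agent.MP_d97ab6_al.H19

open Matrix Complex
open scoped ComplexConjugate

/-- The cusp of `h` lies at the given position, with depth `D`. -/
def PosOf (h : U21) (y0 y1 t D : ℝ) : Prop := ∃ d : ℂ, normSq d = D ∧ ap h e0 = d • bp y0 y1 t 0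

noncomputable def FF (y0 y1 t x0 x1 s : ℝ) : ℝ :=
  ((x0 - y0) ^ 2 + 3 * (x1 - y1) ^ 2) ^ 2 / 4 + 3 * (s - t + y0 * x1 - y1 * x0) ^ 2

def tX (x : ℝ) : ℝ := 1048576 * (x + 4)

def tT (x y t : ℝ) : ℝ := 1099511627776 * (t + 4 * (x - y) + 32)

namespace Pos

theorem s3ne : (√3 : ℝ) ≠ 0 := by positivity

theorem herm_bp (a0 a1 t x0 x1 s : ℝ) : herm (bp a0 a1 t 0) (bp x0 x1 s 0) =
    ⟨-((x0 - a0) ^ 2 + 3 * (x1 - a1) ^ 2) / 2, √3 * (s - t + a0 * x1 - a1 * x0)⟩ := by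
  apply Complex.ext
  · simp [herm, bp, pt]
    linear_combination (-(a1 - x1) ^ 2 / 2) * Pred.s3
  · simp [herm, bp, pt]
    ring

theorem ap_e0 (g : U21) (i : Fin 3) : ap g e0 i = g.1 i 0 := by
  simp [ap, e0, Matrix.mulVec, dotProduct, Fin.sum_univ_three]

theorem rr_eq {h : U21} {a0 a1 t D : ℝ} (hp : PosOf h a0 a1 t D) (x0 x1 s : ℝ) :
    rr h (bp x0 x1 s 0) = D * FF a0 a1 t x0 x1 s := by
  obtain ⟨d, hd, he⟩ := hp
  rw [rr, he, herm_smul_l, map_mul, normSq_conj, hd, herm_bp, normSq_mk, FF]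
  congr 1
  linear_combination (s - t + a0 * x1 - a1 * x0) ^ 2 * Pred.s3

theorem dep_eq {h : U21} {a0 a1 t D : ℝ} (hp : PosOf h a0 a1 t D) : normSq (h.1 2 0) = D := by
  obtain ⟨d, hd, he⟩ := hp
  rw [← ap_e0, he, ← hd]
  simp [bp, pt]

theorem pos_of (g : U21) (h0 : g.1 2 0 ≠ 0) :
    PosOf g (g.1 1 0 / g.1 2 0).re ((g.1 1 0 / g.1 2 0).im / √3) ((g.1 0 0 / g.1 2 0).im / √3)
      (normSq (g.1 2 0)) := by
  refine ⟨g.1 2 0, rfl, ?_⟩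
  have hn : herm (ap g e0) (ap g e0) = 0 := by
    rw [herm_ap]; simp [herm, e0]
  simp only [herm, ap_e0] at hn
  obtain ⟨w0, hw0⟩ : ∃ w, w = g.1 0 0 / g.1 2 0 := ⟨_, rfl⟩
  obtain ⟨w1, hw1⟩ : ∃ w, w = g.1 1 0 / g.1 2 0 := ⟨_, rfl⟩
  rw [← hw0, ← hw1]
  have e0' : g.1 0 0 = g.1 2 0 * w0 := by rw [hw0]; field_simp
  have e1' : g.1 1 0 = g.1 2 0 * w1 := by rw [hw1]; field_simp
  have hc : conj (g.1 2 0) ≠ 0 := by simpa using h0
  have hw : conj w0 + conj w1 * w1 + w0 = 0 := by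
    have : (conj (g.1 2 0) * g.1 2 0) * (conj w0 + conj w1 * w1 + w0) = 0 := by
      rw [e0', e1'] at hn
      simp only [map_mul] at hn
      linear_combination hn
    exact (mul_eq_zero.mp this).resolve_left (mul_ne_zero hc h0)
  have hre := congrArg Complex.re hw
  simp at hre
  have k1 : √3 * (w1.im / √3) = w1.im := by field_simp [s3ne]
  have k0 : √3 * (w0.im / √3) = w0.im := by field_simp [s3ne]
  funext i
  rw [ap_e0, bp, k0, k1]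
  fin_cases i
  · show g.1 0 0 = g.1 2 0 * _
    rw [e0']
    congr 1
    apply Complex.ext
    · simp [pt]; linarith
    · simp [pt]
  · show g.1 1 0 = g.1 2 0 * _
    rw [e1']
    congr 1
  · show g.1 2 0 = g.1 2 0 * _
    simp [pt]

theorem pos_tr {g : U21} {y0 y1 t D : ℝ} (hg : PosOf g y0 y1 t D) (a b m : ℤ) :
    PosOf (Pgrp.el 0 0 a b m * g) (y0 + a - b / 2) (y1 + b / 2)
      (t + nq a b / 2 + m / 3 - ((a - b / 2) * y1 - b / 2 * y0)) D := by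
  obtain ⟨e, he, hv⟩ := hg
  refine ⟨e, he, ?_⟩
  rw [ap_mul, hv, ap_smul, ap]
  congr 1
  exact Pred.act a b m t 0 (by rw [pow_zero, one_mul]) rfl

theorem GG_eq (y0 y1 t x0 x1 s : ℝ) :
    GG (tX y0) (tX y1) (tT y0 y1 t) (tX x0) (tX x1) (tT x0 x1 s) = 2 ^ 82 * FF y0 y1 t x0 x1 s := by
  simp only [GG, FF, tX, tT]
  ring

theorem root {x0 x1 s : ℝ} (h : Dom x0 x1 s) : DomS (tX x0) (tX x1) (tT x0 x1 s) ∧
    InB 4456448 4325376 35734127902720 262145 131073 183252331189 (tX x0) (tX x1) (tT x0 x1 s) := by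
  obtain ⟨h0, h1, h2, h3, h4⟩ := h
  obtain ⟨h5, h6⟩ := abs_le.1 h4
  simp only [DomS, InB, tX, tT]
  push_cast
  refine ⟨⟨by linarith, by linarith, ?_⟩, ?_, ?_, ?_⟩
  · rw [abs_le]; constructor <;> linarith
  · rw [← le_sub_iff_add_le, abs_le]; constructor <;> linarith
  · rw [← le_sub_iff_add_le, abs_le]; constructor <;> linarith
  · rw [add_assoc, add_assoc, ← le_sub_iff_add_le, abs_le]; constructor <;> linarith

theorem small {S B D : ℝ} (hD : 16 ≤ D) (h : 98 / 100 * (D * (S ^ 2 / 4 + 3 * B ^ 2)) < 1) :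
    S ≤ 5052 / 10000 ∧ |B| ≤ 146 / 1000 := by
  have h0 : 0 ≤ S ^ 2 / 4 + 3 * B ^ 2 := by positivity
  have h1 := mul_le_mul_of_nonneg_right hD h0
  have h2 : S ^ 2 / 4 + 3 * B ^ 2 < 25 / 392 := by linarith
  refine ⟨?_, ?_⟩
  · apply le_of_lt
    apply lt_of_pow_lt_pow_left₀ 2 (by norm_num)
    nlinarith [sq_nonneg B]
  · apply abs_le_of_sq_le_sq' _ (by norm_num) |> abs_le.mpr
    nlinarith [sq_nonneg S]

theorem range {a b m : ℤ} {y0 y1 t D x0 x1 s : ℝ} (hd : Dom x0 x1 s) (h0 : |y0| ≤ 51 / 100)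
    (h1 : |y1| ≤ 334 / 1000) (ht : |t| ≤ 17 / 100) (hD : 16 ≤ D)
    (h : 98 / 100 * (D * FF (y0 + a - b / 2) (y1 + b / 2)
      (t + nq a b / 2 + m / 3 - ((a - b / 2) * y1 - b / 2 * y0)) x0 x1 s) < 1) :
    -1 ≤ a ∧ a ≤ 2 ∧ -1 ≤ b ∧ b ≤ 1 ∧ -12 ≤ m ∧ m ≤ 5 := by
  obtain ⟨d1, d2, d3, d4, d5⟩ := hd
  rw [FF] at h
  obtain ⟨hS, hB⟩ := small hD h
  obtain ⟨u0, hu0⟩ : ∃ u, u = x0 - (y0 + a - b / 2) := ⟨_, rfl⟩
  obtain ⟨u1, hu1⟩ : ∃ u, u = x1 - (y1 + b / 2) := ⟨_, rfl⟩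
  rw [← hu0, ← hu1] at hS
  have b0 : |u0| ≤ 711 / 1000 :=
    abs_le.mpr (abs_le_of_sq_le_sq' (by norm_num; linarith [sq_nonneg u1]) (by norm_num))
  have b1 : |u1| ≤ 411 / 1000 :=
    abs_le.mpr (abs_le_of_sq_le_sq' (by norm_num; linarith [sq_nonneg u0]) (by norm_num))
  clear h hS
  have c0 : |x0| ≤ 1 / 2 := abs_le.mpr ⟨by linarith, by linarith⟩
  have c1 : |x1| ≤ 1 / 4 := abs_le.mpr ⟨by linarith, by linarith⟩
  have p1 := abs_le.mp (Box.mul_le b0 c1)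
  have p2 := abs_le.mp (Box.mul_le b1 c0)
  obtain ⟨b0l, b0r⟩ := abs_le.mp b0
  obtain ⟨b1l, b1r⟩ := abs_le.mp b1
  obtain ⟨h0l, h0r⟩ := abs_le.mp h0
  obtain ⟨h1l, h1r⟩ := abs_le.mp h1
  have i1 : -3 < 2 * a - b := by
    have : ((-3 : ℤ) : ℝ) < ((2 * a - b : ℤ) : ℝ) := by push_cast; linarith
    exact Int.cast_lt.mp this
  have i2 : 2 * a - b < 4 := by
    have : ((2 * a - b : ℤ) : ℝ) < ((4 : ℤ) : ℝ) := by push_cast; linarith
    exact Int.cast_lt.mp this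
  have i3 : -2 < b := by
    have : ((-2 : ℤ) : ℝ) < ((b : ℤ) : ℝ) := by push_cast; linarith
    exact Int.cast_lt.mp this
  have i4 : b < 2 := by
    have : ((b : ℤ) : ℝ) < ((2 : ℤ) : ℝ) := by push_cast; linarith
    exact Int.cast_lt.mp this
  have r1 : (-2 : ℝ) ≤ 2 * a - b := by exact_mod_cast (by omega : -2 ≤ 2 * a - b)
  have r2 : (2 : ℝ) * a - b ≤ 3 := by exact_mod_cast (by omega : 2 * a - b ≤ 3)
  have r3 : (-1 : ℝ) ≤ b := by exact_mod_cast (by omega : -1 ≤ b)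
  have r4 : (b : ℝ) ≤ 1 := by exact_mod_cast (by omega : b ≤ 1)
  have e1 : |(a : ℝ) - b / 2| ≤ 3 / 2 := abs_le.mpr ⟨by linarith, by linarith⟩
  have e2 : |(b : ℝ) / 2| ≤ 1 / 2 := abs_le.mpr ⟨by linarith, by linarith⟩
  have q1 := abs_le.mp (Box.mul_le e1 h1)
  have q2 := abs_le.mp (Box.mul_le e2 h0)
  have s1 := abs_le.mp (Box.mul_le e1 e1)
  have s2 := abs_le.mp (Box.mul_le e2 e2)
  have hq : (nq a b : ℝ) = ((a : ℝ) - b / 2) * (a - b / 2) + 3 * ((b : ℝ) / 2 * (b / 2)) := by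
    simp only [nq]; push_cast; ring
  have n0 : (0 : ℝ) ≤ (nq a b : ℝ) := by
    rw [hq]
    linarith [mul_self_nonneg ((a : ℝ) - b / 2), mul_self_nonneg ((b : ℝ) / 2)]
  have n7 : (nq a b : ℝ) ≤ 3 := by
    rw [hq]; linarith [s1.2, s2.2]
  have hB' : (y0 + a - b / 2) * x1 = x0 * x1 - u0 * x1 ∧ (y1 + b / 2) * x0 = x0 * x1 - u1 * x0 := by
    rw [hu0, hu1]; constructor <;> ring
  rw [hB'.1, hB'.2] at hB
  obtain ⟨hBl, hBr⟩ := abs_le.mp hB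
  obtain ⟨htl, htr⟩ := abs_le.mp ht
  obtain ⟨hsl, hsr⟩ := abs_le.mp d5
  have i9 : -13 < m := by
    have : ((-13 : ℤ) : ℝ) < ((m : ℤ) : ℝ) := by
      push_cast
      linarith [p1.1, p1.2, p2.1, p2.2, q1.1, q1.2, q2.1, q2.2]
    exact Int.cast_lt.mp this
  have i10 : m < 6 := by
    have : ((m : ℤ) : ℝ) < ((6 : ℤ) : ℝ) := by
      push_cast
      linarith [p1.1, p1.2, p2.1, p2.2, q1.1, q1.2, q2.1, q2.2]
    exact Int.cast_lt.mp this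
  omega

theorem rr_P {h p : U21} (hp : p ∈ Pset) (y : V3) : rr (h * p) y = rr h y := by
  obtain ⟨e, he, hv⟩ := rowPgrp.2.2.1 p hp
  rw [rr, rr, ap_mul, hv, ap_smul, herm_smul_l, map_mul, normSq_conj, he, one_mul]

theorem dep_P {h p p' : U21} (hp : p ∈ Pset) (hp' : p' ∈ Pset) :
    normSq ((p * h * p').1 2 0) = normSq (h.1 2 0) := by
  obtain ⟨e, he, hv⟩ := rowPgrp.2.2.1 _ (Pgrp.inv_mem hp)
  obtain ⟨e', he', hv'⟩ := rowPgrp.2.2.1 _ hp'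
  have := c_inv p⁻¹ (h * p')
  rw [inv_inv, ← mul_assoc] at this
  rw [this, hv, ap_mul, hv', ap_smul, herm_smul_l, herm_smul_r, ← c_eq, map_mul, map_mul,
    normSq_conj, he, he', one_mul, one_mul]

end Pos

end Pool.Agent.MP_d97ab6_al.H19
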