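import Pool.Agent.MP_d97ab6_al.H19.Tab
import Pool.Agent.MP_d97ab6_al.H19.Pos

/-! The class check gives the position of the cusp of an entry; translated records. -/

namespace Pool.Agent.MP_d97ab6_al.H19

open Matrix Complex

/-- The record describes the cusp of `h`. -/
def Rc (e : ℝ) (h : U21) (a0 a1 ap an tf tv : ℕ) : Prop :=
  ∃ y0 y1 t D : ℝ, PosOf h y0 y1 t D ∧ Enc e a0 a1 ap an (tX y0) (tX y1) (tT y0 y1 t) ∧
    0 < D ∧ 2 ^ 82 ≤ 98 / 100 * D * tf ∧ D * tv ≤ 98 / 100 * 2 ^ 82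

/-- The cusp of `h` is small and close to the origin. -/
def Sm (h : U21) : Prop :=
  ∃ y0 y1 t D : ℝ, PosOf h y0 y1 t D ∧ 16 ≤ D ∧ D ≤ 200 ∧ |y0| ≤ 51 / 100 ∧ |y1| ≤ 334 / 1000 ∧
    |t| ≤ 17 / 100

namespace Cls

noncomputable def s6 : ℝ := √2 * √3

theorem q2 : √2 * √2 = (2 : ℝ) := Real.mul_self_sqrt (by norm_num)
theorem q3 : √3 * √3 = (3 : ℝ) := Real.mul_self_sqrt (by norm_num)

theorem s6_sq : s6 * s6 = 6 := by
  unfold s6
  linear_combination (√3 * √3) * q2 + 2 * q3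

theorem s6_bd :
    |s6 * 1329227995784915872903807060280344576 - 3255930341495392922820269092556286664| ≤ 1 := by
  have h0 : 0 ≤ s6 := by unfold s6; positivity
  have a : (3255930341495392922820269092556286664 / 1329227995784915872903807060280344576 : ℝ) ≤
      s6 := le_of_sq_le_sq (by rw [sq s6, s6_sq]; norm_num) h0
  have b : s6 ≤
      (3255930341495392922820269092556286665 / 1329227995784915872903807060280344576 : ℝ) :=
    le_of_sq_le_sq (by rw [sq s6, s6_sq]; norm_num) (by norm_num)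
  rw [abs_le]
  constructor <;> linarith

theorem nn_ok {p q : ℤ} (h : nn p q = true) : 0 ≤ (p : ℝ) + q * s6 := by
  have h1 : ((0 : ℤ) : ℝ) ≤ ((p * 1329227995784915872903807060280344576 +
      q * 3255930341495392922820269092556286664 - |q| : ℤ) : ℝ) :=
    Int.cast_le.2 (of_decide_eq_true h)
  push_cast at h1
  have h2 : |(q : ℝ) * (s6 * 1329227995784915872903807060280344576 -
      3255930341495392922820269092556286664)| ≤ |(q : ℝ)| := by
    rw [abs_mul]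
    exact mul_le_of_le_one_right (abs_nonneg _) s6_bd
  have := (abs_le.1 h2).1
  linarith

theorem ab_ok {p q n k : ℤ} (h : ab p q n k = true) : |(p : ℝ) + q * s6| ≤ n + k * s6 := by
  rw [ab, Bool.and_eq_true] at h
  have a := nn_ok h.1
  have b := nn_ok h.2
  push_cast at a b
  rw [abs_le]
  constructor <;> linarith

theorem dv {x y e N : ℝ} (hN : 0 < N) (h : |x| ≤ e * N) (k : y * N = x) : |y| ≤ e := by
  rw [← k, abs_mul, abs_of_pos hN] at h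
  exact le_of_mul_le_mul_right h hN

theorem gz_re (g n : ℕ) : (gz g n).re = (r1 g n + r2 g n * s6) / 6 := by
  simp [gz, eis, om, sr, r1, r2, s6, dz]
  ring

theorem gz_im (g n : ℕ) : (gz g n).im = √3 * (i1 g n + i2 g n * s6) / 6 := by
  simp [gz, eis, om, sr, i1, i2, s6, dz]
  linear_combination
    (-(√2 * (2 * ((dg g (n + 2) : ℝ) - 2048) - ((dg g (n + 3) : ℝ) - 2048))) / 6) * q3

theorem re_eq (g n : ℕ) : (gz g n).re * (gz g 24).re + (gz g n).im * (gz g 24).im =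
    (re1 g n + re2 g n * s6) / 36 := by
  simp only [gz_re, gz_im, re1, re2]
  push_cast
  linear_combination ((i1 g n + i2 g n * s6) * (i1 g 24 + i2 g 24 * s6) / 36) * q3 +
    ((r2 g n * r2 g 24 + 3 * (i2 g n * i2 g 24)) / 36) * s6_sq

theorem im_eq (g n : ℕ) : (gz g n).im * (gz g 24).re - (gz g n).re * (gz g 24).im =
    √3 * (im1 g n + im2 g n * s6) / 36 := by
  simp only [gz_re, gz_im, im1, im2]
  push_cast
  linear_combination (√3 * (i2 g n * r2 g 24 - r2 g n * i2 g 24) / 36) * s6_sq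

theorem nsq (g : ℕ) : normSq (gz g 24) = (re1 g 24 + re2 g 24 * s6) / 36 := by
  rw [normSq_apply, re_eq]

theorem div_re' (g n : ℕ) : (gz g n / gz g 24).re =
    (re1 g n + re2 g n * s6) / (re1 g 24 + re2 g 24 * s6) := by
  rw [div_re, ← add_div, re_eq, nsq, div_div_div_cancel_right₀ (by norm_num)]

theorem div_im' (g n : ℕ) : (gz g n / gz g 24).im / √3 =
    (im1 g n + im2 g n * s6) / (re1 g 24 + re2 g 24 * s6) := by
  rw [div_im, ← sub_div, im_eq, nsq, div_div_div_cancel_right₀ (by norm_num), mul_div_assoc,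
    mul_div_cancel_left₀ _ (by positivity)]

theorem pos {h : U21} {g : ℕ} (hg : h.1 = gM g) (N0 : 0 < (re1 g 24 : ℝ) + re2 g 24 * s6) :
    PosOf h ((re1 g 12 + re2 g 12 * s6) / (re1 g 24 + re2 g 24 * s6))
      ((im1 g 12 + im2 g 12 * s6) / (re1 g 24 + re2 g 24 * s6))
      ((im1 g 0 + im2 g 0 * s6) / (re1 g 24 + re2 g 24 * s6))
      ((re1 g 24 + re2 g 24 * s6) / 2916) := by
  have e0 : h.1 0 0 = 1 / 9 * gz g 0 := by rw [hg]; rfl
  have e1 : h.1 1 0 = 1 / 9 * gz g 12 := by rw [hg]; rfl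
  have e2 : h.1 2 0 = 1 / 9 * gz g 24 := by rw [hg]; rfl
  have hD : normSq (h.1 2 0) = (re1 g 24 + re2 g 24 * s6) / 2916 := by
    rw [e2, map_mul, nsq]
    simp
    ring
  have t3 : (1 / 9 : ℂ) ≠ 0 := by norm_num
  have pos := Pos.pos_of h (normSq_pos.1 (by rw [hD]; positivity))
  simp only [hD] at pos
  simpa only [e0, e1, e2, mul_div_mul_left _ _ t3, div_re', div_im'] using pos

end Cls

open Cls

theorem cls_ok {h : U21} {g x : ℕ} (hg : h.1 = gM g) (k : cls g x = true) :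
    Rc 4 h (x0 x) (x1 x) (x4 x) 0 (xF x) (xV x) := by
  unfold cls cls1 at k
  simp only [Bool.and_eq_true] at k
  obtain ⟨⟨⟨⟨⟨n0, a0⟩, a1⟩, a2⟩, b1⟩, b2⟩ := k
  have n1 := nn_ok n0
  have c0 := ab_ok a0
  have c1 := ab_ok a1
  have c2 := ab_ok a2
  have d1 := nn_ok b1
  have d2 := nn_ok b2
  push_cast at n1 c0 c1 c2 d1 d2
  have N0 : 0 < (re1 g 24 : ℝ) + re2 g 24 * s6 := by linarith
  have k0 := div_mul_cancel₀ ((re1 g 12 : ℝ) + re2 g 12 * s6) N0.ne'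
  have k1 := div_mul_cancel₀ ((im1 g 12 : ℝ) + im2 g 12 * s6) N0.ne'
  have k2 := div_mul_cancel₀ ((im1 g 0 : ℝ) + im2 g 0 * s6) N0.ne'
  refine ⟨_, _, _, _, pos hg N0, ⟨dv N0 (c0.trans_eq (one_mul _).symm) ?_,
    dv N0 (c1.trans_eq (one_mul _).symm) ?_, dv N0 (c2.trans_eq (by ring)) ?_⟩, by positivity, by linarith, by linarith⟩
  · simp only [tX]
    linear_combination 1048576 * k0
  · simp only [tX]
    linear_combination 1048576 * k1
  · simp only [tX, tT]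
    push_cast
    linear_combination 1099511627776 * k2 + (4398046511104 - 1048576 * (x1 x : ℝ)) * k0 +
      (1048576 * (x0 x : ℝ) - 4398046511104) * k1

theorem clt_ok {h : U21} {g : ℕ} (hg : h.1 = gM g) (k : clt g = true) : Sm h := by
  unfold clt clt1 at k
  simp only [Bool.and_eq_true] at k
  obtain ⟨⟨⟨⟨n0, n1⟩, a0⟩, a1⟩, a2⟩ := k
  have d0 := nn_ok n0
  have d1 := nn_ok n1
  have c0 := ab_ok a0
  have c1 := ab_ok a1
  have c2 := ab_ok a2
  push_cast at d0 d1 c0 c1 c2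
  have N0 : 0 < (re1 g 24 : ℝ) + re2 g 24 * s6 := by linarith
  refine ⟨_, _, _, _, pos hg N0, by linarith, by linarith, ?_, ?_, ?_⟩ <;>
    rw [abs_div, abs_of_pos N0, div_le_iff₀ N0, abs_le] <;> constructor <;>
    linarith [(abs_le.1 c0).1, (abs_le.1 c0).2, (abs_le.1 c1).1, (abs_le.1 c1).2, (abs_le.1 c2).1,
      (abs_le.1 c2).2]

theorem mkG_ok {h : U21} {S H Q R a0 a1 a4 tf tv A B M : ℕ} {k : K4} (hS : (S : ℝ) = 1048576)
    (hH : (H : ℝ) = 524288) (hQ : (Q : ℝ) = 1099511627776) (hR : (R : ℝ) = 549755813888)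
    (H' : Rc 4 h a0 a1 a4 0 tf tv) (c : mkG S H Q R a0 a1 a4 A B M k = true) :
    ∃ b0 b1 p q, k b0 b1 p q = true ∧
      Rc 8 (Pgrp.el 0 0 ((A : ℤ) - 1) ((B : ℤ) - 1) ((M : ℤ) - 12) * h) b0 b1 p q tf tv := by
  obtain ⟨y0, y1, t, D, h1, ⟨e0, e1, e2⟩, h3⟩ := H'
  simp only [mkG, frc_eq, band_iff, Nat.ble_eq, Nat.add_eq, Nat.mul_eq, Nat.sub_eq,
    Nat.succ_eq_add_one] at c
  obtain ⟨⟨c1, c2⟩, c3⟩ := c
  refine ⟨_, _, _, _, c3, _, _, _, D, Pos.pos_tr h1 _ _ _, ?_, h3⟩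
  obtain ⟨F, hF, f1, f2⟩ : ∃ F : ℕ, Nat.div (Q * M) 3 = F ∧ 3 * F ≤ Q * M ∧ Q * M ≤ 3 * F + 3 :=
    ⟨Q * M / 3, rfl, by omega, by omega⟩
  have g1 : 3 * (F : ℝ) ≤ Q * M := by exact_mod_cast f1
  have g2 : (Q : ℝ) * M ≤ 3 * F + 3 := by exact_mod_cast f2
  rw [hF, Enc, Nat.cast_sub c1, Nat.cast_sub c2]
  simp only [tX, tT, nq] at e0 e1 e2 ⊢
  push_cast at e2 ⊢
  rw [hQ] at g1 g2
  rw [hS, hH, hR]
  refine ⟨by convert e0 using 2; ring, by convert e1 using 2; ring, ?_⟩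
  obtain ⟨e3, e4⟩ := abs_le.1 e2
  rw [abs_le]
  constructor <;> linarith

theorem mkR_ok {h : U21} {a0 a1 a4 tf tv A B M : ℕ} {k : K4} (H : Rc 4 h a0 a1 a4 0 tf tv)
    (c : mkR a0 a1 a4 A B M k = true) : ∃ b0 b1 p q, k b0 b1 p q = true ∧
      Rc 8 (Pgrp.el 0 0 ((A : ℤ) - 1) ((B : ℤ) - 1) ((M : ℤ) - 12) * h) b0 b1 p q tf tv :=
  mkG_ok (by norm_num) (by norm_num) (by norm_num) (by norm_num) H c

section
variable {h : U21} {a0 a1 ap an tf tv : ℕ} (x0 x1 s : ℝ)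

theorem Rc.far (H : Rc 8 h a0 a1 ap an tf tv) : ∃ A0 A1 A4, Enc 8 a0 a1 ap an A0 A1 A4 ∧
    ((tf : ℝ) ≤ GG A0 A1 A4 (tX x0) (tX x1) (tT x0 x1 s) →
      ¬ 98 / 100 * rr h (bp x0 x1 s 0) < 1) := by
  obtain ⟨y0, y1, t, D, h1, h2, h3, h4, -⟩ := H
  refine ⟨_, _, _, h2, fun h5 hc => ?_⟩
  rw [Pos.GG_eq] at h5
  rw [Pos.rr_eq h1] at hc
  nlinarith [mul_le_mul_of_nonneg_left h5 h3.le]

theorem Rc.val (H : Rc 8 h a0 a1 ap an tf tv) : ∃ A0 A1 A4, Enc 8 a0 a1 ap an A0 A1 A4 ∧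
    (GG A0 A1 A4 (tX x0) (tX x1) (tT x0 x1 s) ≤ tv → rr h (bp x0 x1 s 0) ≤ 98 / 100) := by
  obtain ⟨y0, y1, t, D, h1, h2, h3, -, h4⟩ := H
  refine ⟨_, _, _, h2, fun h5 => ?_⟩
  rw [Pos.GG_eq] at h5
  rw [Pos.rr_eq h1]
  nlinarith [mul_le_mul_of_nonneg_left h5 h3.le]

end

end Pool.Agent.MP_d97ab6_al.H19
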