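import Pool.Agent.MP_d97ab6_al.H19.Spec

/-! Covering by translates of the three Siegel sets. -/

namespace Pool.Agent.MP_d97ab6_al.H19

open Matrix Complex
open scoped ComplexConjugate

namespace Cov

theorem nrm_pt (c : ℂ) (x y t u : ℝ) : nrm (c • pt x y t u) = normSq c * u := by
  simp [nrm, herm, pt, normSq_apply]
  ring

theorem coords {y : V3} (h : 0 < nrm y) : ∃ (c : ℂ) (x0 x1 t u : ℝ), c ≠ 0 ∧
    y = c • pt x0 x1 t u ∧ 0 < u := by
  have hc : y 2 ≠ 0 := by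
    intro h0
    simp [nrm, herm, h0] at h
    nlinarith [mul_self_nonneg (y 1).re, mul_self_nonneg (y 1).im]
  have e : y = y 2 • pt (y 1 / y 2).re (y 1 / y 2).im (y 0 / y 2).im
      (-2 * (y 0 / y 2).re - ((y 1 / y 2).re ^ 2 + (y 1 / y 2).im ^ 2)) := by
    have k : ∀ (z : ℂ) (r : ℝ), r = (z / y 2).re → z = y 2 * ⟨r, (z / y 2).im⟩ := by
      rintro z r rfl
      exact (mul_div_cancel₀ z hc).symm
    funext i
    fin_cases i
    · exact k (y 0) _ (by ring)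
    · exact k (y 1) _ rfl
    · exact (mul_one (y 2)).symm
  refine ⟨_, _, _, _, _, hc, e, ?_⟩
  rw [e, nrm_pt] at h
  exact (mul_pos_iff_of_pos_left (normSq_pos.2 hc)).1 h

theorem sieg_smul {d : ℂ} (hd : d ≠ 0) {y : V3} (h : Sieg y) : Sieg (d • y) := by
  obtain ⟨c, x0, x1, t, u, hc, e, h⟩ := h
  exact ⟨d * c, x0, x1, t, u, mul_ne_zero hd hc, by rw [e, smul_smul], h⟩

theorem s3 {x : ℝ} (h : |x| ≤ 1 / 2) : |√3 * x| ≤ 1 := by
  have h3 : √3 ≤ 2 := Real.sqrt_le_iff.2 ⟨by norm_num, by norm_num⟩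
  rw [abs_mul, abs_of_nonneg (Real.sqrt_nonneg 3)]
  nlinarith [abs_nonneg x, Real.sqrt_nonneg 3]

theorem sieg_dom {x y t u : ℝ} (h : Dom x y t) (hu : 1 / 1000 ≤ u) : Sieg (bp x y t u) := by
  obtain ⟨a0, a1, a2, -, a4⟩ := h
  obtain ⟨a5, a6⟩ := abs_le.1 a4
  exact ⟨1, _, _, _, u, one_ne_zero, (one_smul _ _).symm, abs_le.2 ⟨by linarith, by linarith⟩,
    s3 (abs_le.2 ⟨by linarith, by linarith⟩), s3 (abs_le.2 ⟨by linarith, by linarith⟩), hu⟩

theorem red (hP : SPred) {y : V3} (hy : 0 < nrm y) : ∃ p ∈ Pset, ∃ (c : ℂ) (y0 y1 s u : ℝ),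
    c ≠ 0 ∧ Dom y0 y1 s ∧ 0 < u ∧ nrm y = normSq (y 2) * u ∧ 0 < normSq (y 2) ∧
      ap p y = c • bp y0 y1 s u := by
  obtain ⟨c, x0, x1, t, u, hc, rfl, hu⟩ := coords hy
  obtain ⟨p, hp, y0, y1, s, hd, e⟩ := hP x0 (x1 / √3) (t / √3)
  have h3 : √3 ≠ 0 := by positivity
  have e3 : (c • pt x0 x1 t u) 2 = c := by simp [pt]
  refine ⟨p, hp, c, y0, y1, s, u, hc, hd, hu, by rw [nrm_pt, e3],
    by rw [e3]; exact normSq_pos.2 hc, ?_⟩
  rw [ap_smul, ← e u, bp, mul_div_cancel₀ _ h3, mul_div_cancel₀ _ h3]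

theorem last {h : U21} {x y t u : ℝ} (h1 : rr h (bp x y t 0) ≤ 98 / 100)
    (h2 : normSq (h.1 2 0) ≤ 200) (u0 : 0 < u) (u1 : u < 1 / 1000) :
    normSq (ap h⁻¹ (bp x y t u) 2) ≤ 998 / 1000 := by
  have e1 : ap h⁻¹ (bp x y t u) 2 = herm (ap h e0) (bp x y t u) := by
    rw [← herm_ap h⁻¹, ← ap_mul, inv_mul_cancel, ap_one]
    simp [herm, e0]
  have e2 : ap h e0 2 = h.1 2 0 := by
    simp [ap, e0, Matrix.mulVec, dotProduct, Fin.sum_univ_three]
  have e3 : herm (ap h e0) (bp x y t u) =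
      herm (ap h e0) (bp x y t 0) - conj (h.1 2 0) * ((u / 2 : ℝ) : ℂ) := by
    rw [← e2]
    generalize ap h e0 = v
    apply Complex.ext <;> simp [herm, bp, pt] <;> ring
  rw [rr, normSq_eq_norm_sq] at h1
  rw [normSq_eq_norm_sq] at h2
  have n1 : ‖herm (ap h e0) (bp x y t 0)‖ ≤ 99 / 100 :=
    (pow_le_pow_iff_left₀ (norm_nonneg _) (by norm_num) two_ne_zero).1 (h1.trans (by norm_num))
  have n2 : ‖h.1 2 0‖ ≤ 15 :=
    (pow_le_pow_iff_left₀ (norm_nonneg _) (by norm_num) two_ne_zero).1 (h2.trans (by norm_num))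
  have n3 := norm_sub_le (herm (ap h e0) (bp x y t 0)) (conj (h.1 2 0) * ((u / 2 : ℝ) : ℂ))
  rw [norm_mul, Complex.norm_conj, Complex.norm_real, Real.norm_of_nonneg (by positivity),
    ← e3] at n3
  rw [e1, normSq_eq_norm_sq]
  have n4 : ‖herm (ap h e0) (bp x y t u)‖ ≤ 9975 / 10000 := by
    nlinarith [norm_nonneg (h.1 2 0)]
  exact (pow_le_pow_left₀ (norm_nonneg _) n4 2).trans (by norm_num)

theorem up (hP : SPred) (H : Core2) (n : ℕ) :
    ∀ (i : Fin 3) (y : V3), 0 < nrm y → 1 / 1000 * (998 / 1000) ^ n * normSq (y 2) ≤ nrm y →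
      ∃ k g, Rel k i g ∧ Sieg (ap g y) := by
  induction n with
  | zero =>
    intro i y hy h
    obtain ⟨p, hp, c, y0, y1, s, u, hc, hd, -, e1, h3, e⟩ := red hP hy
    refine ⟨i, p, H.1 i p hp, e ▸ sieg_smul hc (sieg_dom hd ?_)⟩
    rw [e1, pow_zero, mul_one, mul_comm] at h
    exact le_of_mul_le_mul_left h h3
  | succ n ih =>
    intro i y hy h
    obtain ⟨p, hp, c, y0, y1, s, u, hc, hd, hu, e1, h3, e⟩ := red hP hy
    rcases le_or_gt (1 / 1000) u with h1 | h1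
    · exact ⟨i, p, H.1 i p hp, e ▸ sieg_smul hc (sieg_dom hd h1)⟩
    obtain ⟨j, k, hk, k1, k2⟩ := H.2 i _ _ _ hd
    have e2 : nrm (ap k⁻¹ (bp y0 y1 s u)) = u := by
      have := nrm_pt 1 y0 (√3 * y1) (√3 * s) u
      rw [one_smul, map_one, one_mul] at this
      rw [nrm_ap, bp, this]
    rw [e1, mul_comm] at h
    obtain ⟨l, g, hg, hs⟩ := ih j (ap k⁻¹ (bp y0 y1 s u)) (by rwa [e2]) (by
      rw [e2]
      refine le_trans ?_ (le_of_mul_le_mul_left h h3)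
      rw [pow_succ, ← mul_assoc]
      exact mul_le_mul_of_nonneg_left (last k1 k2 hu h1) (by positivity))
    refine ⟨l, g * k⁻¹ * p, (hg.mul hk.inv).mul (H.1 i p hp), ?_⟩
    rw [ap_mul, e, ap_smul, ap_mul]
    exact sieg_smul hc hs

end Cov

open Cov in
theorem rowCov : SCov := by
  intro hP H y hy
  obtain ⟨-, -, -, -, -, -, u, -, -, hu, e1, h3, -⟩ := red hP hy
  obtain ⟨n, hn⟩ := exists_pow_lt_of_lt_one hu (show (998 / 1000 : ℝ) < 1 by norm_num)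
  exact up hP H n 0 y hy (by
    rw [e1, mul_comm]
    exact mul_le_mul_of_nonneg_left (by linarith) h3.le)

end Pool.Agent.MP_d97ab6_al.H19
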