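import Mathlib

/-! Definitions used in the statement: SU(2,1), lattices, arithmeticity, adjoint trace field, the
new reflection group and the sporadic triangle groups. -/

namespace Pool.Agent.MP_d97ab6_al.H19

open Matrix MeasureTheory

/-- The Hermitian form of signature (2,1): `conj x0 y2 + conj x1 y1 + conj x2 y0`. -/
def J : Matrix (Fin 3) (Fin 3) ℂ := !![0, 0, 1; 0, 1, 0; 1, 0, 0]

theorem J_mul_J : J * J = 1 := by
  ext i j
  fin_cases i <;> fin_cases j <;> simp [J, Matrix.mul_apply, Fin.sum_univ_three]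

/-- `SU(2,1)`: determinant one matrices preserving `J`. -/
def SU21 : Subgroup (Matrix.SpecialLinearGroup (Fin 3) ℂ) where
  carrier := {g | (g.1)ᴴ * J * g.1 = J}
  one_mem' := by simp
  mul_mem' := by
    intro a b ha hb
    simp only [Set.mem_ofPred_eq] at ha hb ⊢
    have : (a * b).1 = a.1 * b.1 := rfl
    rw [this, conjTranspose_mul]
    calc (b.1)ᴴ * (a.1)ᴴ * J * (a.1 * b.1) = (b.1)ᴴ * ((a.1)ᴴ * J * a.1) * b.1 := by
          simp only [Matrix.mul_assoc]
      _ = J := by rw [ha, hb]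
  inv_mem' := by
    intro a ha
    simp only [Set.mem_ofPred_eq] at ha ⊢
    have h1 : a.1 * (a⁻¹).1 = 1 := by
      have : (a * a⁻¹).1 = a.1 * (a⁻¹).1 := rfl
      rw [← this, mul_inv_cancel]; rfl
    calc ((a⁻¹).1)ᴴ * J * (a⁻¹).1 = ((a⁻¹).1)ᴴ * ((a.1)ᴴ * J * a.1) * (a⁻¹).1 := by rw [ha]
      _ = (a.1 * (a⁻¹).1)ᴴ * J * (a.1 * (a⁻¹).1) := by
          rw [conjTranspose_mul]; simp only [Matrix.mul_assoc]
      _ = J := by rw [h1]; simp

/-- A lattice: a discrete subgroup such that the quotient carries a nonzero finite invariant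
Borel measure. -/
def IsLattice (Γ : Subgroup SU21) : Prop :=
  DiscreteTopology Γ ∧
    ∃ ν : @Measure (SU21 ⧸ Γ) (borel (SU21 ⧸ Γ)),
      ν Set.univ ≠ 0 ∧ ν Set.univ ≠ ⊤ ∧
        ∀ (g : SU21) (A : Set (SU21 ⧸ Γ)), MeasurableSet[borel (SU21 ⧸ Γ)] A →
          ν ((fun x => g • x) ⁻¹' A) = ν A

/-- Arithmetic in a wide sense: commensurable with the image of the integer points of some closed
subgroup `H` of some `GL(N,ℝ)` under a continuous surjection `H → SU(2,1)` with compact kernel. -/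
def IsArith (Γ : Subgroup SU21) : Prop :=
  ∃ (N : ℕ) (H : Subgroup (GL (Fin N) ℝ)) (φ : H →* SU21),
    IsClosed (H : Set (GL (Fin N) ℝ)) ∧ Continuous φ ∧ Function.Surjective φ ∧
      IsCompact (φ.ker : Set H) ∧
        Subgroup.Commensurable
          (((Matrix.GeneralLinearGroup.map (n := Fin N) (Int.castRingHom ℝ)).range.subgroupOf H).map φ) Γ

/-- The adjoint trace field: generated by the numbers `tr Ad γ = |tr γ|^2 - 1`. -/
noncomputable def adField (Γ : Subgroup SU21) : Subfield ℝ :=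
  Subfield.closure {x | ∃ γ ∈ Γ, x = Complex.normSq (Matrix.trace γ.1.1) - 1}

/-- The third root of unity `(-1 + i √3) / 2`. -/
noncomputable def om : ℂ := ⟨-1 / 2, √3 / 2⟩

/-- The number `i √2`. -/
noncomputable def sr : ℂ := ⟨0, √2⟩

/-- A complex reflection of order three. -/
noncomputable def R1 : Matrix (Fin 3) (Fin 3) ℂ :=
  !![1, 0, 0; -2 + om + sr + om * sr, om, 0;
    -3 + 3 * om + 3 * sr + 3 * om * sr, -1 + 2 * om + sr + om * sr, 1]

/-- A complex reflection of order three. -/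
noncomputable def R2 : Matrix (Fin 3) (Fin 3) ℂ := !![1, -om, (om - 1) / 3; 0, om, 1; 0, 0, 1]

/-- A complex reflection of order six. -/
noncomputable def R3 : Matrix (Fin 3) (Fin 3) ℂ := !![1, 0, 0; 0, 1 + om, 0; 0, 0, 1]

/-- The subgroup of `SU(2,1)` generated by the scalar multiples of `R1`, `R2`, `R3` in it. -/
noncomputable def Lam : Subgroup SU21 :=
  Subgroup.closure {γ | ∃ c : ℂ, c • γ.1.1 = R1 ∨ c • γ.1.1 = R2 ∨ c • γ.1.1 = R3}

/-- The sporadic triangle group `S(p, σ1)`, `σ1 = -1 + i √2`, generated by a complex reflection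
and the cyclic permutation matrix; here `u = exp (2 π i / (3 p))`. -/
noncomputable def Spor (p : ℕ) : Subgroup (Matrix.SpecialLinearGroup (Fin 3) ℂ) :=
  Subgroup.closure {γ | ∃ u : ℂ, u = Complex.exp (2 * Real.pi * Complex.I / (3 * p)) ∧
    (γ.1 = !![u ^ 2, -1 + sr, -u * (-1 - sr); 0, u⁻¹, 0; 0, 0, u⁻¹] ∨
      γ.1 = !![0, 0, 1; 1, 0, 0; 0, 1, 0])}

end Pool.Agent.MP_d97ab6_al.H19
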