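import Pool.Agent.MP_d97ab6_al.H19.Spec

/-! The descent theorem. -/

namespace Pool.Agent.MP_d97ab6_al.H19

open Matrix Complex
open scoped ComplexConjugate

namespace Desc

/-- Elements that descend to the subgroup. -/
inductive Good {G κ : Type} [Group G] (P : Subgroup G) (T : κ → κ → Set G) (lam : ℝ) (d : G → ℝ)
    (j : κ) : κ → G → Prop
  | base (p : G) : p ∈ P → Good P T lam d j j p
  | step (i k : κ) (g s : G) : s ∈ T k i → d g ≠ 0 → d (s * g) ≤ lam * d g →
      Good P T lam d j k (s * g) → Good P T lam d j i g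

theorem abs {G κ : Type} [Group G] (P : Subgroup G) (T : κ → κ → Set G) (lam δ : ℝ) (d : G → ℝ)
    (l0 : 0 < lam) (l1 : lam < 1) (hδ : 0 < δ) (d0 : ∀ g, 0 ≤ d g) (d1 : d 1 = 0)
    (dl : ∀ p ∈ P, ∀ g, d (p * g) = d g) (left : ∀ i k, ∀ p ∈ P, ∀ t ∈ T i k, p * t ∈ T i k)
    (right : ∀ i k, ∀ p ∈ P, ∀ t ∈ T i k, t * p ∈ T i k) (inv : ∀ i k, ∀ t ∈ T i k, t⁻¹ ∈ T k i)
    (dep : ∀ i k, ∀ t ∈ T i k, (i = k ∧ t ∈ P) ∨ δ ≤ d t)
    (lc : ∀ i g, d g ≠ 0 → ∃ p ∈ P, ∀ Gd : κ → G → Prop,
      (∀ k h, ∀ p ∈ P, Gd k h → Gd k (h * p)) →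
      (∀ k l h h', d (h⁻¹ * (p * g)) ≤ lam * d g → h⁻¹ * h' ∈ T k l → Gd k h → Gd l h') →
      ∀ k l, ∀ s ∈ T i k, ∀ t ∈ T i l, s ∉ P → t ∉ P → d (s⁻¹ * (p * g)) ≤ lam * d g →
        lam * d (t⁻¹ * (p * g)) < d g → Gd k s → Gd l t) (j : κ) :
    (∀ i g, Good P T lam d j i g → (i = j ∧ g ∈ P) ∨ δ ≤ d g) ∧
      ∀ i g, Good P T lam d j i g → ∀ l, ∀ t ∈ T l i, Good P T lam d j l (t * g) := by
  have f1 : ∀ i g, Good P T lam d j i g → ∀ p ∈ P, Good P T lam d j i (p * g) := by
    intro i g hg p hp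
    cases hg with
    | base _ h => exact .base _ (P.mul_mem hp h)
    | step _ m _ s a b c e =>
      have k : s * p⁻¹ * (p * g) = s * g := by group
      exact .step _ m _ (s * p⁻¹) (right _ _ _ (P.inv_mem hp) _ a) (by rwa [dl p hp])
        (by rwa [k, dl p hp]) (by rwa [k])
  have f2 : ∀ i, ∀ t ∈ T i j, Good P T lam d j i t := by
    intro i t ht
    rcases dep _ _ t ht with ⟨rfl, h⟩ | h
    · exact .base _ h
    · refine .step _ j _ t⁻¹ (inv _ _ t ht) (hδ.trans_le h).ne' ?_ ?_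
      · rw [inv_mul_cancel, d1]
        exact mul_nonneg l0.le (d0 t)
      · rw [inv_mul_cancel]
        exact .base _ P.one_mem
  have f3 : ∀ i g, Good P T lam d j i g → (i = j ∧ g ∈ P) ∨ δ ≤ d g := by
    intro i g hg
    induction hg with
    | base _ h => exact Or.inl ⟨rfl, h⟩
    | step i k g s a b c _ ih =>
      rcases ih with ⟨rfl, h⟩ | h
      · exact dep _ _ g (by simpa using right _ _ _ h _ (inv _ _ s a))
      · exact Or.inr (h.trans (c.trans (mul_le_of_le_one_left (d0 g) l1.le)))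
  have f4 : ∀ n : ℕ, ∀ i g, Good P T lam d j i g → d g * lam ^ n < δ → ∀ l, ∀ t ∈ T l i,
      Good P T lam d j l (t * g) := by
    intro n
    induction n with
    | zero =>
      intro i g hg h l t ht
      rcases f3 i g hg with ⟨rfl, k⟩ | k
      · exact f2 _ _ (right _ _ g k t ht)
      · simp only [pow_zero, mul_one] at h
        exact absurd h (not_lt.2 k)
    | succ n ih =>
      intro i g hg h l t ht
      by_cases tP : t ∈ P
      · rcases dep _ _ t ht with ⟨rfl, -⟩ | k
        · exact f1 _ g hg t tP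
        · rw [← mul_one t, dl t tP, d1] at k
          exact absurd hδ (not_lt.2 k)
      have hg' := hg
      cases hg with
      | base _ k => exact f2 _ _ (right _ _ g k t ht)
      | step _ m _ s a b c e =>
        have g0 : 0 < d g := (d0 g).lt_of_ne' b
        rcases le_or_gt (d g) (lam * d (t * g)) with k | k
        · refine .step _ i _ t⁻¹ (inv _ _ t ht) (fun z => ?_) (by rwa [inv_mul_cancel_left])
            (by rwa [inv_mul_cancel_left])
          rw [z, mul_zero] at k
          exact absurd g0 (not_lt.2 k)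
        obtain ⟨p, hp, H⟩ := lc i g b
        have k1 : ∀ x : G, (p * x⁻¹)⁻¹ * (p * g) = x * g := fun x => by group
        have k2 : ∀ x : G, p * x⁻¹ ∈ P → x ∈ P := fun x hx => by
          simpa using P.mul_mem (P.inv_mem hx) hp
        have := H (fun k h => Good P T lam d j k (h⁻¹ * (p * g))) (fun _ h q hq k => by
            rw [_root_.mul_inv_rev, mul_assoc]
            exact f1 _ _ k _ (P.inv_mem hq))
          (fun _ _ x y k1 k2 k3 => by
            have := ih _ _ k3 (((mul_le_mul_of_nonneg_right k1 (pow_nonneg l0.le n)).trans_eq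
              (by ring)).trans_lt h) _ _ (inv _ _ _ k2)
            rwa [show (x⁻¹ * y)⁻¹ * (x⁻¹ * (p * g)) = y⁻¹ * (p * g) by group] at this)
          m l (p * s⁻¹) (left _ _ p hp _ (inv _ _ s a)) (p * t⁻¹) (left _ _ p hp _ (inv _ _ t ht))
          (fun z => by
            rw [dl s (k2 s z)] at c
            nlinarith)
          (fun z => tP (k2 t z)) (by rwa [k1]) (by rwa [k1]) (by rwa [k1])
        rwa [k1] at this
  refine ⟨f3, fun i g hg => ?_⟩
  obtain ⟨n, hn⟩ := exists_pow_lt_of_lt_one (div_pos hδ (show 0 < d g + 1 by linarith [d0 g])) l1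
  refine f4 n i g hg ?_
  rw [lt_div_iff₀ (by linarith [d0 g])] at hn
  nlinarith [pow_pos l0 n]

theorem null {w : V3} (h : herm w w = 0) (h2 : w 2 = 1) : ∃ x y t, w = bp x y t 0 := by
  have s : √3 ≠ 0 := by positivity
  refine ⟨(w 1).re, (w 1).im / √3, (w 0).im / √3, ?_⟩
  have r := congrArg Complex.re h
  simp only [herm, h2, map_one, mul_one, one_mul, add_re, mul_re, conj_re, conj_im, zero_re] at r
  rw [bp, mul_div_cancel₀ _ s, mul_div_cancel₀ _ s]
  ext i
  fin_cases i
  · exact Complex.ext (show (w 0).re = -(_ + _ + _) / 2 by linarith) rfl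
  · rfl
  · exact h2

end Desc

open Desc

theorem rowDesc : SDesc := by
  intro P T lam δ l0 l1 hδ h hl j
  obtain ⟨f3, f5⟩ := abs P T lam δ (fun g => normSq (g.1 2 0)) l0 l1 hδ (fun g => normSq_nonneg _)
    (by simp) (fun p hp g => by
      obtain ⟨e, e1, e2⟩ := h.fix _ (P.inv_mem hp)
      have := c_inv p⁻¹ g
      rw [inv_inv, e2, herm_smul_l, ← c_eq] at this
      simp only [this, map_mul, normSq_conj, e1, one_mul]) h.left h.right h.inv h.dep
    (fun i g hg => by
      have c0 : g.1 2 0 ≠ 0 := fun z => hg (by simp [z])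
      have n0 : 0 < normSq (g.1 2 0) := normSq_pos.2 c0
      obtain ⟨x, y, t, e⟩ := null (w := (g.1 2 0)⁻¹ • ap g e0)
        (by rw [herm_smul_l, herm_smul_r, herm_ap]; simp [herm, e0])
        (by
          have : ap g e0 2 = g.1 2 0 := by simp [c_eq g, herm, e0]
          rw [Pi.smul_apply, this, smul_eq_mul, inv_mul_cancel₀ c0])
      obtain ⟨p, hp, H⟩ := hl i x y t
      have r : ∀ z, rr z (ap p (bp x y t 0)) =
          normSq ((z⁻¹ * (p * g)).1 2 0) / normSq (g.1 2 0) := fun z => by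
        rw [rr, ← e, ap_smul, ← ap_mul, herm_smul_r, ← c_inv, map_mul, map_inv₀, div_eq_inv_mul]
      refine ⟨p, hp, fun Gd a b k l s hs t ht c d e f =>
        H Gd a (fun k l x y q => b k l x y ?_) k l s hs t ht c d ?_ ?_⟩
      · rwa [r, div_le_iff₀ n0] at q
      · rwa [r, div_le_iff₀ n0]
      · rwa [r, ← mul_div_assoc, div_lt_one n0]) j
  intro i g hg
  refine f3 i g ?_
  induction hg with
  | one => exact .base _ P.one_mem
  | mul i k t g ht _ ih => exact f5 k g ih i t ht

end Pool.Agent.MP_d97ab6_al.H19
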