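import Pool.Agent.MP_d97ab6_al.H19.Spec

/-! Discreteness of the lifted group and classification of the rank one unipotent elements. -/

namespace Pool.Agent.MP_d97ab6_al.H19

open Matrix Complex
open scoped ComplexConjugate

namespace Disc

theorem normSq_eis (a b : ℤ) : normSq (eis a b) = ((nq a b : ℤ) : ℝ) := by
  have h : √3 * √3 = 3 := Real.mul_self_sqrt (by norm_num)
  simp [eis, om, nq, normSq_apply]
  linear_combination (b : ℝ) ^ 2 / 4 * h

theorem small {e : ℂ} (he : ‖e - 1‖ < 1 / 10) (m n : ℤ) (h : ‖e * eis m n‖ < 1 / 2) :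
    m = 0 ∧ n = 0 := by
  have h1 : 9 / 10 ≤ ‖e‖ := by
    have := norm_sub_norm_le (1 : ℂ) e
    rw [norm_one, norm_sub_rev] at this
    linarith
  rw [norm_mul] at h
  have h2 : ‖eis m n‖ < 1 := by
    by_contra hc
    have := mul_le_mul h1 (not_lt.1 hc) (by norm_num) (norm_nonneg _)
    linarith
  have h3 : normSq (eis m n) < 1 := by
    rw [normSq_eq_norm_sq]
    exact pow_lt_one₀ (norm_nonneg _) h2 two_ne_zero
  rw [normSq_eis, nq] at h3
  have h4 : m ^ 2 - m * n + n ^ 2 < 1 := by exact_mod_cast h3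
  constructor <;> nlinarith [sq_nonneg (m - n), sq_nonneg m, sq_nonneg n]

theorem pow_int (a : ℕ) : ∃ m n : ℤ, ze ^ a = eis m n := by
  induction a with
  | zero => exact ⟨1, 0, by simp [eis]⟩
  | succ a ih =>
    obtain ⟨m, n, h⟩ := ih
    refine ⟨m - n, m, ?_⟩
    rw [pow_succ, h, eis, eis, ze]
    push_cast
    linear_combination (n : ℂ) * om_sq

theorem pow_one {e : ℂ} (he : ‖e - 1‖ < 1 / 10) (a : ℕ) (h : ‖e * ze ^ a - 1‖ < 1 / 10) :
    ze ^ a = 1 := by
  obtain ⟨m, n, e1⟩ := pow_int a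
  rw [e1] at h ⊢
  have h2 : ‖e * eis (m - 1) n‖ < 1 / 2 := by
    have e2 : e * eis (m - 1) n = (e * eis m n - 1) - (e - 1) := by
      rw [eis, eis]; push_cast; ring
    rw [e2]
    exact (norm_sub_le _ _).trans_lt (by linarith)
  obtain ⟨a1, a2⟩ := small he _ _ h2
  rw [a2, show m = 1 by omega]
  simp [eis]

theorem root_one {e : ℂ} (he : ‖e - 1‖ < 1 / 10) (h : e ^ 3 = 1) : e = 1 := by
  have a := abs_lt.1 ((abs_re_le_norm (e - 1)).trans_lt he)
  have b := abs_lt.1 ((abs_im_le_norm (e - 1)).trans_lt he)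
  simp only [sub_re, one_re, sub_im, one_im, sub_zero] at a b
  have h1 : (e - 1) * (e * e + e + 1) = 0 := by linear_combination h
  rcases mul_eq_zero.1 h1 with h2 | h2
  · exact sub_eq_zero.1 h2
  · exfalso
    have := congrArg re h2
    simp only [add_re, mul_re, one_re, zero_re] at this
    nlinarith

theorem smul_U (c : ℂ) (m : M3) : (c • m)ᴴ * J * (c • m) = (conj c * c) • (mᴴ * J * m) := by
  rw [conjTranspose_smul, Matrix.smul_mul, Matrix.smul_mul, Matrix.mul_smul, smul_smul]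
  rfl

theorem normSq_scalar {c : ℂ} {m : M3} (hm : IsU m) (h : IsU (c • m)) : normSq c = 1 := by
  have h1 := (smul_U c m).symm.trans h
  rw [show mᴴ * J * m = J from hm] at h1
  have h2 := congrFun (congrFun h1 1) 1
  have h3 : conj c * c = 1 := by simpa [J] using h2
  rw [← normSq_eq_conj_mul_self] at h3
  exact_mod_cast h3

theorem key (G : Subgroup U21) (H : ∀ g ∈ G, g ∈ Pset ∨ 16 ≤ normSq (g.1 2 0)) (γ : SU21)
    (hγ : γ ∈ lift G) (hW : ∀ i j, ‖γ.1.1 i j - (1 : M3) i j‖ < 1 / 10) : γ = 1 := by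
  obtain ⟨c, g, hg, e⟩ := hγ
  have hc : normSq c = 1 := normSq_scalar (m := γ.1.1) γ.2 (e ▸ g.2)
  have c0 : c ≠ 0 := by
    rintro rfl
    simp at hc
  have w20 : ‖γ.1.1 2 0‖ < 1 / 10 := by simpa using hW 2 0
  rcases H g hg with ⟨k, v, a, b, m, hp⟩ | h
  swap
  · exfalso
    rw [e, Matrix.smul_apply, smul_eq_mul, map_mul, hc, one_mul, normSq_eq_norm_sq] at h
    have := norm_nonneg (γ.1.1 2 0)
    nlinarith
  have e1 : γ.1.1 = c⁻¹ • pm k v a b m := by
    rw [← hp, e, smul_smul, inv_mul_cancel₀ c0, one_smul]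
  rw [pm, smul_smul] at e1
  generalize c⁻¹ * ze ^ k = E at e1
  rw [e1] at hW
  have hE : ‖E - 1‖ < 1 / 10 := by simpa using hW 0 0
  have h12 : ‖E * eis a b‖ < 1 / 10 := by simpa using hW 1 2
  obtain ⟨rfl, rfl⟩ := small hE _ _ (h12.trans (by norm_num))
  have h02 : ‖E * eis m (2 * m)‖ < 1 / 2 := by
    have h1 : ‖E * ((1 + 2 * om) * (m / 3))‖ < 1 / 10 := by simpa [nq] using hW 0 2
    rw [show E * eis m (2 * m) = 3 * (E * ((1 + 2 * om) * (m / 3))) by rw [eis]; push_cast; ring,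
      norm_mul, show ‖(3 : ℂ)‖ = 3 by simp]
    linarith
  obtain ⟨rfl, -⟩ := small hE _ _ h02
  have hb := pow_one hE v (by simpa using hW 1 1)
  have e2 : γ.1.1 = E • (1 : M3) := by
    rw [e1, hb]
    congr 1
    ext i j
    fin_cases i <;> fin_cases j <;> simp [eis, nq]
  have hd := γ.1.2
  rw [e2, det_smul, det_one, mul_one, Fintype.card_fin] at hd
  rw [root_one hE hd, one_smul] at e2
  exact Subtype.ext (Subtype.ext e2)

theorem herm_conj (x y : V3) : conj (herm x y) = herm y x := by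
  simp only [herm, map_add, map_mul, conj_conj]
  ring

theorem herm_sub_l (x y z : V3) : herm (x - y) z = herm x z - herm y z := by
  simp only [herm, Pi.sub_apply, map_sub]
  ring

theorem herm_sub_r (x y z : V3) : herm x (y - z) = herm x y - herm x z := by
  simp only [herm, Pi.sub_apply]
  ring

theorem nrm_pt (c : ℂ) (x0 x1 t u : ℝ) : nrm (c • pt x0 x1 t u) = normSq c * u := by
  simp [nrm, herm, pt, normSq_apply]
  ring

/-- A unitary multiple of a unipotent matrix. -/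
theorem skew {E : ℂ} {N : M3} (h : IsU (E • (1 + N))) (hN : N * N = 0) :
    normSq E = 1 ∧ ∀ x y : V3, herm (N *ᵥ x) y = -herm x (N *ᵥ y) := by
  have h1 := (smul_U E (1 + N)).symm.trans h
  rw [← normSq_eq_conj_mul_self] at h1
  generalize hρ : (normSq E : ℂ) = ρ at h1
  have a1 : (1 + N) * (1 - N) = 1 := by
    rw [Matrix.add_mul, Matrix.mul_sub, Matrix.mul_sub, hN]
    simp
  have h2 : ρ • (J * Nᴴ * J) = (1 - ρ) • (1 : M3) - N := by
    have b1 : ρ • (J * (1 + N)ᴴ * J) = 1 - N := by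
      calc ρ • (J * (1 + N)ᴴ * J) = J * (ρ • ((1 + N)ᴴ * J * (1 + N))) * (1 - N) := by
            simp only [Matrix.mul_smul, Matrix.smul_mul, Matrix.mul_assoc, a1, Matrix.mul_one]
        _ = 1 - N := by rw [h1, J_mul_J, Matrix.one_mul]
    rw [conjTranspose_add, conjTranspose_one, Matrix.mul_add, Matrix.add_mul, Matrix.mul_one,
      J_mul_J, smul_add] at b1
    rw [sub_smul, one_smul, sub_right_comm, ← b1]
    abel
  have h3 : (J * Nᴴ * J) * (J * Nᴴ * J) = 0 := by
    calc (J * Nᴴ * J) * (J * Nᴴ * J) = J * (Nᴴ * (J * J) * Nᴴ) * J := by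
          simp only [Matrix.mul_assoc]
      _ = 0 := by rw [J_mul_J, Matrix.mul_one, ← conjTranspose_mul, hN]; simp
  have h4 : ((1 - ρ) • (1 : M3) - N) * ((1 - ρ) • (1 : M3) - N) = 0 := by
    rw [← h2, Matrix.smul_mul, Matrix.mul_smul, h3, smul_zero, smul_zero]
  have h5 : ρ = 1 := by
    generalize ht : 1 - ρ = t at h4
    have b1 : (t * t) • (1 : M3) = (2 * t) • N := by
      simp only [Matrix.sub_mul, Matrix.mul_sub, Matrix.smul_mul, Matrix.mul_smul, Matrix.one_mul,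
        Matrix.mul_one, hN, sub_zero, smul_smul] at h4
      rw [← sub_eq_zero, ← h4]
      module
    have b2 : ((t * t) • (1 : M3)) * ((t * t) • (1 : M3)) = 0 := by
      rw [b1, Matrix.smul_mul, Matrix.mul_smul, hN, smul_zero, smul_zero]
    have b3 : t = 0 := by simpa using congrFun (congrFun b2 0) 0
    rw [b3] at ht
    exact (sub_eq_zero.1 ht).symm
  refine ⟨by exact_mod_cast hρ.trans h5, fun x y => ?_⟩
  rw [h5, one_smul, sub_self, zero_smul, zero_sub] at h2
  have h6 : Nᴴ * J = -(J * N) := by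
    rw [← Matrix.mul_neg, ← h2, ← Matrix.mul_assoc, ← Matrix.mul_assoc, J_mul_J, Matrix.one_mul]
  rw [herm_eq, herm_eq, star_mulVec, ← dotProduct_mulVec, mulVec_mulVec, mulVec_mulVec, h6,
    neg_mulVec, dotProduct_neg]

/-- A point that is moved very little. -/
theorem short {N : M3} (hN : N * N = 0) (h : ∀ x y : V3, herm (N *ᵥ x) y = -herm x (N *ᵥ y)) :
    ∃ y : V3, 0 < nrm y ∧ ‖herm y (N *ᵥ y)‖ < nrm y / 1000 := by
  have n0 : nrm (pt 0 0 0 2) = 2 := by simpa using nrm_pt 1 0 0 0 2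
  generalize pt 0 0 0 2 = x at n0
  have z : N *ᵥ N *ᵥ x = 0 := by rw [mulVec_mulVec, hN, zero_mulVec]
  have v0 : herm (N *ᵥ x) (N *ᵥ x) = 0 := by
    rw [h, z]
    simp [herm]
  have e1 : N *ᵥ (x - (100000 * conj (herm x (N *ᵥ x))) • N *ᵥ x) = N *ᵥ x := by
    rw [mulVec_sub, mulVec_smul, z, smul_zero, sub_zero]
  have e2 : nrm (x - (100000 * conj (herm x (N *ᵥ x))) • N *ᵥ x) =
      2 + 200000 * ‖herm x (N *ᵥ x)‖ ^ 2 := by
    rw [nrm] at n0 ⊢
    rw [herm_sub_l, herm_sub_r, herm_sub_r, herm_smul_l, herm_smul_l, herm_smul_r, herm_smul_r,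
      v0, ← herm_conj x (N *ᵥ x), ← normSq_eq_norm_sq, normSq_apply]
    generalize herm x (N *ᵥ x) = τ
    simp [map_ofNat]
    linarith
  refine ⟨x - (100000 * conj (herm x (N *ᵥ x))) • N *ᵥ x, ?_, ?_⟩
  · rw [e2]
    positivity
  · rw [e1, e2, herm_sub_l, herm_smul_l, v0, mul_zero, sub_zero]
    nlinarith [sq_nonneg (‖herm x (N *ᵥ x)‖ - 1 / 400)]

/-- Points of the Siegel set are moved far by elements that move the cusp. -/
theorem far {N : M3} (hN : N * N = 0) (h : ∀ x y : V3, herm (N *ᵥ x) y = -herm x (N *ᵥ y))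
    (h16 : 16 ≤ normSq (N 2 0)) (x0 x1 t : ℝ) {u : ℝ} (hu : 0 ≤ u) :
    u ^ 2 ≤ ‖herm (pt x0 x1 t u) (N *ᵥ pt x0 x1 t u)‖ := by
  have z : ∀ x y, herm (N *ᵥ x) (N *ᵥ y) = 0 := fun x y => by
    rw [h, mulVec_mulVec, hN, zero_mulVec]
    simp [herm]
  have a2 : (N *ᵥ e0) 2 = N 2 0 := by simp [e0, Matrix.mulVec, dotProduct, Fin.sum_univ_three]
  have b2 : (N *ᵥ pt x0 x1 t u) 2 = -herm (N *ᵥ e0) (pt x0 x1 t u) := by
    rw [h]
    simp [herm, e0]
  have aa := z e0 e0
  have ab := z e0 (pt x0 x1 t u)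
  have ba := z (pt x0 x1 t u) e0
  have bb := z (pt x0 x1 t u) (pt x0 x1 t u)
  rw [← a2] at h16
  generalize N *ᵥ e0 = a at *
  generalize N *ᵥ pt x0 x1 t u = b at *
  have n4 : 4 ≤ ‖a 2‖ := by
    rw [normSq_eq_norm_sq] at h16
    nlinarith [norm_nonneg (a 2)]
  have a0 : conj (a 2) ≠ 0 := by
    rw [map_ne_zero]
    intro e
    rw [e, norm_zero] at n4
    linarith
  have w1 : a 2 * b 1 - b 2 * a 1 = 0 := by
    have : conj (a 2 * b 1 - b 2 * a 1) * (a 2 * b 1 - b 2 * a 1) = 0 := by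
      simp only [herm, map_sub, map_mul] at aa ab ba bb ⊢
      linear_combination conj (a 2) * a 2 * bb - conj (a 2) * b 2 * ba - conj (b 2) * a 2 * ab +
        conj (b 2) * b 2 * aa
    rcases mul_eq_zero.1 this with e | e
    · exact (map_eq_zero _).1 e
    · exact e
  have w0 : a 2 * b 0 - b 2 * a 0 = 0 := by
    refine (mul_eq_zero.1 ?_).resolve_left a0
    simp only [herm] at aa ab
    linear_combination a 2 * ab - b 2 * aa - conj (a 1) * w1
  have k1 : a 2 * herm (pt x0 x1 t u) b = b 2 * herm (pt x0 x1 t u) a := by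
    simp only [herm]
    linear_combination conj (pt x0 x1 t u 1) * w1 + conj (pt x0 x1 t u 2) * w0
  have k2 : ‖a 2‖ * ‖herm (pt x0 x1 t u) b‖ = ‖herm a (pt x0 x1 t u)‖ ^ 2 := by
    rw [← norm_mul, k1, b2, ← herm_conj a, norm_mul, norm_neg, norm_conj, sq]
  have k3 : ‖a 2‖ ^ 2 * u / 2 ≤ ‖a 2‖ * ‖herm a (pt x0 x1 t u)‖ := by
    rw [← norm_mul, ← normSq_eq_norm_sq]
    refine le_trans ?_ ((neg_le_abs _).trans (abs_re_le_norm _))
    have r := congrArg re aa
    have s := normSq_nonneg (a 1 - a 2 * ⟨x0, x1⟩)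
    simp [herm, pt, normSq_apply] at r s ⊢
    nlinarith
  have k4 : ‖a 2‖ * u / 2 ≤ ‖herm a (pt x0 x1 t u)‖ := by
    refine le_of_mul_le_mul_left ?_ (show 0 < ‖a 2‖ by linarith)
    linarith
  have k5 := pow_le_pow_left₀ (by positivity) k4 2
  refine le_of_mul_le_mul_left ?_ (show 0 < ‖a 2‖ by linarith)
  rw [k2]
  refine le_trans ?_ k5
  nlinarith [mul_nonneg (mul_nonneg (norm_nonneg (a 2)) (sq_nonneg u)) (sub_nonneg.2 n4)]

/-- The unipotent elements of the cusp group. -/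
theorem vert {E : ℂ} {N : M3} (hE : E ≠ 0) (hN : N * N = 0) {k v : ℕ} {a b m : ℤ}
    (h : E • (1 + N) = pm k v a b m) :
    N = ((m : ℂ) / 3) • !![0, 0, 1 + 2 * om; 0, 0, 0; 0, 0, 0] := by
  have e1 : N = E⁻¹ • pm k v a b m - 1 := by
    rw [← h, smul_smul, inv_mul_cancel₀ hE, one_smul, add_sub_cancel_left]
  rw [pm, smul_smul] at e1
  generalize E⁻¹ * ze ^ k = F at e1
  have h0 : F = 1 := by
    have := congrFun (congrFun hN 0) 0
    rw [e1] at this
    simpa [Matrix.mul_apply, Fin.sum_univ_three, sub_eq_zero] using this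
  subst h0
  have h1 : ze ^ v = 1 := by
    have := congrFun (congrFun hN 1) 1
    rw [e1] at this
    simpa [Matrix.mul_apply, Fin.sum_univ_three, sub_eq_zero] using this
  rw [h1] at e1
  have h2 : eis a b = 0 := by
    have := congrFun (congrFun hN 0) 2
    rw [e1] at this
    simpa [Matrix.mul_apply, Fin.sum_univ_three] using this
  have h3 : nq a b = 0 := by
    have := normSq_eis a b
    rw [h2, map_zero] at this
    exact_mod_cast this.symm
  rw [e1, h2, h3]
  ext i j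
  fin_cases i <;> fin_cases j <;> simp [mul_comm]

theorem inv_mul (a : U21) : (a⁻¹).1 * a.1 = 1 := by
  rw [← U21.val_mul, inv_mul_cancel, U21.val_one]

theorem mul_inv (a : U21) : a.1 * (a⁻¹).1 = 1 := by
  rw [← U21.val_mul, mul_inv_cancel, U21.val_one]

end Disc

open Disc

theorem rowDisc : SDisc := by
  intro G H
  apply discreteTopology_of_isOpen_singleton_one
  have e : ({1} : Set (lift G)) =
      ⋂ i, ⋂ j, {γ : lift G | ‖γ.1.1.1 i j - (1 : M3) i j‖ < 1 / 10} := by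
    ext γ
    simp only [Set.mem_singleton_iff, Set.mem_iInter, Set.mem_ofPred_eq]
    constructor
    · rintro rfl i j
      change ‖(1 : M3) i j - (1 : M3) i j‖ < _
      simp
    · exact fun h => Subtype.ext (key G H γ.1 γ.2 h)
  rw [e]
  refine isOpen_iInter_of_finite fun i => isOpen_iInter_of_finite fun j => isOpen_lt ?_
    continuous_const
  have c1 : Continuous fun γ : lift G => γ.1 := continuous_subtype_val
  have c2 : Continuous fun γ : SU21 => γ.1 := continuous_subtype_val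
  have c3 : Continuous fun γ : SpecialLinearGroup (Fin 3) ℂ => γ.1 := continuous_subtype_val
  have hc : Continuous fun γ : lift G => γ.1.1.1 := c3.comp (c2.comp c1)
  exact ((hc.matrix_elem i j).sub continuous_const).norm

theorem rowCusp : SCusp := by
  rintro h1 h2 γ ⟨d, g, hg, e⟩ c N ec hN
  rw [ec, smul_smul] at e
  generalize d * c = E at e
  obtain ⟨hE, sk⟩ := skew (e ▸ g.2) hN
  obtain ⟨y, y0, y1⟩ := short hN sk
  obtain ⟨i, k, hk, c', x0, x1, t, u, c0, ey, -, -, -, hu⟩ := h2 y y0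
  have hM : (k.1 * N * (k⁻¹).1) * (k.1 * N * (k⁻¹).1) = 0 := by
    calc _ = k.1 * (N * ((k⁻¹).1 * k.1) * N) * (k⁻¹).1 := by simp only [Matrix.mul_assoc]
      _ = 0 := by rw [Disc.inv_mul, Matrix.mul_one, hN, Matrix.mul_zero, Matrix.zero_mul]
  have eh : (k * (g * k⁻¹)).1 = E • (1 + k.1 * N * (k⁻¹).1) := by
    rw [U21.val_mul, U21.val_mul, e, Matrix.smul_mul, Matrix.mul_smul, Matrix.add_mul,
      Matrix.one_mul, Matrix.mul_add, Disc.mul_inv, Matrix.mul_assoc]
  have E0 : E ≠ 0 := by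
    rintro rfl
    simp at hE
  rcases h1 i i _ (hk.mul ((rel_zero.2 hg).mul hk.inv)) with ⟨-, k', v, a, b, m, hp⟩ | h16
  · have hr : k⁻¹ * (A i)⁻¹ ∈ L0 := by
      have := hk.inv
      rwa [Rel, A_zero, one_mul] at this
    refine ⟨_, hr, i, m, ?_⟩
    have e1 := vert E0 hM (eh.symm.trans hp)
    have e2 : N = (k⁻¹).1 * (k.1 * N * (k⁻¹).1) * k.1 := by
      calc N = ((k⁻¹).1 * k.1) * N * ((k⁻¹).1 * k.1) := by
            rw [Disc.inv_mul, Matrix.one_mul, Matrix.mul_one]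
        _ = _ := by simp only [Matrix.mul_assoc]
    rw [e2, e1, Matrix.mul_smul, Matrix.smul_mul, _root_.mul_inv_rev, inv_inv, inv_inv, Nc,
      U21.val_mul, U21.val_mul]
    refine congrArg (fun X : M3 => ((m : ℂ) / 3) • X) ?_
    generalize (!![0, 0, 1 + 2 * om; 0, 0, 0; 0, 0, 0] : M3) = X
    calc (k⁻¹).1 * X * k.1
        = (k⁻¹).1 * ((((A i)⁻¹).1 * (A i).1) * X * (((A i)⁻¹).1 * (A i).1)) * k.1 := by
          rw [Disc.inv_mul, Matrix.one_mul, Matrix.mul_one]
      _ = _ := by simp only [Matrix.mul_assoc]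
  · exfalso
    have sk2 := (skew (eh ▸ (k * (g * k⁻¹)).2) hM).2
    have h17 : 16 ≤ normSq ((k.1 * N * (k⁻¹).1) 2 0) := by
      rw [eh, Matrix.smul_apply, smul_eq_mul, map_mul, hE, one_mul] at h16
      simpa using h16
    have f := far hM sk2 h17 x0 x1 t (u := u) (by linarith)
    have e1 : herm y (N *ᵥ y) =
        conj c' * c' * herm (pt x0 x1 t u) ((k.1 * N * (k⁻¹).1) *ᵥ pt x0 x1 t u) := by
      have : ap k (N *ᵥ y) = (k.1 * N * (k⁻¹).1) *ᵥ ap k y := by
        rw [ap, ap, mulVec_mulVec, mulVec_mulVec, Matrix.mul_assoc, Disc.inv_mul, Matrix.mul_one]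
      rw [← herm_ap k, this, ey, mulVec_smul, herm_smul_l, herm_smul_r, ← mul_assoc (conj c')]
    rw [← nrm_ap k, ey, nrm_pt, e1, norm_mul, norm_mul, norm_conj, normSq_eq_norm_sq, ← sq] at y1
    have p : 0 < ‖c'‖ ^ 2 := by positivity
    have q : u / 1000 ≤ u ^ 2 := by nlinarith
    nlinarith [mul_le_mul_of_nonneg_left (q.trans f) p.le]

end Pool.Agent.MP_d97ab6_al.H19
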