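import Pool.Agent.MP_d97ab6_al.H19.Spec

/-! The group of the statement, its trace field, and two unipotent elements. -/

namespace Pool.Agent.MP_d97ab6_al.H19

open Matrix Complex
open scoped ComplexConjugate

namespace Lam

theorem isU_R {g : M3} (h : g = R1 ∨ g = R2 ∨ g = R3) : IsU g := by
  have h1 := om_sq
  have h2 := sr_sq
  rcases h with rfl | rfl | rfl
  all_goals
    ext a b
    fin_cases a <;> fin_cases b <;>
      simp [R1, R2, R3, J, Matrix.mul_apply, Fin.sum_univ_three, conj_om, conj_sr, map_ofNat] <;>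
      grind

theorem smul_isU {g : M3} (h : IsU g) (c : ℂ) : (c • g)ᴴ * J * (c • g) = (normSq c : ℂ) • J := by
  rw [conjTranspose_smul, Matrix.smul_mul, Matrix.smul_mul, Matrix.mul_smul, h, smul_smul,
    normSq_eq_conj_mul_self]
  rfl

theorem normSq_det (h : U21) : normSq h.1.det = 1 := by
  have h1 := congrArg det h.2
  have h2 := congrArg det J_mul_J
  rw [det_mul, det_one] at h2
  rw [det_mul, det_mul, det_conjTranspose] at h1
  have h3 : conj h.1.det * h.1.det = 1 := by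
    have e : star h.1.det = conj h.1.det := rfl
    rw [e] at h1
    linear_combination J.det * h1 + (1 - conj h.1.det * h.1.det) * h2
  rw [← normSq_eq_conj_mul_self] at h3
  exact_mod_cast h3

theorem exists_lift (h : U21) : ∃ (γ : SU21) (d : ℂ), h.1 = d • γ.1.1 := by
  obtain ⟨d, hd⟩ := IsAlgClosed.exists_pow_nat_eq h.1.det (n := 3) (by norm_num)
  have h1 : normSq d = 1 := by
    have := normSq_det h
    rw [← hd, map_pow] at this
    exact (pow_eq_one_iff_of_nonneg (normSq_nonneg d) (by norm_num)).1 this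
  have d0 : d ≠ 0 := by
    rintro rfl
    simp at h1
  have h2 : (d⁻¹ • h.1).det = 1 := by
    rw [det_smul, Fintype.card_fin, ← hd, ← mul_pow, inv_mul_cancel₀ d0, one_pow]
  have h3 : (d⁻¹ • h.1)ᴴ * J * (d⁻¹ • h.1) = J := by
    rw [smul_isU h.2, map_inv₀, h1]
    simp
  refine ⟨⟨⟨d⁻¹ • h.1, h2⟩, h3⟩, d, ?_⟩
  change h.1 = d • d⁻¹ • h.1
  rw [smul_smul, mul_inv_cancel₀ d0, one_smul]

theorem normSq_c {g : U21} {γ : SU21} {c : ℂ} (e : g.1 = c • γ.1.1) : normSq c = 1 := by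
  have h1 : (g.1)ᴴ * J * g.1 = J := g.2
  rw [e, smul_isU γ.2] at h1
  have h2 : (normSq c : ℂ) = 1 := by simpa [J] using congrFun (congrFun h1 1) 1
  exact_mod_cast h2

theorem val_mul (a b : SU21) : (a * b).1.1 = a.1.1 * b.1.1 := rfl

theorem scal {γ : SU21} {c d : ℂ} (hd : d ≠ 0) (e : d • (1 : M3) = c • γ.1.1) : γ ∈ Lam := by
  obtain ⟨α, a, ha⟩ := exists_lift ⟨R3, isU_R (Or.inr (Or.inr rfl))⟩
  have h1 : α ∈ Lam := Subgroup.subset_closure ⟨a, Or.inr (Or.inr ha.symm)⟩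
  refine (Subgroup.mul_mem_cancel_right _ h1).1
    (Subgroup.subset_closure ⟨a * d⁻¹ * c, Or.inr (Or.inr ?_)⟩)
  rw [val_mul, mul_smul, ← Matrix.smul_mul, ← e, Matrix.smul_mul, Matrix.one_mul, smul_smul,
    inv_mul_cancel_right₀ hd]
  exact ha.symm

theorem ze_ne : ze ≠ 0 := fun e => by
  have h := om_sq
  rw [ze] at e
  rw [show om = -1 by linear_combination e] at h
  norm_num at h

theorem r2 : √2 * √2 = 2 := Real.mul_self_sqrt (by norm_num)

theorem r3 : √3 * √3 = 3 := Real.mul_self_sqrt (by norm_num)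

theorem r6 : √6 = √3 * √2 := by
  rw [← Real.sqrt_mul (by norm_num)]
  norm_num

/-- The field as a subring. -/
def K : Subring ℂ where
  carrier := {z | ∃ a b c d : ℚ, z = a + b * om + (c + d * om) * sr}
  zero_mem' := ⟨0, 0, 0, 0, by simp⟩
  one_mem' := ⟨1, 0, 0, 0, by simp⟩
  add_mem' := by
    rintro _ _ ⟨a, b, c, d, rfl⟩ ⟨a', b', c', d', rfl⟩
    exact ⟨a + a', b + b', c + c', d + d', by push_cast; ring⟩
  neg_mem' := by
    rintro _ ⟨a, b, c, d, rfl⟩
    exact ⟨-a, -b, -c, -d, by push_cast; ring⟩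
  mul_mem' := by
    rintro _ _ ⟨a, b, c, d, rfl⟩ ⟨a', b', c', d', rfl⟩
    refine ⟨a * a' - b * b' - 2 * (c * c' - d * d'),
      a * b' + b * a' - b * b' - 2 * (c * d' + d * c' - d * d'), a * c' - b * d' + c * a' - d * b',
      a * d' + b * c' - b * d' + c * b' + d * a' - d * b', ?_⟩
    push_cast
    linear_combination (b * b' - 2 * d * d' + (b * d' + d * b') * sr : ℂ) * om_sq +
      ((c + d * om) * (c' + d' * om) : ℂ) * sr_sq

theorem K_conj {z : ℂ} (hz : z ∈ K) : conj z ∈ K := by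
  obtain ⟨a, b, c, d, rfl⟩ := hz
  refine ⟨a - b, -b, d - c, d, ?_⟩
  simp only [map_add, map_mul, map_ratCast, conj_om, conj_sr]
  push_cast
  ring

theorem K_mm {A B : M3} (hA : ∀ i j, A i j ∈ K) (hB : ∀ i j, B i j ∈ K) (i j : Fin 3) :
    (A * B) i j ∈ K := by
  rw [Matrix.mul_apply]
  exact sum_mem fun k _ => mul_mem (hA i k) (hB k j)

theorem K_J (i j : Fin 3) : J i j ∈ K := by
  fin_cases i <;> fin_cases j <;> simp [J]

theorem K_nsq {z : ℂ} (hz : z ∈ K) : ∃ p q : ℚ, normSq z = p + q * √6 := by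
  obtain ⟨a, b, c, d, rfl⟩ := hz
  refine ⟨a ^ 2 - a * b + b ^ 2 + 2 * (c ^ 2 - c * d + d ^ 2), b * c - a * d, ?_⟩
  rw [normSq_apply, r6]
  simp only [om, sr, add_re, add_im, mul_re, mul_im, ratCast_re, ratCast_im]
  push_cast
  linear_combination ((b : ℝ) ^ 2 / 4 + d ^ 2 / 2) * r3 +
    ((c - d / 2) ^ 2 + d ^ 2 * (√3 * √3) / 4 : ℝ) * r2

theorem K_one (i j : Fin 3) : (1 : M3) i j ∈ K := by
  rw [Matrix.one_apply]
  split_ifs
  exacts [one_mem _, zero_mem _]

theorem K_L0 {g : U21} (hg : g ∈ L0) : ∀ i j, g.1 i j ∈ K := by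
  have o := one_mem K
  have n := zero_mem K
  have w : om ∈ K := ⟨0, 1, 0, 0, by simp⟩
  induction hg using Subgroup.closure_induction with
  | mem g h =>
    intro i j
    rcases h with h | h | h | h <;> rw [h]
    · fin_cases i <;> fin_cases j
      exacts [o, n, n, ⟨-2, 1, 1, 1, by simp [R1]; ring⟩, w, n, ⟨-3, 3, 3, 3, by simp [R1]; ring⟩,
        ⟨-1, 2, 1, 1, by simp [R1]; ring⟩, o]
    · fin_cases i <;> fin_cases j
      exacts [o, neg_mem w, ⟨-1 / 3, 1 / 3, 0, 0, by simp [R2]; ring⟩, n, w, o, n, n, o]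
    · fin_cases i <;> fin_cases j
      exacts [o, n, n, n, add_mem o w, n, n, n, o]
    · exact mul_mem (add_mem o w) (K_one i j)
  | one => exact K_one
  | mul a b _ _ ha hb => exact K_mm ha hb
  | inv a _ ha => exact K_mm (K_mm K_J fun i j => K_conj (ha j i)) K_J

theorem mem_lift {g : U21} (hg : g ∈ L0) (h : g.1.det = 1) : ∃ γ ∈ lift L0, γ.1.1 = g.1 :=
  ⟨⟨⟨g.1, h⟩, g.2⟩, ⟨1, g, hg, (one_smul _ _).symm⟩, rfl⟩

end Lam

open Lam in
theorem rowLam : SLam := by
  refine le_antisymm ((Subgroup.closure_le _).2 ?_) ?_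
  · rintro γ ⟨c, h⟩
    exact ⟨c, ⟨_, isU_R h⟩, Subgroup.subset_closure (h.imp_right fun h => h.imp_right Or.inl), rfl⟩
  rintro γ ⟨c, g, hg, e⟩
  induction hg using Subgroup.closure_induction generalizing γ c with
  | mem g h =>
    rw [Set.mem_ofPred_eq, ← or_assoc, ← or_assoc, or_assoc (c := g.1 = R3)] at h
    rcases h with h | h
    · exact Subgroup.subset_closure ⟨c, e ▸ h⟩
    · exact scal ze_ne (h ▸ e)
  | one => exact scal one_ne_zero ((one_smul _ _).trans e)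
  | mul a b _ _ ha hb =>
    obtain ⟨α, x, hx⟩ := exists_lift a
    obtain ⟨β, y, hy⟩ := exists_lift b
    have h1 : (a * b).1 = (x * y) • (α * β).1.1 := by
      rw [U21.val_mul, hx, hy, val_mul, Matrix.smul_mul, Matrix.mul_smul, smul_smul]
    have h2 : x * y ≠ 0 := fun z => by simpa [z] using normSq_c h1
    refine (Subgroup.mul_mem_cancel_right _ (inv_mem (mul_mem (ha x hx) (hb y hy)))).1
      (scal h2 (c := c) ?_)
    rw [val_mul, ← Matrix.smul_mul, ← e, h1, Matrix.smul_mul, ← val_mul, mul_inv_cancel]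
    rfl
  | inv a _ ha =>
    obtain ⟨α, x, hx⟩ := exists_lift a
    refine (Subgroup.mul_mem_cancel_right _ (ha x hx)).1 (scal one_ne_zero (c := c * x) ?_)
    rw [val_mul, mul_smul, ← Matrix.mul_smul, ← Matrix.smul_mul, ← e, ← hx, ← U21.val_mul,
      inv_mul_cancel, one_smul]
    rfl

open Lam in
theorem rowTrUp : STrUp := by
  refine Subfield.closure_le.2 ?_
  rintro x ⟨γ, ⟨c, g, hg, e⟩, rfl⟩
  obtain ⟨p, q, h4⟩ := K_nsq (sum_mem (t := Finset.univ) fun i _ => K_L0 hg i i)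
  have h5 : normSq (Matrix.trace γ.1.1) = p + q * √6 := by
    rw [← h4]
    change _ = normSq (Matrix.trace g.1)
    rw [e, Matrix.trace_smul, smul_eq_mul, map_mul, normSq_c e, one_mul]
  rw [h5]
  exact sub_mem (add_mem (SubfieldClass.ratCast_mem _ _) (mul_mem (SubfieldClass.ratCast_mem _ _)
    (Subfield.subset_closure rfl))) (one_mem _)

open Lam in
theorem rowUni : SUni := by
  intro h
  have h1 := om_sq
  have h2 := sr_sq
  have e1 : ((√3 / 3 : ℝ) : ℂ) * I = (1 + 2 * om) / 3 := by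
    apply Complex.ext <;> simp [om] <;> ring
  have e2 : ((√3 / 3 * (9 + 3 * √6) : ℝ) : ℂ) * I =
      (1 + 2 * om) / 3 * (9 - 3 * (1 + 2 * om) * sr) := by
    rw [ofReal_mul, mul_right_comm, e1, r6]
    congr 1
    apply Complex.ext <;> simp [om, sr] <;> ring
  have e3 : pm 0 0 0 0 1 = !![1, 0, (1 + 2 * om) / 3; 0, 1, 0; 0, 0, 1] := by
    ext a b
    fin_cases a <;> fin_cases b <;> simp [pm, eis, nq, div_eq_mul_inv]
  have u : IsU (pm 0 0 0 0 1) := by
    rw [e3]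
    ext a b
    fin_cases a <;> fin_cases b <;>
      simp [J, Matrix.mul_apply, Fin.sum_univ_three, conj_om, map_ofNat]
    ring
  have e4 : (A 1 * ⟨_, u⟩ * (A 1)⁻¹).1 =
      !![1, 0, 0; 0, 1, 0; (1 + 2 * om) / 3 * (9 - 3 * (1 + 2 * om) * sr), 0, 1] := by
    have e5 : (A 1 * ⟨_, u⟩).1 =
        !![1, 0, 0; 0, 1, 0; (1 + 2 * om) / 3 * (9 - 3 * (1 + 2 * om) * sr), 0, 1] * (A 1).1 := by
      clear e1 e2 h
      rw [U21.val_mul]
      simp only [e3]
      ext a b
      fin_cases a <;> fin_cases b <;> simp [A, AM, Matrix.mul_apply, Fin.sum_univ_three]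
      grind
    rw [U21.val_mul, e5, Matrix.mul_assoc, ← U21.val_mul, mul_inv_cancel, U21.val_one,
      Matrix.mul_one]
  refine ⟨√3 / 3, √3 / 3 * (9 + 3 * √6), by linear_combination (1 + √6 / 3) * r3, ?_, ?_⟩
  · rw [e1, ← e3]
    exact mem_lift (rel_zero.1 (h 0 ⟨_, u⟩ ⟨0, 0, 0, 0, 1, rfl⟩)) (by simp [e3, det_fin_three])
  · rw [e2, ← e4]
    exact mem_lift (h 1 ⟨_, u⟩ ⟨0, 0, 0, 0, 1, rfl⟩) (by rw [e4]; simp [det_fin_three])

end Pool.Agent.MP_d97ab6_al.H19

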