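import Pool.Agent.MP_d97ab6_al.H19.Dat

/-! The entries of the tables are correct. -/

namespace Pool.Agent.MP_d97ab6_al.H19

theorem entAll : allR 8 414 (ent CG CX CR 422) = true := by decide +kernel

theorem seed3 : adj CG CX 422 1057280 0 1057280 3 0 0 2270492594012168 = true := by decide +kernel

theorem seed4 : adj CG CX 422 1057280 0 1057280 4 0 1 2270492594012174 = true := by decide +kernel

theorem seed5 : adj CG CX 422 1057280 0 1057280 5 0 2 2270492594012175 = true := by decide +kernel

theorem inv6 : U6 CG 1057280 0 1057280 4 1057280 6 1057280 = true := by decide +kernel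

theorem inv7 : U6 CG 1057280 0 1057280 5 1057280 7 1057280 = true := by decide +kernel

theorem chty : (List.range 8).map (fun n => (xc (cx CX n), xt (cx CX n))) =
    [(0, 0), (1, 1), (2, 2), (0, 0), (0, 1), (0, 2), (1, 0), (2, 0)] := by decide +kernel

theorem idc : cg CG 1 = cg CG 0 ∧ cg CG 2 = cg CG 0 := by decide +kernel

theorem dg0 : (List.range 36).map (dg (cg CG 0)) =
  [2057, 2048, 2048, 2048, 2048, 2048, 2048, 2048, 2048, 2048, 2048, 2048, 2048, 2048, 2048, 2048,
  2057, 2048, 2048, 2048, 2048, 2048, 2048, 2048, 2048, 2048, 2048, 2048, 2048, 2048, 2048, 2048,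
  2057, 2048, 2048, 2048] := by decide +kernel

theorem dg3 : (List.range 36).map (dg (cg CG 3)) =
  [2057, 2048, 2048, 2048, 2048, 2048, 2048, 2048, 2048, 2048, 2048, 2048, 2030, 2057, 2057, 2057,
  2048, 2057, 2048, 2048, 2048, 2048, 2048, 2048, 2021, 2075, 2075, 2075, 2039, 2066, 2057, 2057,
  2057, 2048, 2048, 2048] := by decide +kernel

theorem dg4 : (List.range 36).map (dg (cg CG 4)) =
  [2048, 2048, 2048, 2048, 2048, 2048, 2048, 2048, 2043, 2047, 2047, 2046, 2048, 2048, 2048, 2048,
  2057, 2048, 2048, 2048, 2048, 2048, 2048, 2048, 2021, 2039, 2048, 2057, 2048, 2048, 2048, 2048,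
  2048, 2048, 2048, 2048] := by decide +kernel

theorem dg5 : (List.range 36).map (dg (cg CG 5)) =
  [2063, 2051, 2042, 2036, 2051, 2042, 2045, 2045, 2045, 2048, 2051, 2048, 2030, 2057, 2066, 2066,
  2048, 2066, 2057, 2048, 2045, 2042, 2042, 2045, 2039, 2084, 2084, 2066, 2057, 2075, 2066, 2048,
  2042, 2045, 2036, 2042] := by decide +kernel

end Pool.Agent.MP_d97ab6_al.H19
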