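import Pool.Agent.MP_d97ab6_al.H19.Sem
import Pool.Agent.MP_d97ab6_al.H19.RunE
import Pool.Agent.MP_d97ab6_al.H19.Run0
import Pool.Agent.MP_d97ab6_al.H19.Run1
import Pool.Agent.MP_d97ab6_al.H19.Run2
import Pool.Agent.MP_d97ab6_al.H19.Desc
import Pool.Agent.MP_d97ab6_al.H19.Cov
import Pool.Agent.MP_d97ab6_al.H19.Disc
import Pool.Agent.MP_d97ab6_al.H19.Vol
import Pool.Agent.MP_d97ab6_al.H19.NA

/-! The certificate gives the two core statements, and the lattice. -/

namespace Pool.Agent.MP_d97ab6_al.H19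

open Matrix Complex Pgrp

attribute [local irreducible] CG CX CR

theorem gM_of {g : ℕ} {l : List ℕ} (h : (List.range 36).map (dg g) = l) (n : ℕ) (hn : n < 33)
    {a b c d : ℕ} (e : l.getD n 0 = a ∧ l.getD (n + 1) 0 = b ∧ l.getD (n + 2) 0 = c ∧
      l.getD (n + 3) 0 = d) :
    gz g n = eis ((a : ℤ) - 2048) ((b : ℤ) - 2048) + eis ((c : ℤ) - 2048) ((d : ℤ) - 2048) * sr := by
  have k : ∀ k < 36, l.getD k 0 = dg g k := fun k hk => by
    rw [← h]
    simp [List.getD, hk]
  obtain ⟨rfl, rfl, rfl, rfl⟩ := e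
  rw [k _ (by omega), k _ (by omega), k _ (by omega), k _ (by omega), gz]

theorem gM0 : gM (cg CG 0) = 1 := by
  rw [gM,
    gM_of dg0 0 (by norm_num) (a := 2057) (b := 2048) (c := 2048) (d := 2048) (by decide),
    gM_of dg0 4 (by norm_num) (a := 2048) (b := 2048) (c := 2048) (d := 2048) (by decide),
    gM_of dg0 8 (by norm_num) (a := 2048) (b := 2048) (c := 2048) (d := 2048) (by decide),
    gM_of dg0 12 (by norm_num) (a := 2048) (b := 2048) (c := 2048) (d := 2048) (by decide),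
    gM_of dg0 16 (by norm_num) (a := 2057) (b := 2048) (c := 2048) (d := 2048) (by decide),
    gM_of dg0 20 (by norm_num) (a := 2048) (b := 2048) (c := 2048) (d := 2048) (by decide),
    gM_of dg0 24 (by norm_num) (a := 2048) (b := 2048) (c := 2048) (d := 2048) (by decide),
    gM_of dg0 28 (by norm_num) (a := 2048) (b := 2048) (c := 2048) (d := 2048) (by decide),
    gM_of dg0 32 (by norm_num) (a := 2057) (b := 2048) (c := 2048) (d := 2048) (by decide)]
  ext a b
  fin_cases a <;> fin_cases b <;> simp [eis]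

theorem gM3 : gM (cg CG 3) = R1 := by
  rw [gM,
    gM_of dg3 0 (by norm_num) (a := 2057) (b := 2048) (c := 2048) (d := 2048) (by decide),
    gM_of dg3 4 (by norm_num) (a := 2048) (b := 2048) (c := 2048) (d := 2048) (by decide),
    gM_of dg3 8 (by norm_num) (a := 2048) (b := 2048) (c := 2048) (d := 2048) (by decide),
    gM_of dg3 12 (by norm_num) (a := 2030) (b := 2057) (c := 2057) (d := 2057) (by decide),
    gM_of dg3 16 (by norm_num) (a := 2048) (b := 2057) (c := 2048) (d := 2048) (by decide),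
    gM_of dg3 20 (by norm_num) (a := 2048) (b := 2048) (c := 2048) (d := 2048) (by decide),
    gM_of dg3 24 (by norm_num) (a := 2021) (b := 2075) (c := 2075) (d := 2075) (by decide),
    gM_of dg3 28 (by norm_num) (a := 2039) (b := 2066) (c := 2057) (d := 2057) (by decide),
    gM_of dg3 32 (by norm_num) (a := 2057) (b := 2048) (c := 2048) (d := 2048) (by decide)]
  ext a b
  fin_cases a <;> fin_cases b <;> simp [eis, R1] <;> ring

theorem gM4 : gM (cg CG 4) = AM 1 := by
  rw [gM,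
    gM_of dg4 0 (by norm_num) (a := 2048) (b := 2048) (c := 2048) (d := 2048) (by decide),
    gM_of dg4 4 (by norm_num) (a := 2048) (b := 2048) (c := 2048) (d := 2048) (by decide),
    gM_of dg4 8 (by norm_num) (a := 2043) (b := 2047) (c := 2047) (d := 2046) (by decide),
    gM_of dg4 12 (by norm_num) (a := 2048) (b := 2048) (c := 2048) (d := 2048) (by decide),
    gM_of dg4 16 (by norm_num) (a := 2057) (b := 2048) (c := 2048) (d := 2048) (by decide),
    gM_of dg4 20 (by norm_num) (a := 2048) (b := 2048) (c := 2048) (d := 2048) (by decide),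
    gM_of dg4 24 (by norm_num) (a := 2021) (b := 2039) (c := 2048) (d := 2057) (by decide),
    gM_of dg4 28 (by norm_num) (a := 2048) (b := 2048) (c := 2048) (d := 2048) (by decide),
    gM_of dg4 32 (by norm_num) (a := 2048) (b := 2048) (c := 2048) (d := 2048) (by decide)]
  ext a b
  fin_cases a <;> fin_cases b <;> simp [eis, AM] <;> ring

theorem gM5 : gM (cg CG 5) = AM 2 := by
  rw [gM,
    gM_of dg5 0 (by norm_num) (a := 2063) (b := 2051) (c := 2042) (d := 2036) (by decide),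
    gM_of dg5 4 (by norm_num) (a := 2051) (b := 2042) (c := 2045) (d := 2045) (by decide),
    gM_of dg5 8 (by norm_num) (a := 2045) (b := 2048) (c := 2051) (d := 2048) (by decide),
    gM_of dg5 12 (by norm_num) (a := 2030) (b := 2057) (c := 2066) (d := 2066) (by decide),
    gM_of dg5 16 (by norm_num) (a := 2048) (b := 2066) (c := 2057) (d := 2048) (by decide),
    gM_of dg5 20 (by norm_num) (a := 2045) (b := 2042) (c := 2042) (d := 2045) (by decide),
    gM_of dg5 24 (by norm_num) (a := 2039) (b := 2084) (c := 2084) (d := 2066) (by decide),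
    gM_of dg5 28 (by norm_num) (a := 2057) (b := 2075) (c := 2066) (d := 2048) (by decide),
    gM_of dg5 32 (by norm_num) (a := 2042) (b := 2045) (c := 2036) (d := 2042) (by decide)]
  ext a b
  fin_cases a <;> fin_cases b <;> simp [eis, AM] <;> ring

theorem eU_of {n : ℕ} {u : U21} (h : gM (cg CG n) = u.1) : IsU (gM (cg CG n)) ∧ eU CG n = u :=
  ⟨h ▸ u.2, Subtype.ext ((gU_val (h ▸ u.2)).trans h)⟩

theorem gM_inv {a b : ℕ} {u : U21} (h : gM (cg CG a) = u.1)
    (e : U6 CG 1057280 0 1057280 a 1057280 b 1057280 = true) : gM (cg CG b) = (u⁻¹).1 := by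
  have e1 := U6_val e
  have p : pc 0 1057280 = 1 := congrArg Subtype.val pU_id
  rw [show Nat.mod 1057280 8 = 0 from rfl, p, gM0, h] at e1
  simp only [Matrix.one_mul, Matrix.mul_one] at e1
  exact (inv_val e1.symm).symm

theorem mem_of {n : ℕ} {u : U21} {i k : Fin 3} (h : gM (cg CG n) = u.1)
    (c : xc (cx CX n) = i.1 ∧ xt (cx CX n) = k.1) (r : Rel i k u) : Mem CG CX n := by
  refine ⟨(eU_of h).1, ?_⟩
  rwa [(eU_of h).2, show cF _ = i from Fin.ext c.1, show tF _ = k from Fin.ext c.2]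

theorem seedOK : Seed CG CX := by
  have c := chty
  simp only [List.range, List.range.loop, List.map, List.cons.injEq, Prod.mk.injEq] at c
  obtain ⟨c0, c1, c2, c3, c4, c5, c6, c7, -⟩ := c
  have g1 : gM (cg CG 1) = (1 : U21).1 := (congrArg gM idc.1).trans gM0
  have g2 : gM (cg CG 2) = (1 : U21).1 := (congrArg gM idc.2).trans gM0
  constructor
  · intro n hn
    interval_cases n
    exacts [mem_of (u := 1) (i := 0) (k := 0) gM0 c0 (.one 0),
      mem_of (i := 1) (k := 1) g1 c1 (.one 1), mem_of (i := 2) (k := 2) g2 c2 (.one 2),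
      mem_of (u := RelP.u1) (i := 0) (k := 0) gM3 c3 (rel_zero.2 RelP.m1),
      mem_of (u := A 1) (i := 0) (k := 1) gM4 c4 (rel_A 1),
      mem_of (u := A 2) (i := 0) (k := 2) gM5 c5 (rel_A 2),
      mem_of (i := 1) (k := 0) (gM_inv (u := A 1) gM4 inv6) c6 (rel_A 1).inv,
      mem_of (i := 2) (k := 0) (gM_inv (u := A 2) gM5 inv7) c7 (rel_A 2).inv]
  · intro q hq
    interval_cases q
    exacts [⟨(eU_of (u := 1) gM0).2, c0.1.trans c0.2.symm⟩, ⟨(eU_of g1).2, c1.1.trans c1.2.symm⟩,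
      ⟨(eU_of g2).2, c2.1.trans c2.2.symm⟩]

theorem tabOK : TabOK CG CX 422 := tab_ok seedOK fun n h1 h2 => allR_true entAll n h1 h2

theorem charts (i : Fin 3) {x y t : ℝ} (hD : Dom x y t) :
    (∃ k h, Rel i k h ∧ rr h (bp x y t 0) ≤ 98 / 100 ∧ normSq (h.1 2 0) ≤ 200) ∧
      ∀ P : Subgroup U21, (P : Set U21) = Pset →
        LC P (TT CG CX 422) (98 / 100) i (bp x y t 0) := by
  fin_cases i
  exacts [chart_ok tabOK 0 hok0 run0 cmp0 hD, chart_ok tabOK 1 hok1 run1 cmp1 hD,
    chart_ok tabOK 2 hok2 run2 cmp2 hD]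

theorem core2 : Core2 := ⟨relP, fun i _ _ _ hD => (charts i hD).1⟩

theorem seedT {s w : ℕ} {k : Fin 3} {u : U21} (hs : s < 422) (h : gM (cg CG s) = u.1)
    (e : adj CG CX 422 1057280 0 1057280 s (0 : Fin 3).1 k.1 w = true) :
    u ∈ TT CG CX 422 0 k := by
  have := adj_ok seedOK tabOK.mem (by norm_num) hs e
  rwa [pU_id, (eU_of (u := 1) gM0).2, (eU_of h).2, one_mul, one_mul, inv_one, one_mul] at this

theorem A_T (j : Fin 3) : A j ∈ TT CG CX 422 0 j := by
  fin_cases j
  exacts [Or.inl ⟨rfl, one_P⟩, seedT (k := 1) (by norm_num) gM4 seed4,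
    seedT (k := 2) (by norm_num) gM5 seed5]

theorem gen_T {g : U21} (hg : g.1 = R1 ∨ g.1 = R2 ∨ g.1 = R3 ∨ g.1 = ze • (1 : M3)) :
    g ∈ TT CG CX 422 0 0 := by
  rcases hg with h | h | h | h
  · exact seedT (k := 0) (by norm_num) (gM3.trans h.symm) seed3
  · refine Or.inl ⟨rfl, 0, 2, 1, 0, -1, h.trans ?_⟩
    have e : ze ^ 2 = om := by rw [ze]; linear_combination om_sq
    ext a b
    fin_cases a <;> fin_cases b <;> simp [R2, pm, e, eis, nq]
    ring
  · refine Or.inl ⟨rfl, 0, 1, 0, 0, 0, h.trans ?_⟩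
    ext a b
    fin_cases a <;> fin_cases b <;> simp [R3, pm, ze, eis, nq]
  · exact Or.inl ⟨rfl, 1, 0, 0, 0, 0, h.trans (by rw [pm_sc, pow_one])⟩

theorem core1 : Core1 := by
  obtain ⟨P, hP⟩ := rowPgrp.2.1
  have mP : ∀ {p}, p ∈ P ↔ p ∈ Pset := fun {p} => by rw [← hP]; rfl
  have D := rowDesc P (TT CG CX 422) (98 / 100) 16 (by norm_num) (by norm_num) (by norm_num)
    ⟨fun p hp => rowPgrp.2.2.1 p (mP.1 hp), fun _ _ hp => Or.inl ⟨rfl, mP.1 hp⟩,
      fun _ _ _ hp _ ht => T_left (mP.1 hp) ht, fun _ _ _ hp _ ht => T_right (mP.1 hp) ht,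
      fun _ _ _ ht => T_inv tabOK ht,
      fun _ _ _ ht => (T_dep tabOK ht).imp_left fun h => ⟨h.1, mP.2 h.2⟩⟩
    fun i x y t => by
      obtain ⟨p, hp, x', y', t', hD, e⟩ := rowPred x y t
      exact ⟨p, mP.2 hp, e 0 ▸ (charts i hD).2 P hP⟩
  intro i j g hg
  have G : ∀ l ∈ L0, Gen (TT CG CX 422) j 0 (l * A j) := by
    intro l hl
    induction hl using Subgroup.closure_induction_left with
    | one => simpa only [one_mul, mul_one] using Gen.mul 0 j _ _ (A_T j) Gen.one
    | mul_left x hx y _ ih =>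
      rw [mul_assoc]
      exact Gen.mul 0 0 _ _ (gen_T hx) ih
    | inv_mul_cancel x hx y _ ih =>
      rw [mul_assoc]
      exact Gen.mul 0 0 _ _ (T_inv tabOK (gen_T hx)) ih
  have := Gen.mul i 0 _ _ (T_inv tabOK (A_T i)) (G _ hg)
  rw [show (A i)⁻¹ * (A i * g * (A j)⁻¹ * A j) = g by group] at this
  exact (D j i g this).imp_left fun h => ⟨h.1, mP.1 h.2⟩

theorem cover : Cover := rowCov rowPred core2

theorem cuspClass : CuspClass := rowCusp core1 cover

theorem mainA : IsLattice Lam ∧ ¬ IsArith Lam ∧ adField Lam = Subfield.closure {√6} ∧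
    ∀ (g : SU21) (Δ : Subgroup SU21),
      Subgroup.Commensurable (Lam.map (MulAut.conj g).toMonoidHom) Δ → √6 ∈ adField Δ := by
  rw [rowLam]
  obtain ⟨τ, ρ, e, hT, hL⟩ := rowUni relP
  have hTr := rowTr τ ρ _ e hT hL
  refine ⟨rowLat rowVol cover (rowDisc L0 fun g hg => (core1 0 0 g (rel_zero.2 hg)).imp_left
    And.right), rowNA τ ρ _ e hT hL, le_antisymm rowTrUp (Subfield.closure_le.2 ?_), hTr⟩
  rintro _ rfl
  refine hTr 1 _ ?_
  rw [map_one]
  have : Subgroup.map (MulEquiv.toMonoidHom (1 : MulAut SU21)) (lift L0) = lift L0 :=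
    Subgroup.map_id _
  rw [this]

end Pool.Agent.MP_d97ab6_al.H19
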