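import Pool.Agent.MP_d97ab6_al.H19.Spec

/-! The cusp group is a group generated by two reflections and scalars. -/

namespace Pool.Agent.MP_d97ab6_al.H19

open Matrix Complex
open scoped ComplexConjugate

namespace Pgrp

theorem om_eq : om ^ 2 + om + 1 = 0 := by linear_combination om_sq

theorem ze_six : ze ^ 6 = 1 := by
  unfold ze
  linear_combination (om ^ 4 + 5 * om ^ 3 + 9 * om ^ 2 + 6 * om) * om_eq

theorem ze_un (u : ℕ) : conj (ze ^ u) * ze ^ u = 1 := by
  rw [map_pow, ← mul_pow, ze, map_add, map_one, conj_om,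
    show (1 + (-1 - om)) * (1 + om) = 1 by linear_combination -om_eq, one_pow]

/-- General form of an element fixing the first basis vector. -/
noncomputable def gm (s x z : ℂ) : M3 := !![1, -conj x * s, z; 0, s, x; 0, 0, 1]

theorem gm_isU {s x z : ℂ} (h : conj s * s = 1) (hz : conj z + conj x * x + z = 0) :
    IsU (gm s x z) := by
  unfold IsU
  ext i j
  fin_cases i <;> fin_cases j <;>
    simp [gm, J, Matrix.mul_apply, Fin.sum_univ_three] <;>
    first | assumption | ring1 | linear_combination hz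

theorem gm_mul {s : ℂ} (h : conj s * s = 1) (x z s' x' z' : ℂ) :
    gm s x z * gm s' x' z' = gm (s * s') (x + s * x') (z + z' - conj x * (s * x')) := by
  ext i j
  fin_cases i <;> fin_cases j <;> simp [gm, Matrix.mul_apply, Fin.sum_univ_three]
  · linear_combination conj x' * s' * h
  all_goals ring

/-- The corner entry. -/
noncomputable def cw (a b m : ℤ) : ℂ := (nq a b : ℂ) * om + (1 + 2 * om) * ((m : ℂ) / 3)

theorem pm_eq (k v : ℕ) (a b m : ℤ) :
    pm k v a b m = ze ^ k • gm (ze ^ v) (eis a b) (cw a b m) := rfl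

theorem pm_isU (k v : ℕ) (a b m : ℤ) : IsU (pm k v a b m) := by
  have h : IsU (gm (ze ^ v) (eis a b) (cw a b m)) := by
    refine gm_isU (ze_un v) ?_
    simp only [cw, eis, nq, map_div₀, map_add, map_mul, map_intCast, conj_om, map_ofNat, map_one]
    push_cast
    linear_combination (-(b : ℂ) ^ 2) * om_eq
  rw [pm_eq]
  unfold IsU at *
  rw [conjTranspose_smul, Matrix.smul_mul, Matrix.smul_mul, Matrix.mul_smul, smul_smul, h,
    star_def, ze_un, one_smul]

/-- `eis p q` is the rotation of `eis x y` by `w`. -/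
structure Ro (w : ℂ) (x y p q : ℤ) : Prop where
  e : w * eis x y = eis p q
  n : p ^ 2 - p * q + q ^ 2 = x ^ 2 - x * y + y ^ 2

theorem Ro.refl (x y : ℤ) : Ro (ze ^ 0) x y x y := ⟨by simp, rfl⟩

theorem Ro.succ {v : ℕ} {x y p q : ℤ} (h : Ro (ze ^ v) x y p q) :
    Ro (ze ^ (v + 1)) x y (p - q) p := by
  refine ⟨?_, by linarith [h.n]⟩
  rw [pow_succ', mul_assoc, h.e, eis, eis, ze]
  push_cast
  linear_combination (q : ℂ) * om_eq

theorem rot (v : ℕ) (x y : ℤ) : ∃ p q, Ro (ze ^ v) x y p q := by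
  induction v with
  | zero => exact ⟨x, y, .refl x y⟩
  | succ v ih =>
    obtain ⟨p, q, h⟩ := ih
    exact ⟨_, _, h.succ⟩

theorem Ro.inv {w w' : ℂ} {x y p q : ℤ} (h : Ro w x y p q) (e : w' * w = 1) : Ro w' p q x y :=
  ⟨by rw [← h.e, ← mul_assoc, e, one_mul], h.n.symm⟩

theorem Ro.zero (w : ℂ) : Ro w 0 0 0 0 := ⟨by simp [eis], rfl⟩

theorem pm_mul {v : ℕ} {x y p q : ℤ} (h : Ro (ze ^ v) x y p q) (k k' v' : ℕ) (a b m m' : ℤ) :
    pm k v a b m * pm k' v' x y m' =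
      pm (k + k') (v + v') (a + p) (b + q) (m + m' - 3 * ((a - b) * p + b * q)) := by
  have n1 := congrArg (Int.cast : ℤ → ℂ) h.n
  simp only [pm_eq]
  rw [Matrix.smul_mul, Matrix.mul_smul, smul_smul, gm_mul (ze_un v), ← pow_add, ← pow_add, h.e]
  congr 2
  · simp only [eis]
    push_cast
    ring
  · simp only [cw, eis, nq, map_add, map_mul, map_intCast, conj_om]
    push_cast at n1 ⊢
    linear_combination -om * n1 + (b : ℂ) * q * om_eq

theorem pm_mod (k v : ℕ) (a b m : ℤ) : pm k (v % 6) a b m = pm k v a b m := by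
  rw [pm, pm, ← pow_eq_pow_mod v ze_six]

theorem pm_sc (k : ℕ) : pm k 0 0 0 0 = ze ^ k • (1 : M3) := by
  rw [pm_eq]
  congr 1
  ext i j
  fin_cases i <;> fin_cases j <;> simp [gm, cw, eis, nq]

theorem pm_fac (k v : ℕ) (a b m : ℤ) :
    pm k v a b m = pm 0 0 a b m * pm 0 (v % 6) 0 0 0 * pm k 0 0 0 0 := by
  rw [pm_mul (Ro.zero _), pm_mul (Ro.zero _)]
  simp only [zero_add, add_zero, mul_zero, sub_zero, pm_mod]

theorem mul_mem {g h : U21} (hg : g ∈ Pset) (hh : h ∈ Pset) : g * h ∈ Pset := by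
  obtain ⟨k, v, a, b, m, e⟩ := hg
  obtain ⟨k', v', x, y, m', e'⟩ := hh
  obtain ⟨p, q, h2⟩ := rot v x y
  exact ⟨_, _, _, _, _, by rw [U21.val_mul, e, e', pm_mul h2]⟩

theorem inv_val {g : U21} {m : M3} (h : g.1 * m = 1) : (g⁻¹).1 = m := by
  rw [U21.val_inv, ← Matrix.mul_one (J * g.1ᴴ * J), ← h, ← Matrix.mul_assoc, g.2.left_inv,
    Matrix.one_mul]

theorem inv_mem {g : U21} (hg : g ∈ Pset) : g⁻¹ ∈ Pset := by
  obtain ⟨k, v, a, b, m, e⟩ := hg
  obtain ⟨p, q, h2⟩ := rot (5 * v) (-a) (-b)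
  have z : ∀ n, ze ^ (n + 5 * n) = 1 := fun n => by
    rw [show n + 5 * n = 6 * n by ring, pow_mul, ze_six, one_pow]
  refine ⟨5 * k, 5 * v, p, q, -m + 3 * ((a - b) * -a + b * -b), inv_val ?_⟩
  rw [e, pm_mul (h2.inv (by rw [← pow_add, z])), ← pm_mod, show (v + 5 * v) % 6 = 0 by omega,
    ← one_smul ℂ (1 : M3), ← z k, ← pm_sc]
  congr 1 <;> ring

/-- The elements of the cusp group. -/
noncomputable def el (k v : ℕ) (a b m : ℤ) : U21 := ⟨pm k v a b m, pm_isU k v a b m⟩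

theorem el_mul {v : ℕ} {x y p q : ℤ} (h : Ro (ze ^ v) x y p q) (k k' v' : ℕ) (a b m m' : ℤ) :
    el k v a b m * el k' v' x y m' =
      el (k + k') (v + v') (a + p) (b + q) (m + m' - 3 * ((a - b) * p + b * q)) :=
  Subtype.ext (pm_mul h k k' v' a b m m')

theorem el_six (a b m : ℤ) : el 0 6 a b m = el 0 0 a b m := Subtype.ext (pm_mod 0 6 a b m).symm

theorem gen (Q : Subgroup U21)
    (hQ : ∀ g : U21, g.1 = R2 ∨ g.1 = R3 ∨ g.1 = ze • (1 : M3) → g ∈ Q) : Pset ⊆ Q := by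
  have h0 : el 0 0 0 0 0 ∈ Q := by
    rw [show el 0 0 0 0 0 = 1 from Subtype.ext ((pm_sc 0).trans (by simp))]
    exact Q.one_mem
  have h1 : el 1 0 0 0 0 ∈ Q := hQ _ (.inr (.inr ((pm_sc 1).trans (by rw [pow_one]))))
  have h2 : el 0 2 1 0 (-1) ∈ Q := hQ _ (.inl (by
    have e : ze ^ 2 = om := by
      unfold ze
      linear_combination om_eq
    ext i j
    fin_cases i <;> fin_cases j <;> simp [el, pm, R2, e, eis, nq]
    ring))
  have h3 : el 0 1 0 0 0 ∈ Q := hQ _ (.inr (.inl (by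
    ext i j
    fin_cases i <;> fin_cases j <;> simp [el, pm, R3, ze, eis, nq])))
  have hk : ∀ k, el k 0 0 0 0 ∈ Q := fun k => by
    induction k with
    | zero => exact h0
    | succ k ih => simpa [el_mul (Ro.zero _)] using Q.mul_mem ih h1
  have hv : ∀ v, el 0 v 0 0 0 ∈ Q := fun v => by
    induction v with
    | zero => exact h0
    | succ v ih => simpa [el_mul (Ro.zero _)] using Q.mul_mem ih h3
  have h4 : el 0 3 1 1 (-1) ∈ Q := by
    simpa [el_mul (Ro.refl 1 0).succ] using Q.mul_mem h3 h2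
  have h5 : el 0 0 0 0 1 ∈ Q := by
    simpa [el_mul (Ro.refl 1 1).succ.succ.succ, el_six] using Q.mul_mem h4 h4
  have hm : ∀ a b m m', el 0 0 a b m ∈ Q → el 0 0 a b m' ∈ Q := fun a b m m' h => by
    have e : ∀ n, el 0 0 a b (n + 1) ∈ Q ↔ el 0 0 a b n ∈ Q := fun n => by
      rw [← Q.mul_mem_cancel_right (y := el 0 0 a b n) h5, el_mul (Ro.zero _)]
      simp
    induction m' using Int.inductionOn' (b := m) with
    | zero => exact h
    | succ n _ ih => exact (e n).2 ih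
    | pred n _ ih => exact (e _).1 (by rwa [sub_add_cancel])
  have ht : ∀ x y a b, el 0 0 x y 0 ∈ Q → el 0 0 a b 0 ∈ Q → ∀ n : ℤ,
      el 0 0 (a + n * x) (b + n * y) 0 ∈ Q := fun x y a b hx h n => by
    have e : ∀ n : ℤ, el 0 0 (a + (n + 1) * x) (b + (n + 1) * y) 0 ∈ Q ↔
        el 0 0 (a + n * x) (b + n * y) 0 ∈ Q := fun n => by
      rw [← Q.mul_mem_cancel_right (y := el 0 0 (a + n * x) _ _) hx, el_mul (Ro.refl x y),
        add_one_mul, add_one_mul, ← add_assoc, ← add_assoc]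
      exact ⟨hm _ _ _ _, hm _ _ _ _⟩
    induction n using Int.inductionOn' (b := 0) with
    | zero => simpa using h
    | succ n _ ih => exact (e n).2 ih
    | pred n _ ih => exact (e _).1 (by rwa [sub_add_cancel])
  have h6 : el 0 0 1 0 (-1) ∈ Q := by
    simpa [el_mul (Ro.zero _), el_six] using Q.mul_mem h2 (hv 4)
  have h7 : el 0 0 1 1 (-1) ∈ Q := by
    simpa [el_mul (Ro.zero _), el_six] using Q.mul_mem h4 (hv 3)
  rintro g ⟨k, v, a, b, m, e⟩
  have h8 : el 0 0 a b 0 ∈ Q := by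
    simpa using ht _ _ _ _ (hm _ _ _ _ h7) (ht _ _ _ _ (hm _ _ _ _ h6) h0 (a - b)) b
  rw [show g = el 0 0 a b m * el 0 (v % 6) 0 0 0 * el k 0 0 0 0 from
    Subtype.ext (e.trans (pm_fac k v a b m))]
  exact Q.mul_mem (Q.mul_mem (hm _ _ _ _ h8) (hv _)) (hk k)

end Pgrp

open Pgrp in
theorem rowPgrp : SPgrp := by
  refine ⟨pm_isU, ⟨⟨⟨⟨Pset, Pgrp.mul_mem⟩, ⟨0, 0, 0, 0, 0, by rw [pm_sc]; simp⟩⟩,
    Pgrp.inv_mem⟩, rfl⟩, ?_, pm_fac, gen⟩
  rintro p ⟨k, v, a, b, m, e⟩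
  refine ⟨ze ^ k, ofReal_injective (by rw [normSq_eq_conj_mul_self, ze_un, ofReal_one]), ?_⟩
  ext i
  fin_cases i <;> simp [ap, e, pm, e0, Matrix.mulVec, dotProduct, Fin.sum_univ_three]

end Pool.Agent.MP_d97ab6_al.H19
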