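import Pool.Agent.MP_d97ab6_al.H19.Pgrp
import Pool.Agent.MP_d97ab6_al.H19.Lam

/-! The cusp group of each chart lies in the group. -/

namespace Pool.Agent.MP_d97ab6_al.H19

open Matrix Complex

namespace RelP

noncomputable def X1 : M3 := (1 / 3 : ℂ) • !![3, 3, -1 + om;
    -6 + 3 * om + 3 * sr + 3 * om * sr, -6 + 3 * sr + 3 * om * sr, 1 - om - 2 * sr - om * sr;
    -9 + 9 * om + 9 * sr + 9 * om * sr, -6 + 3 * om + 6 * sr + 6 * om * sr, -3 * om - 3 * sr]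

noncomputable def X2 : M3 := (1 / 3 : ℂ) •
  !![-3 - 6 * om - 3 * sr, -2 - 4 * om - sr + om * sr, 1 + 2 * om - sr - 2 * om * sr;
    12 + 12 * om + 3 * sr - 6 * om * sr, 9 + 9 * om - 6 * om * sr,
      -4 - 2 * om + 2 * sr + 4 * om * sr;
    27 + 18 * om - 18 * om * sr, 18 + 12 * om - 12 * om * sr, -6 + 3 * sr + 6 * om * sr]

noncomputable def X3 : M3 := (1 / 3 : ℂ) •
  !![3 * om + 3 * sr + 3 * om * sr, 2 + 3 * om + sr, -1 - 3 * om + sr;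
    -3 - 12 * om - 9 * sr - 3 * om * sr, -6 - 6 * om + 3 * om * sr, 3 + 3 * om;
    -3 - 21 * om - 15 * sr - 6 * om * sr, -9 - 6 * om + 6 * om * sr, 5 + 4 * om + sr - om * sr]

theorem m : AM 1 * R2 = R1 * AM 1 ∧ AM 1 * R3 = R3 * AM 1 ∧ AM 2 * R2 = R2 * AM 2 ∧
    R1 * R2 * R3 = X1 ∧ X1 * X1 = X2 ∧ X2 * AM 2 = X3 ∧ X2 * X3 * (R3 * ze • (1 : M3)) = AM 2 := by
  have h1 := om_sq
  have h2 := sr_sq
  refine ⟨?_, ?_, ?_, ?_, ?_, ?_, ?_⟩
  all_goals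
    ext a b
    fin_cases a <;> fin_cases b <;>
      simp [AM, R1, R2, R3, X1, X2, X3, ze, Matrix.mul_apply, Fin.sum_univ_three] <;> grind

noncomputable def u1 : U21 := ⟨R1, Lam.isU_R (Or.inl rfl)⟩
noncomputable def u2 : U21 := ⟨R2, Lam.isU_R (Or.inr (Or.inl rfl))⟩
noncomputable def u3 : U21 := ⟨R3, Lam.isU_R (Or.inr (Or.inr rfl))⟩
noncomputable def uz : U21 := Pgrp.el 1 0 0 0 0

theorem sc_val (k : ℕ) : (Pgrp.el k 0 0 0 0).1 = ze ^ k • (1 : M3) := Pgrp.pm_sc k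

theorem uz_val : uz.1 = ze • (1 : M3) := (sc_val 1).trans (by rw [pow_one])

theorem sc_comm (k : ℕ) (h : U21) : Pgrp.el k 0 0 0 0 * h = h * Pgrp.el k 0 0 0 0 :=
  Subtype.ext (by simp [sc_val])

theorem m1 : u1 ∈ L0 := Subgroup.subset_closure (Or.inl rfl)
theorem m2 : u2 ∈ L0 := Subgroup.subset_closure (Or.inr (Or.inl rfl))
theorem m3 : u3 ∈ L0 := Subgroup.subset_closure (Or.inr (Or.inr (Or.inl rfl)))
theorem mz : uz ∈ L0 := Subgroup.subset_closure (Or.inr (Or.inr (Or.inr uz_val)))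

theorem cj {a g l : U21} (hl : l ∈ L0) (h : a.1 * g.1 = l.1 * a.1) : a * g * a⁻¹ ∈ L0 := by
  rwa [show a * g = l * a from Subtype.ext h, mul_inv_cancel_right]

theorem hard : A 2 * u3 * (A 2)⁻¹ ∈ L0 := by
  obtain ⟨-, -, -, e1, e2, e3, e4⟩ := m
  have hx : u1 * u2 * u3 ∈ L0 := L0.mul_mem (L0.mul_mem m1 m2) m3
  have v1 : (u1 * u2 * u3).1 = X1 := e1
  generalize u1 * u2 * u3 = x at hx v1
  have hy := L0.mul_mem hx hx
  have v2 : (x * x).1 = X2 := by rw [U21.val_mul, v1, e2]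
  generalize x * x = y at hy v2
  have e : y * (y * A 2) * (u3 * uz) = A 2 := Subtype.ext (by
    rw [U21.val_mul, U21.val_mul, U21.val_mul, U21.val_mul, v2, uz_val]
    exact (congrArg (fun z => X2 * z * (R3 * ze • (1 : M3))) e3).trans e4)
  have c : uz * (A 2)⁻¹ = (A 2)⁻¹ * uz := sc_comm 1 _
  have : A 2 * u3 * (A 2)⁻¹ = y⁻¹ * y⁻¹ * uz⁻¹ := by
    calc A 2 * u3 * (A 2)⁻¹ = y⁻¹ * y⁻¹ * (y * (y * A 2) * (u3 * uz)) * (uz⁻¹ * (A 2)⁻¹) := by group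
      _ = y⁻¹ * y⁻¹ * A 2 * (uz⁻¹ * ((A 2)⁻¹ * uz) * uz⁻¹) := by rw [e]; group
      _ = _ := by
        rw [← c, inv_mul_cancel_left]
        group
  rw [this]
  exact L0.mul_mem (L0.mul_mem (L0.inv_mem hy) (L0.inv_mem hy)) (L0.inv_mem mz)

end RelP

open RelP in
theorem relP (i : Fin 3) : ∀ p ∈ Pset, Rel i i p := by
  refine Pgrp.gen (L0.comap (MulAut.conj (A i)).toMonoidHom) ?_
  intro g hg
  change A i * g * (A i)⁻¹ ∈ L0
  obtain ⟨e1, e2, e3, -⟩ := m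
  rcases hg with hg | hg | hg
  · obtain rfl : g = u2 := Subtype.ext hg
    fin_cases i
    exacts [rel_zero.2 m2, cj m1 e1, cj m2 e3]
  · obtain rfl : g = u3 := Subtype.ext hg
    fin_cases i
    exacts [rel_zero.2 m3, cj m3 e2, hard]
  · obtain rfl : g = uz := Subtype.ext (hg.trans uz_val.symm)
    exact cj mz (congrArg Subtype.val (sc_comm 1 _).symm)

end Pool.Agent.MP_d97ab6_al.H19
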