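import Pool.Agent.MP_d97ab6_al.H19.Base
import Pool.Agent.MP_d97ab6_al.H19.Chk

/-! Exact layer: matrices over the ring generated by `om` and `sr`, represented by pairs of natural
numbers modulo `B^2+B+1` with `B = 2^128`. -/

namespace Pool.Agent.MP_d97ab6_al.H19

open Matrix Complex
open scoped ComplexConjugate

def cB : Nat := 340282366920938463463374607431768211456
def cB1 : Nat := 340282366920938463463374607431768211457
def cB2 : Nat := 115792089237316195423570985008687907853269984665640564039457584007913129639936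
def cN : Nat := 115792089237316195423570985008687907853610267032561502502920958615344897851393
def cM : Nat := 115792089237316195423570985008687907853610267032561502502920958615344897851391
def cS : Nat := 115792089237316195423570985008687907853610267032561502502920958615344897851392

/-- `u` represents the Eisenstein integer `z` with coefficients bounded by `β`. -/
def ER (β : ℕ) (z : ℂ) (u : ℕ) : Prop :=
  ∃ a b : ℤ, z = eis a b ∧ |a| ≤ β ∧ |b| ≤ β ∧ (u : ℤ) ≡ a + b * cB [ZMOD cN]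

def Rep (β : ℕ) (z : ℂ) (u v : ℕ) : Prop :=
  ∃ z1 z2 : ℂ, z = z1 + z2 * sr ∧ ER β z1 u ∧ ER β z2 v

inductive NM
  | mk (u00 v00 u01 v01 u02 v02 u10 v10 u11 v11 u12 v12 u20 v20 u21 v21 u22 v22 : Nat)

def NM.u : NM → Fin 3 → Fin 3 → ℕ
  | .mk u00 _ u01 _ u02 _ u10 _ u11 _ u12 _ u20 _ u21 _ u22 _ =>
    ![![u00, u01, u02], ![u10, u11, u12], ![u20, u21, u22]]

def NM.v : NM → Fin 3 → Fin 3 → ℕ
  | .mk _ v00 _ v01 _ v02 _ v10 _ v11 _ v12 _ v20 _ v21 _ v22 =>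
    ![![v00, v01, v02], ![v10, v11, v12], ![v20, v21, v22]]

def MRep (β : ℕ) (M : M3) (X : NM) : Prop := ∀ i j, Rep β (M i j) (X.u i j) (X.v i j)

def d3u (a0 b0 a1 b1 a2 b2 c0 d0 c1 d1 c2 d2 : Nat) : Nat :=
  Nat.mod (Nat.add (Nat.add (Nat.add (Nat.mul a0 c0) (Nat.mul a1 c1)) (Nat.mul a2 c2))
    (Nat.mul cM (Nat.add (Nat.add (Nat.mul b0 d0) (Nat.mul b1 d1)) (Nat.mul b2 d2)))) cN

def d3v (a0 b0 a1 b1 a2 b2 c0 d0 c1 d1 c2 d2 : Nat) : Nat :=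
  Nat.mod (Nat.add (Nat.add (Nat.add (Nat.mul a0 d0) (Nat.mul a1 d1)) (Nat.mul a2 d2))
    (Nat.add (Nat.add (Nat.mul b0 c0) (Nat.mul b1 c1)) (Nat.mul b2 c2))) cN

noncomputable def mm (X Y : NM) : NM :=
  NM.rec (motive := fun _ => NM) (fun
    a00 b00 a01 b01 a02 b02 a10 b10 a11 b11 a12 b12 a20 b20 a21 b21 a22 b22 =>
    NM.rec (motive := fun _ => NM) (fun
    c00 d00 c01 d01 c02 d02 c10 d10 c11 d11 c12 d12 c20 d20 c21 d21 c22 d22 =>
    NM.mk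
      (d3u a00 b00 a01 b01 a02 b02 c00 d00 c10 d10 c20 d20)
      (d3v a00 b00 a01 b01 a02 b02 c00 d00 c10 d10 c20 d20)
      (d3u a00 b00 a01 b01 a02 b02 c01 d01 c11 d11 c21 d21)
      (d3v a00 b00 a01 b01 a02 b02 c01 d01 c11 d11 c21 d21)
      (d3u a00 b00 a01 b01 a02 b02 c02 d02 c12 d12 c22 d22)
      (d3v a00 b00 a01 b01 a02 b02 c02 d02 c12 d12 c22 d22)
      (d3u a10 b10 a11 b11 a12 b12 c00 d00 c10 d10 c20 d20)
      (d3v a10 b10 a11 b11 a12 b12 c00 d00 c10 d10 c20 d20)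
      (d3u a10 b10 a11 b11 a12 b12 c01 d01 c11 d11 c21 d21)
      (d3v a10 b10 a11 b11 a12 b12 c01 d01 c11 d11 c21 d21)
      (d3u a10 b10 a11 b11 a12 b12 c02 d02 c12 d12 c22 d22)
      (d3v a10 b10 a11 b11 a12 b12 c02 d02 c12 d12 c22 d22)
      (d3u a20 b20 a21 b21 a22 b22 c00 d00 c10 d10 c20 d20)
      (d3v a20 b20 a21 b21 a22 b22 c00 d00 c10 d10 c20 d20)
      (d3u a20 b20 a21 b21 a22 b22 c01 d01 c11 d11 c21 d21)
      (d3v a20 b20 a21 b21 a22 b22 c01 d01 c11 d11 c21 d21)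
      (d3u a20 b20 a21 b21 a22 b22 c02 d02 c12 d12 c22 d22)
      (d3v a20 b20 a21 b21 a22 b22 c02 d02 c12 d12 c22 d22)) Y) X

def eq1 (s x e y : Nat) : Bool := Nat.beq (Nat.mod (Nat.mul s x) cN) (Nat.mod (Nat.mul e y) cN)

/-- `s • X = e • Y` modulo `cN`. -/
noncomputable def eqN (s : Nat) (X : NM) (e : Nat) (Y : NM) : Bool :=
  NM.rec (motive := fun _ => Bool) (fun
    a00 b00 a01 b01 a02 b02 a10 b10 a11 b11 a12 b12 a20 b20 a21 b21 a22 b22 =>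
    NM.rec (motive := fun _ => Bool) (fun
    c00 d00 c01 d01 c02 d02 c10 d10 c11 d11 c12 d12 c20 d20 c21 d21 c22 d22 =>
      (band (eq1 s a00 e c00)
      (band (eq1 s b00 e d00)
      (band (eq1 s a01 e c01)
      (band (eq1 s b01 e d01)
      (band (eq1 s a02 e c02)
      (band (eq1 s b02 e d02)
      (band (eq1 s a10 e c10)
      (band (eq1 s b10 e d10)
      (band (eq1 s a11 e c11)
      (band (eq1 s b11 e d11)
      (band (eq1 s a12 e c12)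
      (band (eq1 s b12 e d12)
      (band (eq1 s a20 e c20)
      (band (eq1 s b20 e d20)
      (band (eq1 s a21 e c21)
      (band (eq1 s b21 e d21)
      (band (eq1 s a22 e c22)
      (eq1 s b22 e d22))))))))))))))))))) Y) X

def dg (g n : Nat) : Nat := Nat.mod (Nat.shiftRight g (Nat.mul 12 n)) 4096

noncomputable def gz (g n : ℕ) : ℂ :=
  eis ((dg g n : ℤ) - 2048) ((dg g (n + 1) : ℤ) - 2048) +
    eis ((dg g (n + 2) : ℤ) - 2048) ((dg g (n + 3) : ℤ) - 2048) * sr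

/-- The matrix coded by `g`. -/
noncomputable def gM (g : ℕ) : M3 := (1 / 9 : ℂ) •
  !![gz g 0, gz g 4, gz g 8; gz g 12, gz g 16, gz g 20; gz g 24, gz g 28, gz g 32]

def gu (g n : Nat) : Nat :=
  Nat.add (Nat.add (dg g n) (Nat.mul cB (dg g (Nat.add n 1)))) (Nat.mul 2048 cB2)

/-- Represents nine times `gM g`. -/
def gN (g : Nat) : NM := NM.mk
    (gu g 0) (gu g 2) (gu g 4) (gu g 6) (gu g 8) (gu g 10) (gu g 12) (gu g 14) (gu g 16) (gu g 18)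
    (gu g 20) (gu g 22) (gu g 24) (gu g 26) (gu g 28) (gu g 30) (gu g 32) (gu g 34)

def fl (c s m : Nat) : Nat := Nat.mod (Nat.div c s) m

/-- The element of the cusp group coded by `c`, with scalar exponent `k`. -/
noncomputable def pc (k c : ℕ) : M3 :=
  pm k (fl c 8 8) ((fl c 64 16 : ℤ) - 8) ((fl c 1024 16 : ℤ) - 8) ((fl c 16384 128 : ℤ) - 64)

def zu (a b : Nat) : Nat := Nat.add (Nat.add a (Nat.mul cB b)) (Nat.mul 8 cB2)

def zc (a b : Nat) : Nat := Nat.add (Nat.add a (Nat.mul cB2 b)) (Nat.mul 8 cB)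

def pN2 (u z y w : Nat) : NM := NM.mk
    3 0 (Nat.mod (Nat.mul (Nat.mul 3 cS) (Nat.mul y u)) cN) 0
    (Nat.mod (Nat.add (Nat.mul (Nat.mul 3 cB) (Nat.mul z y)) (Nat.mul (Nat.add cB cB1) w)) cN) 0
    0 0 (Nat.mul 3 u) 0 (Nat.mul 3 z) 0
    0 0 0 0 3 0

def pN1 (v a b m : Nat) : NM :=
  pN2 (Nat.mod (Nat.pow cB1 v) cN) (zu a b) (zc a b) (Nat.add m (Nat.mul cS 64))

/-- Represents three times `pc 0 c`. -/
def pN (c : Nat) : NM := pN1 (fl c 8 8) (fl c 64 16) (fl c 1024 16) (fl c 16384 128)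

/-- Represents twenty seven times `pc 0 p * gM g`. -/
noncomputable def hN (p g : Nat) : NM := mm (pN p) (gN g)

noncomputable def U5 (pb gb pa ga p1 gc p2 : Nat) : Bool :=
  eqN 81 (hN pb gb) (Nat.pow cB1 (Nat.mod p2 8)) (mm (mm (hN pa ga) (hN p1 gc)) (pN p2))

namespace Rep

theorem cN_eq : (cN : ℤ) = (cB : ℤ) ^ 2 + cB + 1 := by norm_num [cN, cB]
theorem cB1_eq : (cB1 : ℤ) = cB + 1 := by norm_num [cB1, cB]
theorem cB2_eq : (cB2 : ℤ) = (cB : ℤ) ^ 2 := by norm_num [cB2, cB]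
theorem cM_eq : (cM : ℤ) = (cB : ℤ) ^ 2 + cB - 1 := by norm_num [cM, cB]
theorem cS_eq : (cS : ℤ) = (cB : ℤ) ^ 2 + cB := by norm_num [cS, cB]
theorem cB_eq : cB = 2 ^ 128 := by norm_num [cB]

theorem conj_eis (a b : ℤ) : conj (eis a b) = eis (a - b) (-b) := by
  simp only [eis, map_add, map_mul, map_intCast, conj_om]
  push_cast; ring

theorem eis_norm (a b : ℤ) : eis a b * conj (eis a b) = ((a ^ 2 - a * b + b ^ 2 : ℤ) : ℂ) := by
  rw [conj_eis]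
  simp only [eis]
  push_cast
  linear_combination (-(b : ℂ) ^ 2) * om_sq

variable {β β' : ℕ} {z z' : ℂ} {u u' v v' : ℕ}

theorem mk' (a b k : ℤ) (hz : z = eis a b) (ha : |a| ≤ β) (hb : |b| ≤ β)
    (h : (u : ℤ) = a + b * cB + k * ((cB : ℤ) ^ 2 + cB + 1)) : ER β z u :=
  ⟨a, b, hz, ha, hb, Int.modEq_iff_dvd.2 ⟨-k, by rw [h, cN_eq]; ring⟩⟩

theorem mono (h : ER β z u) (hβ : β ≤ β') : ER β' z u := by
  obtain ⟨a, b, h1, h2, h3, h4⟩ := h
  have : (β : ℤ) ≤ β' := by exact_mod_cast hβ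
  exact ⟨a, b, h1, h2.trans this, h3.trans this, h4⟩

theorem cast (h : ER β z u) (e : z = z') : ER β z' u := e ▸ h

theorem add (h : ER β z u) (h' : ER β' z' u') : ER (β + β') (z + z') (Nat.add u u') := by
  obtain ⟨a, b, h1, h2, h3, h4⟩ := h
  obtain ⟨c, d, k1, k2, k3, k4⟩ := h'
  refine ⟨a + c, b + d, ?_, ?_, ?_, ?_⟩
  · rw [h1, k1]; simp only [eis]; push_cast; ring
  · push_cast; exact (abs_add_le a c).trans (add_le_add h2 k2)
  · push_cast; exact (abs_add_le b d).trans (add_le_add h3 k3)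
  · have := h4.add k4
    have e : a + b * cB + (c + d * cB) = a + c + (b + d) * cB := by ring
    rw [e] at this
    rw [Nat.add_eq]; push_cast; exact this

theorem mul (h : ER β z u) (h' : ER β' z' u') : ER (3 * β * β') (z * z') (Nat.mul u u') := by
  obtain ⟨a, b, h1, h2, h3, h4⟩ := h
  obtain ⟨c, d, k1, k2, k3, k4⟩ := h'
  have key : ∀ x y : ℤ, |x| ≤ β → |y| ≤ β' → -((β : ℤ) * β') ≤ x * y ∧ x * y ≤ β * β' := by
    intro x y hx hy
    rw [← abs_le, abs_mul]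
    exact mul_le_mul hx hy (abs_nonneg y) (Nat.cast_nonneg β)
  have e1 := key a c h2 k2
  have e2 := key a d h2 k3
  have e3 := key b c h3 k2
  have e4 := key b d h3 k3
  have e5 : (0 : ℤ) ≤ β * β' := by positivity
  refine ⟨a * c - b * d, a * d + b * c - b * d, ?_, ?_, ?_, ?_⟩
  · rw [h1, k1]; simp only [eis]; push_cast
    linear_combination ((b : ℂ) * d) * om_sq
  · push_cast; rw [abs_le]; constructor <;> linarith [e1.1, e1.2, e4.1, e4.2]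
  · push_cast; rw [abs_le]
    constructor <;> linarith [e2.1, e2.2, e3.1, e3.2, e4.1, e4.2]
  · rw [Nat.mul_eq]; push_cast
    refine (h4.mul k4).trans (Int.modEq_iff_dvd.2 ⟨-(b * d), ?_⟩)
    rw [cN_eq]; ring

theorem md (h : ER β z u) : ER β z (Nat.mod u cN) := by
  obtain ⟨a, b, h1, h2, h3, h4⟩ := h
  refine ⟨a, b, h1, h2, h3, ?_⟩
  have e : ((Nat.mod u cN : ℕ) : ℤ) = (u : ℤ) % cN := Int.natCast_mod u cN
  rw [e]
  exact (Int.mod_modEq _ _).trans h4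

theorem nat (n : ℕ) : ER n n n :=
  mk' n 0 0 (by simp [eis]) (by simp) (by simp) (by ring)

theorem zero : ER β 0 0 := ((nat 0).imp fun _ h => h) |> fun h => mono (cast h (by simp))
  (Nat.zero_le β)

theorem e_om : ER 1 om cB := mk' 0 1 0 (by simp [eis]) (by simp) (by simp) (by ring)

theorem e_ze : ER 1 ze cB1 :=
  mk' 1 1 0 (by simp [eis, ze]) (by simp) (by simp) (by rw [cB1_eq]; ring)

theorem e_m1 : ER 1 (-1) cS :=
  mk' (-1) 0 1 (by simp [eis]) (by simp) (by simp) (by rw [cS_eq]; ring)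

theorem e_m2 : ER 2 (-2) cM :=
  mk' (-2) 0 1 (by simp [eis]) (by simp) (by simp) (by rw [cM_eq]; ring)

theorem pw (h : ER 1 z u) (k : ℕ) : ER (3 ^ k) (z ^ k) (Nat.pow u k) := by
  induction k with
  | zero => exact cast (nat 1) (by simp)
  | succ k ih => exact mono (cast (mul ih h) (pow_succ z k).symm) (by rw [pow_succ]; omega)

theorem pw8 (h : ER 1 z u) {k : ℕ} (hk : k < 8) : ER 2187 (z ^ k) (Nat.pow u k) :=
  mono (pw h k) (Nat.pow_le_pow_right (by norm_num) (Nat.le_of_lt_succ hk) : 3 ^ k ≤ 3 ^ 7)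

theorem e_u (t a b : ℕ) (ha : a < 2 * t) (hb : b < 2 * t) :
    ER t (eis ((a : ℤ) - t) ((b : ℤ) - t)) (Nat.add (Nat.add a (Nat.mul cB b)) (Nat.mul t cB2)) :=
  mk' _ _ t rfl (by rw [abs_le]; constructor <;> omega) (by rw [abs_le]; constructor <;> omega)
    (by simp only [Nat.add_eq, Nat.mul_eq]; push_cast; rw [cB2_eq]; ring)

theorem e_c (t a b : ℕ) (ha : a < 2 * t) (hb : b < 2 * t) :
    ER (2 * t) (conj (eis ((a : ℤ) - t) ((b : ℤ) - t)))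
      (Nat.add (Nat.add a (Nat.mul cB2 b)) (Nat.mul t cB)) :=
  mk' _ _ b (conj_eis _ _) (by rw [abs_le]; constructor <;> omega)
    (by rw [abs_le]; constructor <;> omega)
    (by simp only [Nat.add_eq, Nat.mul_eq]; push_cast; rw [cB2_eq]; ring)

theorem dg_lt (g n : ℕ) : dg g n < 2 * 2048 := Nat.mod_lt _ (by norm_num)

theorem e_gu (g n : ℕ) :
    ER 2048 (eis ((dg g n : ℤ) - 2048) ((dg g (n + 1) : ℤ) - 2048)) (gu g n) :=
  e_u 2048 _ _ (dg_lt g n) (dg_lt g (n + 1))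

theorem inj (h : ER β z u) (h' : ER β' z' u') (e : Nat.mod u cN = Nat.mod u' cN)
    (hβ : 2 * (β + β') < 2 ^ 128) : z = z' := by
  obtain ⟨a, b, h1, h2, h3, h4⟩ := h
  obtain ⟨c, d, k1, k2, k3, k4⟩ := h'
  have e1 : (u : ℤ) ≡ u' [ZMOD cN] := Int.natCast_modEq_iff.2 e
  have e2 := Int.modEq_iff_dvd.1 (h4.symm.trans (e1.trans k4))
  rw [← cB_eq] at hβ
  have hB : 2 * ((β : ℤ) + β') < cB := by exact_mod_cast hβ
  rw [cN_eq] at e2
  generalize (cB : ℤ) = B at *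
  rw [abs_le] at h2 h3 k2 k3
  have hb : (0 : ℤ) ≤ β := Nat.cast_nonneg β
  have hb' : (0 : ℤ) ≤ β' := Nat.cast_nonneg β'
  have e3 : c + d * B - (a + b * B) = 0 := by
    refine Int.eq_zero_of_abs_lt_dvd e2 ?_
    rw [abs_lt]
    constructor <;> nlinarith [h2.1, h2.2, h3.1, h3.2, k2.1, k2.2, k3.1, k3.2]
  have e4 : c - a = 0 := by
    refine Int.eq_zero_of_abs_lt_dvd (m := B) ⟨b - d, by linarith⟩ ?_
    rw [abs_lt]
    constructor <;> linarith [h2.1, h2.2, k2.1, k2.2]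
  have e5 : (d - b) * B = 0 := by linarith
  have e6 : d - b = 0 := (mul_eq_zero.1 e5).resolve_right (by omega)
  rw [h1, k1, show a = c by omega, show b = d by omega]

theorem rmono (h : Rep β z u v) (hβ : β ≤ β') : Rep β' z u v := by
  obtain ⟨z1, z2, h1, h2, h3⟩ := h
  exact ⟨z1, z2, h1, mono h2 hβ, mono h3 hβ⟩

theorem r0 (h : ER β z u) (hβ : β ≤ β') (e : z' = z) : Rep β' z' u 0 :=
  ⟨z, 0, by rw [e]; ring, mono h hβ, zero⟩

theorem d3 {x0 x1 x2 y0 y1 y2 : ℂ} {a0 b0 a1 b1 a2 b2 c0 d0 c1 d1 c2 d2 : ℕ}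
    (h0 : Rep β x0 a0 b0) (h1 : Rep β x1 a1 b1) (h2 : Rep β x2 a2 b2)
    (k0 : Rep β' y0 c0 d0) (k1 : Rep β' y1 c1 d1) (k2 : Rep β' y2 c2 d2) :
    Rep (64 * β * β') (x0 * y0 + x1 * y1 + x2 * y2)
      (d3u a0 b0 a1 b1 a2 b2 c0 d0 c1 d1 c2 d2) (d3v a0 b0 a1 b1 a2 b2 c0 d0 c1 d1 c2 d2) := by
  obtain ⟨p0, q0, rfl, A0, B0⟩ := h0
  obtain ⟨p1, q1, rfl, A1, B1⟩ := h1
  obtain ⟨p2, q2, rfl, A2, B2⟩ := h2
  obtain ⟨r0, s0, rfl, C0, D0⟩ := k0
  obtain ⟨r1, s1, rfl, C1, D1⟩ := k1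
  obtain ⟨r2, s2, rfl, C2, D2⟩ := k2
  refine ⟨_, _, ?_,
    mono (md (add (add (add (mul A0 C0) (mul A1 C1)) (mul A2 C2))
      (mul e_m2 (add (add (mul B0 D0) (mul B1 D1)) (mul B2 D2))))) ?_,
    mono (md (add (add (add (mul A0 D0) (mul A1 D1)) (mul A2 D2))
      (add (add (mul B0 C0) (mul B1 C1)) (mul B2 C2)))) ?_⟩
  · linear_combination (q0 * s0 + q1 * s1 + q2 * s2) * sr_sq
  · simp only [mul_assoc]; omega
  · simp only [mul_assoc]; omega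

theorem mm_u (X Y : NM) (i j : Fin 3) : (mm X Y).u i j =
    d3u (X.u i 0) (X.v i 0) (X.u i 1) (X.v i 1) (X.u i 2) (X.v i 2)
      (Y.u 0 j) (Y.v 0 j) (Y.u 1 j) (Y.v 1 j) (Y.u 2 j) (Y.v 2 j) := by
  cases X; cases Y
  fin_cases i <;> fin_cases j <;> rfl

theorem mm_v (X Y : NM) (i j : Fin 3) : (mm X Y).v i j =
    d3v (X.u i 0) (X.v i 0) (X.u i 1) (X.v i 1) (X.u i 2) (X.v i 2)
      (Y.u 0 j) (Y.v 0 j) (Y.u 1 j) (Y.v 1 j) (Y.u 2 j) (Y.v 2 j) := by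
  cases X; cases Y
  fin_cases i <;> fin_cases j <;> rfl

variable {M M' : M3} {X Y : NM}

theorem mmul (h : MRep β M X) (h' : MRep β' M' Y) : MRep (64 * β * β') (M * M') (mm X Y) := by
  intro i j
  rw [mm_u, mm_v, Matrix.mul_apply, Fin.sum_univ_three]
  exact d3 (h i 0) (h i 1) (h i 2) (h' 0 j) (h' 1 j) (h' 2 j)

theorem eqN_elim {s e : ℕ} (h : eqN s X e Y = true) (i j : Fin 3) :
    eq1 s (X.u i j) e (Y.u i j) = true ∧ eq1 s (X.v i j) e (Y.v i j) = true := by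
  cases X; cases Y
  simp only [eqN, band_iff] at h
  obtain ⟨h1, h2, h3, h4, h5, h6, h7, h8, h9, h10, h11, h12, h13, h14, h15, h16, h17, h18⟩ := h
  fin_cases i <;> fin_cases j
  exacts [⟨h1, h2⟩, ⟨h3, h4⟩, ⟨h5, h6⟩, ⟨h7, h8⟩, ⟨h9, h10⟩, ⟨h11, h12⟩, ⟨h13, h14⟩, ⟨h15, h16⟩,
    ⟨h17, h18⟩]

theorem eqN_sound {s e γ γ' : ℕ} {s0 e0 : ℂ} (hs : ER γ s0 s) (he : ER γ' e0 e) (hX : MRep β M X)
    (hY : MRep β' M' Y) (h : eqN s X e Y = true)
    (hb : 2 * (3 * γ * β + 3 * γ' * β') < 2 ^ 128) : s0 • M = e0 • M' := by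
  ext i j
  obtain ⟨h1, h2⟩ := eqN_elim h i j
  obtain ⟨p, q, e1, A, B⟩ := hX i j
  obtain ⟨r, t, e2, C, D⟩ := hY i j
  have k1 := inj (mul hs A) (mul he C) (Nat.eq_of_beq_eq_true h1) hb
  have k2 := inj (mul hs B) (mul he D) (Nat.eq_of_beq_eq_true h2) hb
  rw [Matrix.smul_apply, Matrix.smul_apply, smul_eq_mul, smul_eq_mul, e1, e2]
  linear_combination k1 + sr * k2

theorem m_mk {z00 z01 z02 z10 z11 z12 z20 z21 z22 : ℂ}
    {u00 v00 u01 v01 u02 v02 u10 v10 u11 v11 u12 v12 u20 v20 u21 v21 u22 v22 : ℕ}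
    (h00 : Rep β z00 u00 v00) (h01 : Rep β z01 u01 v01) (h02 : Rep β z02 u02 v02)
    (h10 : Rep β z10 u10 v10) (h11 : Rep β z11 u11 v11) (h12 : Rep β z12 u12 v12)
    (h20 : Rep β z20 u20 v20) (h21 : Rep β z21 u21 v21) (h22 : Rep β z22 u22 v22) :
    MRep β !![z00, z01, z02; z10, z11, z12; z20, z21, z22]
      (NM.mk u00 v00 u01 v01 u02 v02 u10 v10 u11 v11 u12 v12 u20 v20 u21 v21 u22 v22) := by
  intro i j
  fin_cases i <;> fin_cases j
  exacts [h00, h01, h02, h10, h11, h12, h20, h21, h22]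

theorem r_gz (g n k : ℕ) (h : k = n + 2) : Rep 2048 (gz g n) (gu g n) (gu g k) :=
  h ▸ ⟨_, _, rfl, e_gu g n, e_gu g (n + 2)⟩

theorem gM9 (g : ℕ) : (9 : ℂ) • gM g =
    !![gz g 0, gz g 4, gz g 8; gz g 12, gz g 16, gz g 20; gz g 24, gz g 28, gz g 32] := by
  rw [gM, smul_smul]; norm_num

theorem m_gN (g : ℕ) : MRep 2048 ((9 : ℂ) • gM g) (gN g) := by
  rw [gM9, gN]
  exact m_mk (r_gz g 0 2 rfl) (r_gz g 4 6 rfl) (r_gz g 8 10 rfl) (r_gz g 12 14 rfl)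
    (r_gz g 16 18 rfl) (r_gz g 20 22 rfl) (r_gz g 24 26 rfl) (r_gz g 28 30 rfl) (r_gz g 32 34 rfl)

theorem fl_lt (c s : ℕ) {m : ℕ} (hm : 0 < m) : fl c s m < m := Nat.mod_lt _ hm

theorem m_pN1 {v a b m : ℕ} (hv : v < 8) (ha : a < 16) (hb : b < 16) (hm : m < 128) :
    MRep (2 ^ 22) ((3 : ℂ) • pm 0 v ((a : ℤ) - 8) ((b : ℤ) - 8) ((m : ℤ) - 64)) (pN1 v a b m) := by
  have U := md (pw8 e_ze hv)
  have Z : ER 8 (eis ((a : ℤ) - 8) ((b : ℤ) - 8)) (zu a b) := e_u 8 a b ha hb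
  have Y : ER 16 (conj (eis ((a : ℤ) - 8) ((b : ℤ) - 8))) (zc a b) := e_c 8 a b ha hb
  have W := add (mono (nat m) hm.le) (mul e_m1 (nat 64))
  have n1 := eis_norm ((a : ℤ) - 8) ((b : ℤ) - 8)
  have O : Rep (2 ^ 22) 0 0 0 := r0 (β := 0) zero (Nat.zero_le _) rfl
  have T : Rep (2 ^ 22) 3 3 0 := r0 (nat 3) (by norm_num) (by simp)
  have e : (3 : ℂ) • pm 0 v ((a : ℤ) - 8) ((b : ℤ) - 8) ((m : ℤ) - 64) =
      !![3, 3 * (-conj (eis ((a : ℤ) - 8) ((b : ℤ) - 8)) * ze ^ v),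
        3 * ((nq ((a : ℤ) - 8) ((b : ℤ) - 8) : ℂ) * om +
          (1 + 2 * om) * ((((m : ℤ) - 64 : ℤ) : ℂ) / 3));
        0, 3 * ze ^ v, 3 * eis ((a : ℤ) - 8) ((b : ℤ) - 8); 0, 0, 3] := by
    ext i j
    fin_cases i <;> fin_cases j <;> simp [pm]
  have R01 : Rep (2 ^ 22) (3 * (-conj (eis ((a : ℤ) - 8) ((b : ℤ) - 8)) * ze ^ v)) _ 0 :=
    r0 (md (mul (mul (nat 3) e_m1) (mul Y U))) (by norm_num) (by push_cast; ring)
  have R02 : Rep (2 ^ 22) (3 * ((nq ((a : ℤ) - 8) ((b : ℤ) - 8) : ℂ) * om +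
      (1 + 2 * om) * ((((m : ℤ) - 64 : ℤ) : ℂ) / 3))) _ 0 :=
    r0 (md (add (mul (mul (nat 3) e_om) (mul Z Y)) (mul (add e_om e_ze) W)))
      (by norm_num) (by rw [n1, nq, ze]; push_cast; ring)
  have R11 : Rep (2 ^ 22) (3 * ze ^ v) _ 0 := r0 (mul (nat 3) U) (by norm_num) (by simp)
  have R12 : Rep (2 ^ 22) (3 * eis ((a : ℤ) - 8) ((b : ℤ) - 8)) _ 0 :=
    r0 (mul (nat 3) Z) (by norm_num) (by simp)
  rw [e, pN1, pN2]
  exact m_mk T R01 R02 O R11 R12 O O T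

theorem m_pN (c : ℕ) : MRep (2 ^ 22) ((3 : ℂ) • pc 0 c) (pN c) :=
  m_pN1 (fl_lt _ _ (by norm_num)) (fl_lt _ _ (by norm_num)) (fl_lt _ _ (by norm_num))
    (fl_lt _ _ (by norm_num))

theorem m_hN (p g : ℕ) : MRep (64 * 2 ^ 22 * 2048) ((27 : ℂ) • (pc 0 p * gM g)) (hN p g) := by
  have h := mmul (m_pN p) (m_gN g)
  rw [Matrix.smul_mul, Matrix.mul_smul, smul_smul, show (3 : ℂ) * 9 = 27 by norm_num] at h
  exact h

theorem pc_eq (k c : ℕ) : pc k c = ze ^ k • pc 0 c := by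
  simp only [pc, pm, pow_zero, one_smul]

theorem fin {A B C D : M3} {e : ℂ}
    (h : ((81 : ℕ) : ℂ) • (27 : ℂ) • A = e • ((27 : ℂ) • B * (27 : ℂ) • C * (3 : ℂ) • D)) :
    A = B * C * e • D := by
  refine smul_right_injective M3 (by norm_num : (2187 : ℂ) ≠ 0) ?_
  simp only [Matrix.smul_mul, Matrix.mul_smul, smul_smul] at h ⊢
  rw [show (2187 : ℂ) = ((81 : ℕ) : ℂ) * 27 by norm_num, h]
  congr 1
  push_cast; ring

end Rep

theorem U5_ok {pb gb pa ga p1 gc p2 : ℕ} (h : U5 pb gb pa ga p1 gc p2 = true) :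
    pc 0 pb * gM gb = pc 0 pa * gM ga * (pc 0 p1 * gM gc) * pc (Nat.mod p2 8) p2 := by
  have h1 := Rep.eqN_sound (Rep.nat 81)
    (Rep.pw8 Rep.e_ze (Nat.mod_lt p2 (by norm_num) : Nat.mod p2 8 < 8)) (Rep.m_hN pb gb)
    (Rep.mmul (Rep.mmul (Rep.m_hN pa ga) (Rep.m_hN p1 gc)) (Rep.m_pN p2)) h (by norm_num)
  rw [Rep.pc_eq (Nat.mod p2 8)]
  exact Rep.fin h1

end Pool.Agent.MP_d97ab6_al.H19
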