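import Pool.Agent.MP_d97ab6_al.H19.Cls
import Pool.Agent.MP_d97ab6_al.H19.RelP

/-! Meaning of the table checks. -/

namespace Pool.Agent.MP_d97ab6_al.H19

open Matrix Complex Pgrp

open Classical in
noncomputable def gU (g : ℕ) : U21 := if h : IsU (gM g) then ⟨gM g, h⟩ else 1

noncomputable def pU (k c : ℕ) : U21 :=
  el k (fl c 8 8) ((fl c 64 16 : ℤ) - 8) ((fl c 1024 16 : ℤ) - 8) ((fl c 16384 128 : ℤ) - 64)

theorem el_mem (k v : ℕ) (a b m : ℤ) : el k v a b m ∈ Pset := ⟨k, v, a, b, m, rfl⟩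

theorem pU_mem (k c : ℕ) : pU k c ∈ Pset := el_mem ..

theorem gU_val {g : ℕ} (h : IsU (gM g)) : (gU g).1 = gM g := by rw [gU, dif_pos h]

theorem el_one : el 0 0 0 0 0 = 1 := Subtype.ext ((pm_sc 0).trans (by simp))

theorem one_P : (1 : U21) ∈ Pset := el_one ▸ el_mem ..

theorem frc_e (n : ℕ) (k : ℕ → Bool) : frc n k = k n := by rw [frc_eq]

theorem fl_eq (x s n : ℕ) : fl x s n = x / s % n := rfl

theorem pU_id : pU 0 1057280 = 1 := by
  rw [← el_one, pU]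
  norm_num [fl_eq]

theorem pU_rot : pU 0 1057288 = el 0 1 0 0 0 := by
  rw [pU]
  norm_num [fl_eq]

theorem pU_pj (j : ℕ) : pU 0 (pj j) =
    el 0 0 ((fl j 54 4 : ℤ) - 1) ((fl j 18 3 : ℤ) - 1) ((Nat.mod j 18 : ℤ) - 12) := by
  have a := Rep.fl_lt j 54 (m := 4) (by norm_num)
  have b := Rep.fl_lt j 18 (m := 3) (by norm_num)
  have c : Nat.mod j 18 < 18 := Nat.mod_lt _ (by norm_num)
  rw [pU, pj]
  generalize fl j 54 4 = A at *
  generalize fl j 18 3 = B at *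
  generalize Nat.mod j 18 = M at *
  simp only [fl_eq, Nat.add_eq, Nat.mul_eq]
  congr 1 <;> omega

def cF (x : ℕ) : Fin 3 := ⟨xc x, Nat.mod_lt _ (by norm_num)⟩
def tF (x : ℕ) : Fin 3 := ⟨xt x, Nat.mod_lt _ (by norm_num)⟩

theorem allN_true {p : ℕ → Bool} : ∀ {n : ℕ}, allN n p = true → ∀ i < n, p i = true
  | 0, _, _, h => absurd h (Nat.not_lt_zero _)
  | n + 1, h, i, hi => by
    obtain ⟨h1, h2⟩ := band_iff.1 (show band (p n) (allN n p) = true from h)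
    rcases (Nat.lt_succ_iff.1 hi).eq_or_lt with rfl | hi
    · exact h1
    · exact allN_true h2 i hi

theorem allR_true {p : ℕ → Bool} {lo n : ℕ} (h : allR lo n p = true) (i : ℕ) (h1 : lo ≤ i)
    (h2 : i < lo + n) : p i = true := by
  obtain ⟨k, rfl⟩ := Nat.exists_eq_add_of_le h1
  exact (frc_e _ p).symm.trans (allN_true h k (by omega))

theorem msk_ok {T w off l : ℕ} : ∀ {n : ℕ}, (msk T w off n).testBit l = true →
    ∃ i < n, Nat.mod (sl T w (Nat.add off i)) 131072 = l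
  | 0, h => absurd h (by simp [msk])
  | n + 1, h => by
    change (msk T w off n ||| 2 ^ (Nat.mod (sl T w (Nat.add off n)) 131072)).testBit l = true at h
    rw [Nat.testBit_or, Bool.or_eq_true, Nat.testBit_two_pow, decide_eq_true_eq] at h
    rcases h with h | h
    · obtain ⟨i, h1, h2⟩ := msk_ok h
      exact ⟨i, by omega, h2⟩
    · exact ⟨n, by omega, h⟩

theorem bld_succ (CX EU NE : ℕ) (k : RL → Bool) (n : ℕ) (acc : RL) : bld CX EU NE k (n + 1) acc =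
    frc (Nat.mod (sl EU 17 (Nat.add 0 n)) 131072) fun j => frc (cx CX (Nat.div j 216)) fun x =>
      band (inR NE (Nat.div j 216)) (mkJ x j fun a0 a1 ap an => frc (xF x) fun th =>
        bld CX EU NE k n (RL.cons a0 a1 ap an th j acc)) := rfl

theorem inR_iff {NE n : ℕ} : inR NE n = true ↔ 8 ≤ n ∧ n < NE := by
  simp only [inR, band_iff, Nat.ble_eq, Nat.succ_eq_add_one, Nat.add_one_le_iff]

section
variable (CG CX NE : ℕ)

noncomputable def eU (n : ℕ) : U21 := gU (cg CG n)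

def IsT (n : ℕ) : Prop := (8 ≤ n ∧ n < NE) ∧ xT (cx CX n) = 1

/-- The steps from the chart `k` to the chart `i`. -/
def TT (i k : Fin 3) : Set U21 :=
  {t | (i = k ∧ t ∈ Pset) ∨ ∃ n, IsT CX NE n ∧ cF (cx CX n) = i ∧ tF (cx CX n) = k ∧
    ∃ p ∈ Pset, ∃ p' ∈ Pset, t = p * eU CG n * p'}

def Mem (n : ℕ) : Prop := IsU (gM (cg CG n)) ∧ Rel (cF (cx CX n)) (tF (cx CX n)) (eU CG n)

noncomputable def hU (j : ℕ) : U21 := pU 0 (pj j) * eU CG (Nat.div j 216)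

def tJ (j : ℕ) : Fin 3 := tF (cx CX (Nat.div j 216))

/-- The first eight entries are correct. -/
def Seed : Prop :=
  (∀ n < 8, Mem CG CX n) ∧ ∀ q ≤ 2, eU CG q = 1 ∧ xc (cx CX q) = xt (cx CX q)

variable {CG CX NE}

theorem isT_iff {n : ℕ} : isT NE n (cx CX n) = true ↔ IsT CX NE n := by
  rw [isT, band_iff, inR_iff, Nat.beq_eq, IsT]

theorem U6_val {pb nb pa na p1 nc p2 : ℕ} (h : U6 CG pb nb pa na p1 nc p2 = true) :
    pc 0 pb * gM (cg CG nb) =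
      pc 0 pa * gM (cg CG na) * (pc 0 p1 * gM (cg CG nc)) * pc (Nat.mod p2 8) p2 := by
  simp only [U6, frc_e] at h
  exact U5_ok h

theorem U6_ok {pb nb pa na p1 nc p2 : ℕ} (h : U6 CG pb nb pa na p1 nc p2 = true)
    (hb : IsU (gM (cg CG nb))) (ha : IsU (gM (cg CG na))) (hc : IsU (gM (cg CG nc))) :
    pU 0 pb * eU CG nb = pU 0 pa * eU CG na * (pU 0 p1 * eU CG nc) * pU (Nat.mod p2 8) p2 := by
  apply Subtype.ext
  simp only [U21.val_mul, eU, gU_val hb, gU_val ha, gU_val hc]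
  exact U6_val h

theorem memb_ok {n w : ℕ} (H : ∀ a < n, Mem CG CX a) (h : memb CG CX n (cx CX n) w = true) :
    Mem CG CX n := by
  simp only [memb, frc_e, band_iff, Nat.ble_eq, Nat.beq_eq] at h
  obtain ⟨⟨h1, h2⟩, ⟨h3, h4, h5⟩, h6⟩ := h
  obtain ⟨a1, a2⟩ := H _ h1
  obtain ⟨c1, c2⟩ := H _ h2
  have u : IsU (gM (cg CG n)) := by
    have e := U6_val h6
    rw [show pc 0 1057280 = 1 from congrArg Subtype.val pU_id, Matrix.one_mul] at e
    rw [e]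
    exact (((pU 0 _).2.mul a1).mul ((pU 0 _).2.mul c1)).mul (pU _ _).2
  refine ⟨u, ?_⟩
  have e := U6_ok h6 u a1 c1
  rw [pU_id, one_mul] at e
  rw [e, ← show cF _ = cF (cx CX n) from Fin.ext h3, ← show tF _ = tF (cx CX n) from Fin.ext h5]
  rw [show tF _ = cF _ from Fin.ext h4] at a2
  exact (((relP _ _ (pU_mem _ _)).mul a2).mul ((relP _ _ (pU_mem _ _)).mul c2)).mul
    (relP _ _ (pU_mem _ _))

theorem adj_ok (S : Seed CG CX) (M : ∀ n < NE, Mem CG CX n) {pa na pb nb w : ℕ} {i k : Fin 3}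
    (ha : na < NE) (hb : nb < NE) (h : adj CG CX NE pa na pb nb i.1 k.1 w = true) :
    (pU 0 pa * eU CG na)⁻¹ * (pU 0 pb * eU CG nb) ∈ TT CG CX NE i k := by
  simp only [adj, frc_e, band_iff, bor_iff, Nat.ble_eq, Nat.beq_eq, isT_iff] at h
  obtain ⟨h1, ⟨h2, h3⟩, h4⟩ := h
  rcases h1 with h1 | h1
  · rw [U6_ok h4 (M _ hb).1 (M _ ha).1 (S.1 _ (by omega)).1, mul_assoc, inv_mul_cancel_left,
      (S.2 _ h1).1, mul_one]
    exact Or.inl ⟨Fin.ext (h2.symm.trans ((S.2 _ h1).2.trans h3)),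
      mul_mem (pU_mem _ _) (pU_mem _ _)⟩
  · rw [U6_ok h4 (M _ hb).1 (M _ ha).1 (M _ h1.1.2).1, mul_assoc, inv_mul_cancel_left]
    exact Or.inr ⟨_, h1, Fin.ext h2, Fin.ext h3, _, pU_mem _ _, _, pU_mem _ _, rfl⟩

variable (CG CX NE) in
/-- What the checks of the entries give. -/
structure TabOK : Prop where
  seed : Seed CG CX
  mem : ∀ n < NE, Mem CG CX n
  rc : ∀ n, 8 ≤ n ∧ n < NE → Rc 4 (eU CG n) (x0 (cx CX n)) (x1 (cx CX n)) (x4 (cx CX n)) 0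
    (xF (cx CX n)) (xV (cx CX n))
  sm : ∀ n, IsT CX NE n → Sm (eU CG n)
  rot : ∀ n, IsT CX NE n → ∃ q, IsT CX NE q ∧ cF (cx CX q) = cF (cx CX n) ∧
    tF (cx CX q) = tF (cx CX n) ∧ ∃ p ∈ Pset, el 0 1 0 0 0 * eU CG n = eU CG q * p
  inv : ∀ n, IsT CX NE n → (eU CG n)⁻¹ ∈ TT CG CX NE (tF (cx CX n)) (cF (cx CX n))

theorem tab_ok {CR : ℕ} (S : Seed CG CX) (h : ∀ n, 8 ≤ n → n < NE → ent CG CX CR NE n = true) :
    TabOK CG CX NE := by
  simp only [ent, frc_e, band_iff, bor_iff, Nat.beq_eq] at h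
  have M : ∀ n < NE, Mem CG CX n := by
    intro n
    induction n using Nat.strong_induction_on with
    | _ n ih =>
      intro hn
      rcases lt_or_ge n 8 with c | c
      · exact S.1 n c
      · exact memb_ok (fun a ha => ih a ha (ha.trans hn)) (h n c hn).1.1
  have k := fun n (hn : IsT CX NE n) =>
    (h n hn.1.1 hn.1.2).2.resolve_left (by rw [hn.2]; exact one_ne_zero)
  refine ⟨S, M, fun n hn => cls_ok (gU_val (M n hn.2).1) (h n hn.1 hn.2).1.2,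
    fun n hn => clt_ok (gU_val (M n hn.1.2).1) (k n hn).1, fun n hn => ?_, fun n hn => ?_⟩
  · have e := (k n hn).2.1
    simp only [rotc, frc_e, band_iff, Nat.beq_eq, isT_iff] at e
    obtain ⟨e1, ⟨e2, e3⟩, e4⟩ := e
    have e5 := U6_ok e4 (M n hn.1.2).1 (M _ e1.1.2).1 (S.1 0 (by norm_num)).1
    rw [pU_id, pU_rot, (S.2 0 (by norm_num)).1, one_mul, one_mul, mul_one] at e5
    exact ⟨_, e1, Fin.ext e2, Fin.ext e3, _, pU_mem _ _, e5⟩
  · have e := adj_ok S M (i := tF (cx CX n)) (k := cF (cx CX n)) hn.1.2 (by linarith [hn.1.2])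
      (k n hn).2.2
    rwa [pU_id, (S.2 0 (by norm_num)).1, one_mul, one_mul, mul_one] at e

theorem T_left {i k : Fin 3} {p t : U21} (hp : p ∈ Pset) (ht : t ∈ TT CG CX NE i k) :
    p * t ∈ TT CG CX NE i k := by
  rcases ht with ht | ⟨n, h1, h2, h3, q, hq, q', hq', rfl⟩
  · exact Or.inl ⟨ht.1, mul_mem hp ht.2⟩
  · exact Or.inr ⟨n, h1, h2, h3, _, mul_mem hp hq, _, hq', by simp only [mul_assoc]⟩

theorem T_right {i k : Fin 3} {p t : U21} (hp : p ∈ Pset) (ht : t ∈ TT CG CX NE i k) :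
    t * p ∈ TT CG CX NE i k := by
  rcases ht with ht | ⟨n, h1, h2, h3, q, hq, q', hq', rfl⟩
  · exact Or.inl ⟨ht.1, mul_mem ht.2 hp⟩
  · exact Or.inr ⟨n, h1, h2, h3, _, hq, _, mul_mem hq' hp, by simp only [mul_assoc]⟩

variable (H : TabOK CG CX NE)
include H

theorem T_inv {i k : Fin 3} {t : U21} (ht : t ∈ TT CG CX NE i k) : t⁻¹ ∈ TT CG CX NE k i := by
  rcases ht with ht | ⟨n, h1, rfl, rfl, q, hq, q', hq', rfl⟩
  · exact Or.inl ⟨ht.1.symm, inv_mem ht.2⟩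
  · rw [_root_.mul_inv_rev, _root_.mul_inv_rev]
    exact T_left (inv_mem hq') (T_right (inv_mem hq) (H.inv n h1))

theorem T_dep {i k : Fin 3} {t : U21} (ht : t ∈ TT CG CX NE i k) :
    (i = k ∧ t ∈ Pset) ∨ 16 ≤ normSq (t.1 2 0) := by
  rcases ht with ht | ⟨n, h1, -, -, q, hq, q', hq', rfl⟩
  · exact Or.inl ht
  · obtain ⟨y0, y1, t, D, e1, e2, -⟩ := H.sm n h1
    rw [Pos.dep_P hq hq', Pos.dep_eq e1]
    exact Or.inr e2

theorem rot_all (v : ℕ) : ∀ n, IsT CX NE n → ∃ q, IsT CX NE q ∧ cF (cx CX q) = cF (cx CX n) ∧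
    tF (cx CX q) = tF (cx CX n) ∧ ∃ p ∈ Pset, el 0 v 0 0 0 * eU CG n = eU CG q * p := by
  intro n hn
  induction v with
  | zero => exact ⟨n, hn, rfl, rfl, 1, one_P, by rw [el_one, one_mul, mul_one]⟩
  | succ v ih =>
    obtain ⟨q, h1, h2, h3, p, hp, e⟩ := ih
    obtain ⟨r, k1, k2, k3, p', hp', e'⟩ := H.rot q h1
    refine ⟨r, k1, k2.trans h2, k3.trans h3, _, mul_mem hp' hp, ?_⟩
    have : el 0 (v + 1) 0 0 0 = el 0 1 0 0 0 * el 0 v 0 0 0 := by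
      rw [el_mul (Ro.zero _), add_comm 1 v]
      simp
    rw [this, mul_assoc, e, ← mul_assoc, e', mul_assoc]

theorem T_nf {i k : Fin 3} {t : U21} (ht : t ∈ TT CG CX NE i k) (hn : t ∉ Pset) :
    ∃ n, IsT CX NE n ∧ cF (cx CX n) = i ∧ tF (cx CX n) = k ∧ ∃ a b m, ∃ p ∈ Pset,
      t = el 0 0 a b m * eU CG n * p := by
  rcases ht with ht | ⟨n, h1, rfl, rfl, q, ⟨c, v, a, b, m, hq⟩, q', hq', rfl⟩
  · exact absurd ht.2 hn
  obtain ⟨r, k1, k2, k3, p, hp, e⟩ := rot_all H (v % 6) n h1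
  have e1 : q = el 0 0 a b m * el 0 (v % 6) 0 0 0 * el c 0 0 0 0 :=
    Subtype.ext (hq.trans (pm_fac ..))
  refine ⟨r, k1, k2, k3, a, b, m, _, mul_mem hp (mul_mem (el_mem c 0 0 0 0) hq'), ?_⟩
  rw [e1, mul_assoc _ (el c 0 0 0 0), RelP.sc_comm, ← mul_assoc, mul_assoc (el 0 0 a b m), e]
  simp only [mul_assoc]

theorem mkJ_ok {j : ℕ} {k : K4} (hj : 8 ≤ Nat.div j 216 ∧ Nat.div j 216 < NE)
    (h : mkJ (cx CX (Nat.div j 216)) j k = true) : ∃ b0 b1 p q, k b0 b1 p q = true ∧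
      Rc 8 (hU CG j) b0 b1 p q (xF (cx CX (Nat.div j 216))) (xV (cx CX (Nat.div j 216))) := by
  rw [hU, pU_pj]
  simp only [mkJ, frc_e] at h
  exact mkR_ok (H.rc _ hj) h

variable {y0 y1 s : ℝ}

theorem bld_ok {EU : ℕ} {k : RL → Bool} {close : ℕ → Prop}
    (hc : close = fun j => 98 / 100 * rr (hU CG j) (bp y0 y1 s 0) < 1) : ∀ (n : ℕ) (acc : RL),
    bld CX EU NE k n acc = true → UOK close (tX y0) (tX y1) (tT y0 y1 s) acc →
    ∃ U, k U = true ∧ UOK close (tX y0) (tX y1) (tT y0 y1 s) U ∧ ∀ R, UG close R U →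
      UG close R acc ∧ ∀ i < n, ∀ j, Nat.mod (sl EU 17 (Nat.add 0 i)) 131072 = j → close j → R j
  | 0, acc, h, ha => ⟨acc, h, ha, fun _ hg => ⟨hg, fun _ hi => absurd hi (Nat.not_lt_zero _)⟩⟩
  | n + 1, acc, h, ha => by
    obtain ⟨j, hj⟩ : ∃ j, Nat.mod (sl EU 17 (Nat.add 0 n)) 131072 = j := ⟨_, rfl⟩
    rw [bld_succ, hj] at h
    simp only [frc_e, band_iff] at h
    obtain ⟨h1, h2⟩ := h
    obtain ⟨b0, b1, p, q, h3, h4⟩ := mkJ_ok H (inR_iff.1 h1) h2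
    obtain ⟨U, e1, e2, e3⟩ := bld_ok hc n _ h3 ⟨hc ▸ h4.far y0 y1 s, ha⟩
    refine ⟨U, e1, e2, fun R hg => ⟨(e3 R hg).1.2, fun i hi l hl => ?_⟩⟩
    rcases (Nat.lt_succ_iff.1 hi).eq_or_lt with rfl | hi
    · exact (hj.symm.trans hl) ▸ (e3 R hg).1.1
    · exact (e3 R hg).2 i hi l hl

theorem hb_ok {HX AD NH : ℕ} (i : Fin 3) (hh : allN NH (hok CG CX HX AD NE) = true) :
    HOK (fun j => rr (hU CG j) (bp y0 y1 s 0) ≤ 98 / 100)
      (fun j => IsT CX NE (Nat.div j 216) ∧ cF (cx CX (Nat.div j 216)) = i)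
      (fun a b => (hU CG a)⁻¹ * hU CG b ∈ TT CG CX NE (tJ CX a) (tJ CX b))
      (tX y0) (tX y1) (tT y0 y1 s) (hbT CX HX AD NE NH i.1) := by
  intro u k h
  simp only [hbT, frc_e, band_iff, Nat.ble_eq] at h
  have e := allN_true hh u h.1
  simp only [hok, frc_e, band_iff, inR_iff] at e
  generalize Nat.mod (sl HX 40 u) 131072 = j at h e
  obtain ⟨b0, b1, p, q, h3, h4⟩ := mkJ_ok H e.1 h.2
  refine ⟨_, _, _, _, _, _, _, _, h3, h4.val y0 y1 s, fun l hl => ?_, fun hf => ?_⟩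
  · change (2 ^ j ||| msk _ _ _ _).testBit l = true at hl
    rw [Nat.testBit_or, Bool.or_eq_true, Nat.testBit_two_pow, decide_eq_true_eq] at hl
    rcases hl with rfl | hl
    · rw [inv_mul_cancel]
      exact Or.inl ⟨rfl, one_P⟩
    · obtain ⟨x, h1, rfl⟩ := msk_ok hl
      obtain ⟨f1, f2⟩ := band_iff.1 (allN_true e.2 x h1)
      exact adj_ok H.seed H.mem e.1.2 (inR_iff.1 f1).2 f2
  · rw [band_iff, isT_iff, Nat.beq_eq] at hf
    exact ⟨hf.1, Fin.ext hf.2⟩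

theorem cmp_ok {MS n A B M : ℕ} {i : Fin 3} (hD : Dom y0 y1 s) (h : cmp CX i.1 MS n = true)
    (hn : IsT CX NE n) (hi : cF (cx CX n) = i) (hA : A < 4) (hB : B < 3) (hM : M < 18)
    (hc : 98 / 100 * rr (el 0 0 ((A : ℤ) - 1) ((B : ℤ) - 1) ((M : ℤ) - 12) * eU CG n)
      (bp y0 y1 s 0) < 1) : MS.testBit (216 * n + (54 * A + 18 * B) + M) = true := by
  have e : xc (cx CX n) = i.1 := congrArg Fin.val hi
  simp only [cmp, frc_e, bor_iff, Nat.beq_eq, Nat.ble_eq, e, hn.2] at h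
  have h1 := h.resolve_left (by omega)
  rcases bor_iff.1 (allN_true (allN_true (allN_true h1 A hA) B hB) M hM) with h2 | h2
  · exact tb_iff.1 h2
  · obtain ⟨b0, b1, p, q, h3, h4⟩ := mkR_ok (H.rc n hn.1) h2
    obtain ⟨A0, A1, A4, e1, e2⟩ := h4.far y0 y1 s
    exact absurd hc (e2 (Box.far_ok (Pos.root hD).2 e1 h3))

omit H in
theorem hU_eq {n A B M : ℕ} (hA : A < 4) (hB : B < 3) (hM : M < 18) :
    Nat.div (216 * n + (54 * A + 18 * B) + M) 216 = n ∧ hU CG (216 * n + (54 * A + 18 * B) + M) =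
      el 0 0 ((A : ℤ) - 1) ((B : ℤ) - 1) ((M : ℤ) - 12) * eU CG n := by
  have e : Nat.div (216 * n + (54 * A + 18 * B) + M) 216 = n := by
    change (216 * n + (54 * A + 18 * B) + M) / 216 = n
    omega
  have e2 : Nat.mod (216 * n + (54 * A + 18 * B) + M) 18 = M := by
    change (216 * n + (54 * A + 18 * B) + M) % 18 = M
    omega
  refine ⟨e, ?_⟩
  rw [hU, pU_pj, e, e2, fl_eq, fl_eq]
  congr 2 <;> omega

/-- The conclusion of the three checks of a chart at a point of the fundamental domain. -/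
theorem chart_ok {HX AD EU NH NU : ℕ} {t : Tr} (i : Fin 3)
    (hh : allN NH (hok CG CX HX AD NE) = true) (hr : run CX HX AD EU NE NH NU i.1 t = true)
    (hc : cmpAll CX EU NE NU i.1 = true) (hD : Dom y0 y1 s) :
    (∃ k h, Rel i k h ∧ rr h (bp y0 y1 s 0) ≤ 98 / 100 ∧ normSq (h.1 2 0) ≤ 200) ∧
      ∀ P : Subgroup U21, (P : Set U21) = Pset →
        LC P (TT CG CX NE) (98 / 100) i (bp y0 y1 s 0) := by
  obtain ⟨U, e1, e2, e3⟩ := bld_ok H (y0 := y0) (y1 := y1) (s := s) rfl NU RL.nil hr trivial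
  have key := fun G h1 => chk_ok (G := G) h1 (fun _ _ h => by
    simpa only [_root_.mul_inv_rev, inv_inv] using T_inv H h) (Pos.root hD).1 (hb_ok H i hh)
    (Pos.root hD).2 e2 e1
  constructor
  · obtain ⟨⟨j, ⟨f1, rfl⟩, f2⟩, -⟩ := key (fun _ => True) fun _ _ _ _ _ => trivial
    obtain ⟨_, _, _, D, g1, -, g2, -⟩ := H.sm _ f1
    refine ⟨_, hU CG j, (relP _ _ (pU_mem _ _)).mul (H.mem _ f1.1.2).2, f2, ?_⟩
    rw [hU, ← mul_one (pU 0 _ * _), Pos.dep_P (pU_mem _ _) one_P, Pos.dep_eq g1]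
    exact g2
  intro P hP Gd g1 g2
  have hc' := (frc_e _ _).symm.trans hc
  have mP : ∀ {p}, p ∈ P ↔ p ∈ Pset := fun {p} => by rw [← hP]; rfl
  obtain ⟨-, Q, hQ⟩ := key (fun j => Gd (tJ CX j) (hU CG j)) fun a b v h => g2 _ _ _ _ v h
  have nf : ∀ k, ∀ t ∈ TT CG CX NE i k, t ∉ P → 98 / 100 * rr t (bp y0 y1 s 0) < 1 →
      (Q → Gd k t) ∧ (rr t (bp y0 y1 s 0) ≤ 98 / 100 → Gd k t → Q) := by
    intro k t ht hn hcl
    obtain ⟨n, h1, h2, rfl, a, b, m, p, hp, rfl⟩ := T_nf H ht (mt mP.2 hn)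
    rw [Pos.rr_P hp] at hcl ⊢
    obtain ⟨z0, z1, z2, D, k1, k2, -, k3, k4, k5⟩ := H.sm n h1
    have r := hcl
    rw [Pos.rr_eq (Pos.pos_tr k1 a b m)] at r
    obtain ⟨r1, r2, r3, r4, r5, r6⟩ := Pos.range hD k3 k4 k5 k2 r
    obtain ⟨A, rfl⟩ : ∃ A : ℕ, a = A - 1 := ⟨(a + 1).toNat, by omega⟩
    obtain ⟨B, rfl⟩ : ∃ A : ℕ, b = A - 1 := ⟨(b + 1).toNat, by omega⟩
    obtain ⟨M, rfl⟩ : ∃ A : ℕ, m = A - 12 := ⟨(m + 12).toNat, by omega⟩
    obtain ⟨x, x1, x2⟩ := msk_ok (cmp_ok H hD (allN_true hc' n h1.1.2) h1 h2 (by omega) (by omega)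
      (by omega) hcl)
    obtain ⟨u1, u2⟩ := hU_eq (CG := CG) (n := n) (A := A) (B := B) (M := M) (by omega) (by omega)
      (by omega)
    have w := (e3 _ hQ).2 x x1 _ x2 (by rw [u2]; exact hcl)
    simp only [RQ, tJ, u1, u2] at w
    refine ⟨fun q => g1 _ _ p (mP.2 hp) (w.1 q), fun v g => w.2 v ?_⟩
    simpa only [mul_inv_cancel_right] using g1 _ _ p⁻¹ (mP.2 (inv_mem hp)) g
  intro k l a ha b hb na nb va cb ga
  exact (nf l b hb nb cb).1 ((nf k a ha na (by linarith)).2 va ga)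

end

end Pool.Agent.MP_d97ab6_al.H19
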