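import Pool.Agent.MP_d97ab6_al.H19.Base

/-! Statements of the independent parts. -/

namespace Pool.Agent.MP_d97ab6_al.H19

open Matrix Complex MeasureTheory Topology
open scoped ComplexConjugate

/-- The cusp group is a group, fixes the cusp, and is generated by two reflections and scalars. -/
def SPgrp : Prop :=
  (∀ k v a b m, IsU (pm k v a b m)) ∧ (∃ P : Subgroup U21, (P : Set U21) = Pset) ∧
    (∀ p ∈ Pset, ∃ e : ℂ, normSq e = 1 ∧ ap p e0 = e • e0) ∧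
    (∀ k v a b m, pm k v a b m = pm 0 0 a b m * pm 0 (v % 6) 0 0 0 * pm k 0 0 0 0) ∧
    ∀ Q : Subgroup U21, (∀ g : U21, g.1 = R2 ∨ g.1 = R3 ∨ g.1 = ze • (1 : M3) → g ∈ Q) →
      Pset ⊆ Q

/-- Reduction into the fundamental domain of the cusp group. -/
def SPred : Prop :=
  ∀ x y t : ℝ, ∃ p ∈ Pset, ∃ x' y' t' : ℝ, Dom x' y' t' ∧ ∀ u, ap p (bp x y t u) = bp x' y' t' u

/-- The local condition at a boundary point of the chart `i`. -/
def LC (P : Subgroup U21) (T : Fin 3 → Fin 3 → Set U21) (lam : ℝ) (i : Fin 3) (y : V3) : Prop :=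
  ∀ Gd : Fin 3 → U21 → Prop, (∀ k h, ∀ p ∈ P, Gd k h → Gd k (h * p)) →
    (∀ k l h h', rr h y ≤ lam → h⁻¹ * h' ∈ T k l → Gd k h → Gd l h') →
    ∀ k l, ∀ s ∈ T i k, ∀ t ∈ T i l, s ∉ P → t ∉ P → rr s y ≤ lam → lam * rr t y < 1 →
      Gd k s → Gd l t

structure TOK (P : Subgroup U21) (T : Fin 3 → Fin 3 → Set U21) (δ : ℝ) : Prop where
  fix : ∀ p ∈ P, ∃ e : ℂ, normSq e = 1 ∧ ap p e0 = e • e0
  sub : ∀ i, ∀ p ∈ P, p ∈ T i i
  left : ∀ i k, ∀ p ∈ P, ∀ t ∈ T i k, p * t ∈ T i k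
  right : ∀ i k, ∀ p ∈ P, ∀ t ∈ T i k, t * p ∈ T i k
  inv : ∀ i k, ∀ t ∈ T i k, t⁻¹ ∈ T k i
  dep : ∀ i k, ∀ t ∈ T i k, (i = k ∧ t ∈ P) ∨ δ ≤ normSq (t.1 2 0)

/-- Products of composable elements of `T`. -/
inductive Gen (T : Fin 3 → Fin 3 → Set U21) (j : Fin 3) : Fin 3 → U21 → Prop
  | one : Gen T j j 1
  | mul (i k : Fin 3) (t g : U21) : t ∈ T i k → Gen T j k g → Gen T j i (t * g)

/-- The descent theorem. -/
def SDesc : Prop :=
  ∀ (P : Subgroup U21) (T : Fin 3 → Fin 3 → Set U21) (lam δ : ℝ), 0 < lam → lam < 1 → 0 < δ →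
    TOK P T δ → (∀ i (x y t : ℝ), ∃ p ∈ P, LC P T lam i (ap p (bp x y t 0))) →
    ∀ j i g, Gen T j i g → (i = j ∧ g ∈ P) ∨ δ ≤ normSq (g.1 2 0)

/-- First output of the certificate: distinct cusps are far apart. -/
def Core1 : Prop := ∀ i j g, Rel i j g → (i = j ∧ g ∈ Pset) ∨ 16 ≤ normSq (g.1 2 0)

/-- Second output of the certificate: the isometric spheres cover the boundary. -/
def Core2 : Prop :=
  (∀ i, ∀ p ∈ Pset, Rel i i p) ∧ ∀ i (x y t : ℝ), Dom x y t → ∃ k h, Rel i k h ∧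
    rr h (bp x y t 0) ≤ 98 / 100 ∧ normSq (h.1 2 0) ≤ 200

/-- The three Siegel sets cover. -/
def Cover : Prop := ∀ y : V3, 0 < nrm y → ∃ i k, Rel i 0 k ∧ Sieg (ap k y)

def SCov : Prop := SPred → Core2 → Cover

def SDisc : Prop :=
  ∀ G : Subgroup U21, (∀ g ∈ G, g ∈ Pset ∨ 16 ≤ normSq (g.1 2 0)) → DiscreteTopology (lift G)

/-- The preimage of the Siegel set has finite Haar measure. -/
def SVol : Prop :=
  ∀ [MeasurableSpace SU21] [BorelSpace SU21] (μ : Measure SU21) [μ.IsHaarMeasure],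
    μ {g | Sieg (g.1.1 *ᵥ pt 0 0 0 2)} < ⊤

def SLat : Prop := SVol → Cover → DiscreteTopology (lift L0) → IsLattice (lift L0)

/-- The group of the statement is the lift of `L0`. -/
def SLam : Prop := Lam = lift L0

/-- A group containing two opposite unipotent elements is not arithmetic. -/
def SNA : Prop :=
  ∀ (τ ρ : ℝ) (Γ : Subgroup SU21), τ * ρ = 3 + √6 →
    (∃ γ ∈ Γ, γ.1.1 = !![1, 0, (τ : ℂ) * I; 0, 1, 0; 0, 0, 1]) →
    (∃ γ ∈ Γ, γ.1.1 = !![1, 0, 0; 0, 1, 0; (ρ : ℂ) * I, 0, 1]) → ¬ IsArith Γ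

/-- The trace field contains the square root of six, in the whole commensurability class. -/
def STr : Prop :=
  ∀ (τ ρ : ℝ) (Γ : Subgroup SU21), τ * ρ = 3 + √6 →
    (∃ γ ∈ Γ, γ.1.1 = !![1, 0, (τ : ℂ) * I; 0, 1, 0; 0, 0, 1]) →
    (∃ γ ∈ Γ, γ.1.1 = !![1, 0, 0; 0, 1, 0; (ρ : ℂ) * I, 0, 1]) →
    ∀ (g : SU21) (Δ : Subgroup SU21),
      Subgroup.Commensurable (Γ.map (MulAut.conj g).toMonoidHom) Δ → √6 ∈ adField Δ

def STrUp : Prop := adField (lift L0) ≤ Subfield.closure {√6}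

/-- The two unipotent elements. -/
def SUni : Prop :=
  (∀ i, ∀ p ∈ Pset, Rel i i p) → ∃ τ ρ : ℝ, τ * ρ = 3 + √6 ∧
    (∃ γ ∈ lift L0, γ.1.1 = !![1, 0, (τ : ℂ) * I; 0, 1, 0; 0, 0, 1]) ∧
    (∃ γ ∈ lift L0, γ.1.1 = !![1, 0, 0; 0, 1, 0; (ρ : ℂ) * I, 0, 1])

/-- The nilpotent matrices of the three cusps. -/
noncomputable def Nc (i : Fin 3) : M3 :=
  (A i).1 * !![0, 0, 1 + 2 * om; 0, 0, 0; 0, 0, 0] * ((A i)⁻¹).1

/-- Classification of the rank one unipotent elements. -/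
def CuspClass : Prop :=
  ∀ γ ∈ lift L0, ∀ (c : ℂ) (N : M3), γ.1.1 = c • (1 + N) → N * N = 0 →
    ∃ g ∈ L0, ∃ (i : Fin 3) (m : ℤ), N = ((m : ℂ) / 3) • (g.1 * Nc i * (g⁻¹).1)

def SCusp : Prop := Core1 → Cover → CuspClass

/-- No conjugate is commensurable with one of the two sporadic groups. -/
def SSep : Prop :=
  CuspClass → ∀ p : ℕ, p = 3 ∨ p = 6 → ∀ g : Matrix.SpecialLinearGroup (Fin 3) ℂ,
    ¬ Subgroup.Commensurable (((lift L0).map SU21.subtype).map (MulAut.conj g).toMonoidHom) (Spor p)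

end Pool.Agent.MP_d97ab6_al.H19
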