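import Pool.Agent.MP_d97ab6_al.H19.Rep

/-! Checking functions for the tables. -/

namespace Pool.Agent.MP_d97ab6_al.H19

def sl (T w i : Nat) : Nat := Nat.mod (Nat.shiftRight T (Nat.mul w i)) (Nat.pow 2 w)

def xf (x s w : Nat) : Nat := Nat.mod (Nat.shiftRight x s) w

def cg (CG n : Nat) : Nat := sl CG 432 n
def cx (CX n : Nat) : Nat := sl CX 160 n
def xc (x : Nat) : Nat := Nat.mod (Nat.mod x 4) 3
def xt (x : Nat) : Nat := Nat.mod (xf x 2 4) 3
def xT (x : Nat) : Nat := xf x 4 2
def x0 (x : Nat) : Nat := xf x 8 16777216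
def x1 (x : Nat) : Nat := xf x 32 16777216
def x4 (x : Nat) : Nat := xf x 56 281474976710656
def xF (x : Nat) : Nat := Nat.mul (xf x 104 16777216) 1152921504606846976
def xV (x : Nat) : Nat := Nat.mul (xf x 128 16777216) 1152921504606846976

noncomputable def allN (n : Nat) (p : Nat → Bool) : Bool :=
  Nat.rec (motive := fun _ => Bool) true (fun i ih => band (p i) ih) n

noncomputable def allR (lo n : Nat) (p : Nat → Bool) : Bool :=
  allN n fun i => frc (Nat.add lo i) p

/-! The class check, in integers. -/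

def nn (p q : ℤ) : Bool :=
  decide (0 ≤ p * 1329227995784915872903807060280344576 +
    q * 3255930341495392922820269092556286664 - |q|)

/-- `|p + q √6| ≤ n + k √6`. -/
def ab (p q n k : ℤ) : Bool := nn (n - p) (k - q) && nn (n + p) (k + q)

def dz (g n : ℕ) : ℤ := (dg g n : ℤ) - 2048
def r1 (g n : ℕ) : ℤ := 6 * dz g n - 3 * dz g (n + 1)
def r2 (g n : ℕ) : ℤ := -3 * dz g (n + 3)
def i1 (g n : ℕ) : ℤ := 3 * dz g (n + 1)
def i2 (g n : ℕ) : ℤ := 2 * dz g (n + 2) - dz g (n + 3)
def re1 (g n : ℕ) : ℤ :=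
  r1 g n * r1 g 24 + 3 * (i1 g n * i1 g 24) + 6 * (r2 g n * r2 g 24 + 3 * (i2 g n * i2 g 24))
def re2 (g n : ℕ) : ℤ :=
  r1 g n * r2 g 24 + r2 g n * r1 g 24 + 3 * (i1 g n * i2 g 24 + i2 g n * i1 g 24)
def im1 (g n : ℕ) : ℤ :=
  i1 g n * r1 g 24 - r1 g n * i1 g 24 + 6 * (i2 g n * r2 g 24 - r2 g n * i2 g 24)
def im2 (g n : ℕ) : ℤ :=
  i1 g n * r2 g 24 + i2 g n * r1 g 24 - r1 g n * i2 g 24 - r2 g n * i1 g 24

def cls1 (n k p q u v s t a0 a1 a4 tf tv : ℤ) : Bool :=
  nn (n - 1) k &&
  ab (1048576 * p + (4194304 - a0) * n) (1048576 * q + (4194304 - a0) * k) n k &&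
  ab (1048576 * u + (4194304 - a1) * n) (1048576 * v + (4194304 - a1) * k) n k &&
  ab (1099511627776 * (s + 4 * (p - u)) + 1048576 * (a0 * u - a1 * p) +
      (35184372088832 + 4194304 * (a0 - a1) - a4) * n)
    (1099511627776 * (t + 4 * (q - v)) + 1048576 * (a0 * v - a1 * q) +
      (35184372088832 + 4194304 * (a0 - a1) - a4) * k) (4 * n) (4 * k) &&
  nn (98 * tf * n - 291600 * 4835703278458516698824704) (98 * tf * k) &&
  nn (285768 * 4835703278458516698824704 - 100 * tv * n) (-100 * tv * k)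

def cls (g x : ℕ) : Bool :=
  cls1 (re1 g 24) (re2 g 24) (re1 g 12) (re2 g 12) (im1 g 12) (im2 g 12) (im1 g 0) (im2 g 0)
    (x0 x) (x1 x) (x4 x) (xF x) (xV x)

def clt1 (n k p q u v s t : ℤ) : Bool :=
  nn (n - 46656) k && nn (583200 - n) (-k) && ab (100 * p) (100 * q) (51 * n) (51 * k) &&
  ab (1000 * u) (1000 * v) (334 * n) (334 * k) && ab (100 * s) (100 * t) (17 * n) (17 * k)

def clt (g : ℕ) : Bool :=
  clt1 (re1 g 24) (re2 g 24) (re1 g 12) (re2 g 12) (im1 g 12) (im2 g 12) (im1 g 0) (im2 g 0)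

/-! Translated records. -/

abbrev K4 := Nat → Nat → Nat → Nat → Bool

noncomputable def mkG (S H Q R a0 a1 a4 A B M : Nat) (k : K4) : Bool :=
  frc (Nat.add a0 (Nat.mul S A)) fun u => frc (Nat.mul H (Nat.succ B)) fun v =>
  frc (Nat.add a1 (Nat.mul H B)) fun w =>
  band (band (Nat.ble v u) (Nat.ble H w))
    (frc (Nat.sub u v) fun b0 => frc (Nat.sub w H) fun b1 =>
      frc (Nat.add (Nat.add a4 (Nat.mul R
          (Nat.succ (Nat.add (Nat.mul A (Nat.add A 16)) (Nat.mul B B)))))
        (Nat.add (Nat.div (Nat.mul Q M) 3)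
          (Nat.add (Nat.mul (Nat.mul H B) a0) (Nat.mul v a1)))) fun p =>
      frc (Nat.add (Nat.mul R (Nat.add (Nat.add (Nat.mul A (Nat.succ B)) (Nat.mul 17 B)) 8))
        (Nat.add (Nat.mul H a0) (Nat.mul (Nat.mul S A) a1))) fun q => k b0 b1 p q)

noncomputable def mkR (a0 a1 a4 A B M : Nat) (k : K4) : Bool :=
  mkG 1048576 524288 1099511627776 549755813888 a0 a1 a4 A B M k

noncomputable def mkJ (x j : Nat) (k : K4) : Bool :=
  frc (x0 x) fun a0 => frc (x1 x) fun a1 => frc (fl j 54 4) fun A => frc (fl j 18 3) fun B =>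
    mkR a0 a1 (x4 x) A B (Nat.mod j 18) k

/-- The code of the translation with index `j`. -/
def pj (j : Nat) : Nat :=
  Nat.add (Nat.add (Nat.mul 64 (Nat.add (fl j 54 4) 7)) (Nat.mul 1024 (Nat.add (fl j 18 3) 7)))
    (Nat.mul 16384 (Nat.add (Nat.mod j 18) 52))

noncomputable def inR (NE n : Nat) : Bool := band (Nat.ble 8 n) (Nat.ble (Nat.succ n) NE)

noncomputable def isT (NE n x : Nat) : Bool := band (inR NE n) (Nat.beq (xT x) 1)

noncomputable def U6 (CG pb nb pa na p1 nc p2 : Nat) : Bool :=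
  frc (cg CG nb) fun gb => frc (cg CG na) fun ga => frc (cg CG nc) fun gc => frc pb fun pb =>
    frc pa fun pa => frc p1 fun p1 => frc p2 fun p2 => U5 pb gb pa ga p1 gc p2

/-- The quotient of two elements is a listed step. -/
noncomputable def adj (CG CX NE pa na pb nb c1 c2 w : Nat) : Bool :=
  frc (Nat.mod w 1024) fun q => frc (cx CX q) fun x =>
    band (bor (Nat.ble q 2) (isT NE q x)) (band (band (Nat.beq (xc x) c1) (Nat.beq (xt x) c2))
      (U6 CG pb nb pa na (xf w 10 2097152) q (xf w 31 2097152)))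

/-- The entry is a product of earlier entries. -/
noncomputable def memb (CG CX n x w : Nat) : Bool :=
  frc (Nat.mod w 1024) fun a => frc (xf w 10 1024) fun c => frc (cx CX a) fun y =>
    frc (cx CX c) fun z => band (band (Nat.ble (Nat.succ a) n) (Nat.ble (Nat.succ c) n))
      (band (band (Nat.beq (xc y) (xc x)) (band (Nat.beq (xt y) (xc z)) (Nat.beq (xt z) (xt x))))
        (U6 CG 1057280 n (xf w 20 2097152) a (xf w 41 2097152) c (xf w 62 2097152)))

/-- The rotated entry is listed. -/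
noncomputable def rotc (CG CX NE n x w : Nat) : Bool :=
  frc (Nat.mod w 1024) fun q => frc (cx CX q) fun y =>
    band (isT NE q y) (band (band (Nat.beq (xc y) (xc x)) (Nat.beq (xt y) (xt x)))
      (U6 CG 1057288 n 1057280 q 1057280 0 (xf w 10 2097152)))

noncomputable def ent (CG CX CR NE n : Nat) : Bool :=
  frc (cx CX n) fun x => frc (sl CR 168 n) fun w => frc (cg CG n) fun g =>
    band (band (memb CG CX n x w) (cls g x)) (bor (Nat.beq (xT x) 0)
      (band (clt g) (band (rotc CG CX NE n x (Nat.shiftRight w 83))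
        (adj CG CX NE 1057280 n 1057280 0 (xt x) (xc x) (Nat.shiftRight w 114)))))

noncomputable def msk (T w off n : Nat) : Nat :=
  Nat.rec (motive := fun _ => Nat) 0
    (fun i ih => Nat.lor ih (Nat.pow 2 (Nat.mod (sl T w (Nat.add off i)) 131072))) n

noncomputable def hbT (CX HX AD NE NH i u : Nat) (k : KH) : Bool :=
  band (Nat.ble (Nat.succ u) NH) (frc (sl HX 40 u) fun h => frc (Nat.mod h 131072) fun j =>
    frc (cx CX (Nat.div j 216)) fun x => mkJ x j fun a0 a1 ap an =>
      k a0 a1 ap an (xV x) j (Nat.lor (Nat.pow 2 j) (msk AD 69 (xf h 17 8192) (xf h 30 256)))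
        (band (isT NE (Nat.div j 216) x) (Nat.beq (xc x) i)))

noncomputable def hok (CG CX HX AD NE u : Nat) : Bool :=
  frc (sl HX 40 u) fun h => frc (Nat.mod h 131072) fun j => frc (Nat.div j 216) fun n =>
    band (inR NE n) (frc (pj j) fun p => frc (xt (cx CX n)) fun c =>
      allN (xf h 30 256) fun i => frc (sl AD 69 (Nat.add (xf h 17 8192) i)) fun d =>
        frc (Nat.mod d 131072) fun l => frc (Nat.div l 216) fun m => band (inR NE m)
          (adj CG CX NE p n (pj l) m c (xt (cx CX m)) (Nat.shiftRight d 17)))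

noncomputable def bld (CX EU NE : Nat) (k : RL → Bool) (n : Nat) : RL → Bool :=
  Nat.rec (motive := fun _ => RL → Bool) k (fun i ih acc =>
    frc (Nat.mod (sl EU 17 (Nat.add 0 i)) 131072) fun j => frc (cx CX (Nat.div j 216)) fun x =>
      band (inR NE (Nat.div j 216)) (mkJ x j fun a0 a1 ap an => frc (xF x) fun th =>
        ih (RL.cons a0 a1 ap an th j acc))) n

noncomputable def run (CX HX AD EU NE NH NU i : Nat) (t : Tr) : Bool :=
  bld CX EU NE (fun U => chk (hbT CX HX AD NE NH i) t 4456448 4325376 35734127902720 262145 131073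
    183252331189 U 0) NU RL.nil

/-- All translates of one entry are listed or far from the root box. -/
noncomputable def cmp (CX i MS n : Nat) : Bool :=
  frc (cx CX n) fun x => bor (bor (Nat.beq (xT x) 0)
      (bor (Nat.ble (Nat.succ (xc x)) i) (Nat.ble (Nat.succ i) (xc x))))
    (frc (x0 x) fun a0 => frc (x1 x) fun a1 => frc (x4 x) fun a4 => frc (xF x) fun th =>
      allN 4 fun A => allN 3 fun B =>
        frc (Nat.add (Nat.mul 216 n) (Nat.add (Nat.mul 54 A) (Nat.mul 18 B))) fun j =>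
          allN 18 fun M => bor (tb MS (Nat.add j M)) (mkR a0 a1 a4 A B M fun b0 b1 p q =>
            far 4456448 4325376 35734127902720 262145 131073 183252331189 b0 b1 p q th))

noncomputable def cmpAll (CX EU NE NU i : Nat) : Bool :=
  frc (msk EU 17 0 NU) fun MS => allN NE (cmp CX i MS)

end Pool.Agent.MP_d97ab6_al.H19
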